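import Mathlib
import Pool.Agent.H58B.Low

set_option autoImplicit false

/-!
# Heights of products, and the basic inequality for a conjugate close to the number at `p`
-/

namespace Pool.Agent.H58R

open NumberField Height Module
open Pool.Agent.Helper259.AbsHt
open Pool.Agent.H58P (Qb ht qb_isIntegral)
open Pool.Agent.H58B (height_ge ht_conj absLogHeight_four ht_pow)

lemma ht_nonneg (x : Qb) : 0 ≤ ht x := absLogHeight_nonneg _

lemma ht_mul_le (x y : Qb) : ht (x * y) ≤ ht x + ht y := by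
  rw [← absLogHeight_four]
  have h := absLogHeight_comp_le (![((0 : Fin 2), (0 : Fin 2)), (1, 1)] : Fin 2 → Fin 2 × Fin 2)
    (fun a : Fin 2 × Fin 2 => (![1, x] : Fin 2 → Qb) a.1 * (![1, y] : Fin 2 → Qb) a.2)
  have e : (fun a : Fin 2 × Fin 2 => (![1, x] : Fin 2 → Qb) a.1 * (![1, y] : Fin 2 → Qb) a.2) ∘
      (![((0 : Fin 2), (0 : Fin 2)), (1, 1)] : Fin 2 → Fin 2 × Fin 2) = ![1, x * y] := by
    funext i
    fin_cases i <;> simp
  rw [e] at h
  exact h

lemma ht_one : ht (1 : Qb) = 0 := by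
  have h := ht_pow (1 : Qb) 2
  rw [one_pow] at h
  push_cast at h
  linarith

lemma ht_of_pow_eq_one (x : Qb) (n : ℕ) (hn : 0 < n) (h : x ^ n = 1) : ht x = 0 := by
  have h1 := ht_pow x n
  rw [h, ht_one] at h1
  have hn' : (n : ℝ) ≠ 0 := by positivity
  rcases mul_eq_zero.mp h1.symm with h2 | h2
  · exact absurd h2 hn'
  · exact h2

lemma ht_inv_le (x : Qb) (hx : x ≠ 0) : ht x⁻¹ ≤ ht x := by
  have h := absLogHeight_comp_le (![(1 : Fin 2), 0] : Fin 2 → Fin 2) (![1, x⁻¹] : Fin 2 → Qb)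
  have h1 : absLogHeight (x • (![1, x⁻¹] : Fin 2 → Qb)) = absLogHeight ![1, x⁻¹] :=
    absLogHeight_smul _ hx
  have h2 := absLogHeight_comp_le (![(1 : Fin 2), 0] : Fin 2 → Fin 2) (![1, x] : Fin 2 → Qb)
  have e : x • (![1, x⁻¹] : Fin 2 → Qb) = ![x, 1] := by
    funext i
    fin_cases i <;> simp [hx]
  have e2 : (![1, x] : Fin 2 → Qb) ∘ (![(1 : Fin 2), 0] : Fin 2 → Fin 2) = ![x, 1] := by
    funext i
    fin_cases i <;> simp
  rw [e] at h1
  show absLogHeight ![1, x⁻¹] ≤ absLogHeight ![1, x]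
  rw [← h1]
  rw [e2] at h2
  exact h2

lemma ht_inv (x : Qb) (hx : x ≠ 0) : ht x⁻¹ = ht x := by
  refine le_antisymm (ht_inv_le x hx) ?_
  have := ht_inv_le x⁻¹ (inv_ne_zero hx)
  rwa [inv_inv] at this

lemma ht_zpow (x : Qb) (hx : x ≠ 0) (m : ℤ) : ht (x ^ m) = |(m : ℝ)| * ht x := by
  obtain ⟨n, rfl | rfl⟩ := m.eq_nat_or_neg
  · rw [zpow_natCast, ht_pow]
    simp
  · rw [zpow_neg, zpow_natCast, ht_inv _ (pow_ne_zero n hx), ht_pow]
    simp

lemma ht_prod_le {ι : Type*} (s : Finset ι) (f : ι → Qb) :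
    ht (∏ i ∈ s, f i) ≤ ∑ i ∈ s, ht (f i) := by
  classical
  induction s using Finset.induction_on with
  | empty => simp [ht_one]
  | insert i s hi ih =>
    rw [Finset.prod_insert hi, Finset.sum_insert hi]
    exact (ht_mul_le _ _).trans (by linarith)

/-- multiplication by a root of unity -/
lemma ht_unit_mul (ω y : Qb) (n : ℕ) (hn : 0 < n) (h : ω ^ n = 1) : ht (ω * y) = ht y := by
  have hω : ω ≠ 0 := by
    rintro rfl
    rw [zero_pow hn.ne'] at h
    exact zero_ne_one h
  have h0 := ht_of_pow_eq_one ω n hn h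
  apply le_antisymm
  · have := ht_mul_le ω y
    linarith
  · have h1 := ht_mul_le ω⁻¹ (ω * y)
    rw [inv_mul_cancel_left₀ hω, ht_inv ω hω, h0] at h1
    linarith

/-- the basic inequality -/
theorem ht_step (p : ℕ) (hp : p.Prime) (β z : Qb) (hz : ht z = ht β)
    (hD : z ^ p ≠ β ^ p)
    (hV : ∀ V : ValuationSubring Qb, V.valuation (p : Qb) < 1 →
      V.valuation (z ^ p - β ^ p) ^ (p - 1) ≤ V.valuation (p : Qb) ^ p *
        V.valuation (β ^ p) ^ (p - 1)) :
    Real.log 2 / (2 * p * (p - 1)) ≤ ht β := by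
  have hp2 := hp.two_le
  set D := z ^ p - β ^ p with hDdef
  have hD0 : D ≠ 0 := sub_ne_zero.mpr hD
  have hp0 : (p : Qb) ≠ 0 := by exact_mod_cast hp.ne_zero
  set y := β ^ p with hy
  set z' := z ^ p with hz'
  set c : Qb := (p : Qb) ^ p * (D ^ (p - 1))⁻¹ with hc
  have hc0 : c ≠ 0 := mul_ne_zero (pow_ne_zero _ hp0) (inv_ne_zero (pow_ne_zero _ hD0))
  set w : Fin 2 × Fin 2 → Qb := fun a =>
    (![1, y ^ (p - 1)] : Fin 2 → Qb) a.1 * (![1, z' ^ (p - 1)] : Fin 2 → Qb) a.2 with hw
  have hsm : absLogHeight (c • w) = absLogHeight w := absLogHeight_smul w hc0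
  have h4 : absLogHeight w = 2 * p * (p - 1) * ht β := by
    have a1 : ht (y ^ (p - 1)) = ((p - 1 : ℕ) : ℝ) * (p * ht β) := by rw [ht_pow, hy, ht_pow]
    have a2 : ht (z' ^ (p - 1)) = ((p - 1 : ℕ) : ℝ) * (p * ht β) := by
      rw [ht_pow, hz', ht_pow, hz]
    rw [hw, absLogHeight_four, a1, a2]
    have : ((p - 1 : ℕ) : ℝ) = (p : ℝ) - 1 := by
      rw [Nat.cast_sub (by omega)]; simp
    rw [this]
    ring
  have hw1 : w (1, 0) = y ^ (p - 1) := by simp [hw]
  have hw2 : w (0, 1) = z' ^ (p - 1) := by simp [hw]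
  have key : Real.log 2 ≤ absLogHeight (c • w) := by
    apply height_ge
    · intro V
      by_contra hcon
      push Not at hcon
      have h1 : V.valuation (c * y ^ (p - 1)) < 1 := by
        have := hcon (1, 0)
        rwa [Pi.smul_apply, smul_eq_mul, hw1] at this
      have h2 : V.valuation (c * z' ^ (p - 1)) < 1 := by
        have := hcon (0, 1)
        rwa [Pi.smul_apply, smul_eq_mul, hw2] at this
      have hpV : V.valuation (p : Qb) ≤ 1 := by
        rw [ValuationSubring.valuation_le_one_iff]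
        exact natCast_mem V p
      have hvD : V.valuation (D ^ (p - 1)) ≠ 0 :=
        (Valuation.ne_zero_iff _).mpr (pow_ne_zero _ hD0)
      have hlt : ∀ e : Qb, V.valuation (c * e) < 1 →
          V.valuation (p : Qb) ^ p * V.valuation e < V.valuation (D ^ (p - 1)) := by
        intro e he
        have e1 : V.valuation (D ^ (p - 1)) * V.valuation (c * e) =
            V.valuation (p : Qb) ^ p * V.valuation e := by
          rw [← map_mul, ← map_pow, ← map_mul, hc]
          congr 1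
          field_simp
        rw [← e1]
        calc V.valuation (D ^ (p - 1)) * V.valuation (c * e) < V.valuation (D ^ (p - 1)) * 1 :=
              mul_lt_mul_of_pos_left he (zero_lt_iff.mpr hvD)
          _ = _ := mul_one _
      rcases lt_or_eq_of_le hpV with h | h
      · have h3 := hV V h
        have h5 := hlt _ h1
        rw [map_pow] at h5
        rw [map_pow V.valuation D] at h5
        exact absurd h3 (not_le.mpr h5)
      · have h3 := hlt _ h1
        have h5 := hlt _ h2
        rw [h, one_pow, one_mul] at h3 h5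
        rw [map_pow V.valuation D (p - 1), map_pow V.valuation y (p - 1)] at h3
        rw [map_pow V.valuation D (p - 1), map_pow V.valuation z' (p - 1)] at h5
        have h6 : V.valuation D ≤ max (V.valuation z') (V.valuation y) := Valuation.map_sub _ _ _
        rcases le_max_iff.mp h6 with h7 | h7
        · exact absurd (pow_le_pow_left₀ zero_le h7 (p - 1)) (not_le.mpr h5)
        · exact absurd (pow_le_pow_left₀ zero_le h7 (p - 1)) (not_le.mpr h3)
    · intro φ
      by_contra hcon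
      push Not at hcon
      have h1 : ‖φ (c * y ^ (p - 1))‖ < 2 := by
        have := hcon (1, 0)
        rwa [Pi.smul_apply, smul_eq_mul, hw1] at this
      have h2 : ‖φ (c * z' ^ (p - 1))‖ < 2 := by
        have := hcon (0, 1)
        rwa [Pi.smul_apply, smul_eq_mul, hw2] at this
      have hnD : 0 < ‖φ D‖ := norm_pos_iff.mpr (by
        intro h
        exact hD0 ((map_eq_zero φ).mp h))
      have hp1 : p - 1 + 1 = p := by omega
      have hlt : ∀ e : Qb, ‖φ (c * e ^ (p - 1))‖ < 2 →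
          (p : ℝ) ^ p * ‖φ e‖ ^ (p - 1) < 2 * ‖φ D‖ ^ (p - 1) := by
        intro e he
        have e1 : ‖φ D‖ ^ (p - 1) * ‖φ (c * e ^ (p - 1))‖ = (p : ℝ) ^ p * ‖φ e‖ ^ (p - 1) := by
          have e2 : D ^ (p - 1) * (c * e ^ (p - 1)) = (p : Qb) ^ p * e ^ (p - 1) := by
            rw [hc]
            field_simp
          rw [← norm_pow, ← map_pow, ← norm_mul, ← map_mul, e2, map_mul, map_pow, map_pow,
            norm_mul, norm_pow, norm_pow, map_natCast, Complex.norm_natCast]
        rw [← e1, mul_comm (2 : ℝ)]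
        exact mul_lt_mul_of_pos_left he (pow_pos hnD _)
      have h3 := hlt _ h1
      have h5 := hlt _ h2
      have h6 : ‖φ D‖ ≤ ‖φ z'‖ + ‖φ y‖ := by
        rw [hDdef, map_sub]
        exact norm_sub_le _ _
      have hpp : (2 : ℝ) * 2 ^ (p - 1) ≤ (p : ℝ) ^ p := by
        calc (2 : ℝ) * 2 ^ (p - 1) = 2 ^ p := by rw [← pow_succ', hp1]
          _ ≤ (p : ℝ) ^ p := by
            apply pow_le_pow_left₀ (by norm_num)
            exact_mod_cast hp2
      have hfin : ∀ m : ℝ, 0 ≤ m → ‖φ D‖ ≤ 2 * m →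
          (p : ℝ) ^ p * m ^ (p - 1) < 2 * ‖φ D‖ ^ (p - 1) → False := by
        intro m hm hDm hlt'
        have e3 : ‖φ D‖ ^ (p - 1) ≤ (2 * m) ^ (p - 1) := pow_le_pow_left₀ hnD.le hDm _
        rw [mul_pow] at e3
        have e4 : 2 * 2 ^ (p - 1) * m ^ (p - 1) ≤ (p : ℝ) ^ p * m ^ (p - 1) :=
          mul_le_mul_of_nonneg_right hpp (pow_nonneg hm _)
        nlinarith
      rcases le_total ‖φ z'‖ ‖φ y‖ with h7 | h7
      · exact hfin _ (norm_nonneg _) (by linarith) h3
      · exact hfin _ (norm_nonneg _) (by linarith) h5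
  rw [hsm, h4] at key
  have hpos : (0 : ℝ) < 2 * p * (p - 1) := by
    have : (2 : ℝ) ≤ p := by exact_mod_cast hp2
    have h1 : (0 : ℝ) < p - 1 := by linarith
    positivity
  rw [div_le_iff₀ hpos]
  linarith

end Pool.Agent.H58R
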