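import Mathlib
import Pool.Agent.H58R.Zeta
import Pool.Agent.H58B.Val

set_option autoImplicit false

/-!
# Heights in a field `K(x)`, `x ^ n ∈ K`, totally ramified above the prime divisors of `n`
-/

namespace Pool.Agent.H58R

open IntermediateField Polynomial Module
open Pool.Agent.H58P (Qb ht qb_isIntegral alg_isIntegral)
open Pool.Agent.H58B (ht_conj)

lemma gen_mem (K : IntermediateField ℚ Qb) (n : ℕ) (hn : 0 < n) (x : Qb) (hxn : x ^ n ∈ K)
    (y : Qb) (hy : y ∈ K ⊔ IntermediateField.adjoin ℚ {x}) :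
    ∃ b : ℕ → K, y = ∑ j ∈ Finset.range n, (b j : Qb) * x ^ j := by
  rw [← Pool.Agent.H58B.mem_adjoin_iff] at hy
  have halg : IsAlgebraic K x := (alg_isIntegral K x).isAlgebraic
  have h1 : y ∈ (IntermediateField.adjoin K {x}).toSubalgebra := hy
  rw [adjoin_simple_toSubalgebra_of_isAlgebraic halg, Algebra.adjoin_singleton_eq_range_aeval] at h1
  obtain ⟨q, hq⟩ := h1
  have hq' : aeval x q = y := hq
  set c : K := ⟨x ^ n, hxn⟩ with hc
  have hmon : (X ^ n - C c).Monic := monic_X_pow_sub_C _ hn.ne'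
  have hdeg : (X ^ n - C c).natDegree = n := natDegree_X_pow_sub_C
  have hne : (X ^ n - C c) ≠ 1 := by
    intro h
    rw [h, natDegree_one] at hdeg
    omega
  have hroot : aeval x (X ^ n - C c) = 0 := by
    rw [map_sub, map_pow, aeval_X, aeval_C]
    show x ^ n - x ^ n = 0
    exact sub_self _
  have hlt := natDegree_modByMonic_lt q hmon hne
  rw [hdeg] at hlt
  rw [← aeval_modByMonic_eq_self_of_root hroot, aeval_eq_sum_range' hlt] at hq'
  refine ⟨fun j => (q %ₘ (X ^ n - C c)).coeff j, ?_⟩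
  rw [← hq']
  apply Finset.sum_congr rfl
  intro j _
  rw [Algebra.smul_def]
  rfl

lemma exists_aut (K : IntermediateField ℚ Qb) (n : ℕ) (hn : 0 < n) (x : Qb) (hxn : x ^ n ∈ K)
    (hlin : ∀ b : ℕ → K, ∑ j ∈ Finset.range n, (b j : Qb) * x ^ j = 0 → ∀ j < n, b j = 0)
    (ω : Qb) (hω : ω ^ n = 1) :
    ∃ σ : Qb ≃ₐ[ℚ] Qb, σ x = ω * x ∧ ∀ y ∈ K, σ y = y := by
  have hcl : IsAlgClosure K Qb := ⟨inferInstance, inferInstance⟩
  have hN : Normal K Qb := IsAlgClosure.normal K Qb
  set c : K := ⟨x ^ n, hxn⟩ with hc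
  have hmon : (X ^ n - C c).Monic := monic_X_pow_sub_C _ hn.ne'
  have hdeg : (X ^ n - C c).natDegree = n := natDegree_X_pow_sub_C
  have hroot : ∀ s : Qb, s ^ n = x ^ n → aeval s (X ^ n - C c) = 0 := by
    intro s hs
    rw [map_sub, map_pow, aeval_X, aeval_C]
    show s ^ n - x ^ n = 0
    rw [hs, sub_self]
  have hint : IsIntegral K x := alg_isIntegral K x
  have hqm : (minpoly K x).Monic := minpoly.monic hint
  have hge : n ≤ (minpoly K x).natDegree := by
    by_contra hcon
    push Not at hcon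
    have h0 : aeval x (minpoly K x) = 0 := minpoly.aeval K x
    rw [aeval_eq_sum_range' hcon] at h0
    have h1 := hlin (fun j => (minpoly K x).coeff j) (by
      rw [← h0]
      apply Finset.sum_congr rfl
      intro j _
      rw [Algebra.smul_def]
      rfl) _ hcon
    have h2 : (minpoly K x).coeff (minpoly K x).natDegree = 1 := hqm
    have h3 : (1 : K) = 0 := h2.symm.trans h1
    exact one_ne_zero h3
  have h1 : X ^ n - C c = minpoly K x :=
    eq_of_monic_of_dvd_of_natDegree_le hqm hmon (minpoly.dvd K x (hroot x rfl))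
      (by rw [hdeg]; exact hge)
  have hirr : Irreducible (X ^ n - C c) := by
    rw [h1]; exact minpoly.irreducible hint
  have h2 : minpoly K (ω * x) = X ^ n - C c :=
    (minpoly.eq_of_irreducible_of_monic hirr (hroot (ω * x) (by rw [mul_pow, hω, one_mul]))
      hmon).symm
  obtain ⟨σ, hσ⟩ := (Normal.minpoly_eq_iff_mem_orbit Qb).mp (h2.trans h1)
  exact ⟨σ.restrictScalars ℚ, hσ, fun x hx => σ.commutes ⟨x, hx⟩⟩

/-- there is a place over a prime -/
lemma exists_over (p : ℕ) (hp : p.Prime) : ∃ V : ValuationSubring Qb, V.valuation (p : Qb) < 1 := by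
  have hp0 : (p : Qb) ≠ 0 := by exact_mod_cast hp.ne_zero
  have h1 : (p : Qb)⁻¹ ∉ (integralClosure ℤ Qb).toSubring := by
    intro h
    have h2 : IsIntegral ℤ ((p : Qb)⁻¹) := h
    have h5 : IsIntegral ℤ ((p : ℚ)⁻¹) := by
      rw [← isIntegral_algebraMap_iff (algebraMap ℚ Qb).injective]
      simpa using h2
    obtain ⟨y, hy⟩ := IsIntegrallyClosed.isIntegral_iff.mp h5
    have h6 : (y : ℚ) * p = 1 := by
      have : (y : ℚ) = (p : ℚ)⁻¹ := hy
      rw [this, inv_mul_cancel₀ (by exact_mod_cast hp.ne_zero)]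
    have h7 : y * p = 1 := by exact_mod_cast h6
    have h8 : IsUnit (p : ℤ) := IsUnit.of_mul_eq_one y (by rw [mul_comm]; exact h7)
    exact (Nat.prime_iff_prime_int.mp hp).not_isUnit h8
  obtain ⟨V, -, hV⟩ := Subring.exists_le_valuationSubring_of_isIntegrallyClosedIn h1
  refine ⟨V, ?_⟩
  rw [← ValuationSubring.valuation_le_one_iff, not_le, map_inv₀] at hV
  exact (one_lt_inv₀ (zero_lt_iff.mpr ((Valuation.ne_zero_iff _).mpr hp0))).mp hV

/-- distinct valuations of the terms -/
lemma distinct (K : IntermediateField ℚ Qb) (n : ℕ) (x : Qb) (hx0 : x ≠ 0)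
    (V : ValuationSubring Qb)
    (hVI : ∀ j, 0 < j → j < n → ∀ b ∈ K, V.valuation (x ^ j) ≠ V.valuation b)
    (b b' : K) (hb : b ≠ 0) (i j : ℕ) (hi : i < n) (hj : j < n) (hij : i ≠ j) :
    V.valuation ((b : Qb) * x ^ i) ≠ V.valuation ((b' : Qb) * x ^ j) := by
  have key : ∀ (b b' : K) (i j : ℕ), i < j → j < n → b' ≠ 0 →
      V.valuation ((b : Qb) * x ^ i) ≠ V.valuation ((b' : Qb) * x ^ j) := by
    intro b b' i j hij hj hb' h
    have hb'' : (b' : Qb) ≠ 0 := by exact_mod_cast hb'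
    have h1 : V.valuation (x ^ (j - i)) = V.valuation ((b / b' : K) : Qb) := by
      have e : x ^ j = x ^ (j - i) * x ^ i := by rw [← pow_add]; congr 1; omega
      have hxi : V.valuation (x ^ i) ≠ 0 := (Valuation.ne_zero_iff _).mpr (pow_ne_zero _ hx0)
      have hvb : V.valuation (b' : Qb) ≠ 0 := (Valuation.ne_zero_iff _).mpr hb''
      rw [e, ← mul_assoc, map_mul, map_mul _ ((b' : Qb) * x ^ (j - i))] at h
      have h2 := mul_right_cancel₀ hxi h
      rw [map_mul] at h2
      have e2 : ((b / b' : K) : Qb) = (b : Qb) / b' := rfl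
      rw [e2, map_div₀, h2, mul_comm, mul_div_assoc, div_self hvb, mul_one]
    exact hVI (j - i) (by omega) (by omega) _ (b / b').2 h1
  rcases lt_or_gt_of_ne hij with h | h
  · by_cases hb' : b' = 0
    · rw [hb']
      intro h1
      have e : ((0 : K) : Qb) * x ^ j = 0 := by
        rw [show ((0 : K) : Qb) = 0 from rfl, zero_mul]
      rw [e, map_zero, Valuation.zero_iff] at h1
      have hb2 : (b : Qb) ≠ 0 := by exact_mod_cast hb
      exact (mul_ne_zero hb2 (pow_ne_zero _ hx0)) h1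
    · exact key b b' i j h hj hb'
  · exact (key b' b j i h hi hb).symm

end Pool.Agent.H58R
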