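import Mathlib
import Pool.Agent.H58R.Lev

set_option autoImplicit false

/-!
# The level theorem
-/

namespace Pool.Agent.H58R

open IntermediateField Polynomial Module
open Pool.Agent.H58P (Qb ht qb_isIntegral alg_isIntegral)
open Pool.Agent.H58B (ht_conj)

lemma one_sub_ne_zero' {χ : Qb} (h : χ ≠ 1) : (1 : Qb) - χ ≠ 0 := fun h1 =>
  h (sub_eq_zero.mp h1).symm

/-- the main theorem of one level -/
theorem level (K : IntermediateField ℚ Qb) (n : ℕ) (hn : 0 < n) (x : Qb) (hx0 : x ≠ 0)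
    (hxn : x ^ n ∈ K)
    (hVI : ∀ p : ℕ, p.Prime → p ∣ n → ∀ V : ValuationSubring Qb, V.valuation (p : Qb) < 1 →
      ∀ j, 0 < j → j < n → ∀ b ∈ K, V.valuation (x ^ j) ≠ V.valuation b)
    (N : ℕ) (hN : ∀ p : ℕ, p.Prime → p ∣ n → p ≤ N)
    (β : Qb) (hβ : β ∈ K ⊔ IntermediateField.adjoin ℚ {x}) (hβ0 : β ≠ 0) :
    (∃ b ∈ K, ∃ j : ℕ, β = b * x ^ j) ∨ Real.log 2 / (2 * (N : ℝ) ^ 2) ≤ ht β := by
  classical
  obtain ⟨b, hb⟩ := gen_mem K n hn x hxn β hβ
  set S : Finset ℕ := (Finset.range n).filter (fun j => b j ≠ 0) with hS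
  have hβS : β = ∑ j ∈ S, (b j : Qb) * x ^ j := by
    rw [hb, hS, Finset.sum_filter_of_ne]
    intro j _ hj
    intro h0
    apply hj
    rw [h0]
    show (0 : Qb) * x ^ j = 0
    rw [zero_mul]
  have hSn : ∀ j ∈ S, j < n := fun j hj => Finset.mem_range.mp (Finset.mem_filter.mp hj).1
  have hSb : ∀ j ∈ S, b j ≠ 0 := fun j hj => (Finset.mem_filter.mp hj).2
  have hSne : S.Nonempty := by
    rw [Finset.nonempty_iff_ne_empty]
    intro h
    rw [h, Finset.sum_empty] at hβS
    exact hβ0 hβS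
  obtain ⟨j0, hj0, hmin⟩ := S.exists_min_image (fun j => j) hSne
  by_cases hone : ∀ j ∈ S, j = j0
  · left
    refine ⟨b j0, (b j0).2, j0, ?_⟩
    rw [hβS, Finset.sum_eq_single j0]
    · intro j hj hne
      exact absurd (hone j hj) hne
    · intro h
      exact absurd hj0 h
  right
  push Not at hone
  obtain ⟨j1, hj1, hj10⟩ := hone
  have hj10' : j0 < j1 := lt_of_le_of_ne (hmin j1 hj1) (Ne.symm hj10)
  -- the prime `p`
  set d : ℕ := Nat.gcd n (S.gcd (fun j => j - j0)) with hd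
  have hdn : d ∣ n := Nat.gcd_dvd_left _ _
  have hdj : ∀ j ∈ S, d ∣ j - j0 := fun j hj =>
    (Nat.gcd_dvd_right _ _).trans (Finset.gcd_dvd hj)
  have hd0 : 0 < d := Nat.pos_of_dvd_of_pos hdn hn
  have hdlt : d < n := by
    have h1 := Nat.le_of_dvd (by omega) (hdj j1 hj1)
    have h2 := hSn j1 hj1
    omega
  obtain ⟨m, hm⟩ := hdn
  have hm1 : m ≠ 1 := by
    rintro rfl
    omega
  obtain ⟨p, hp, hpm⟩ := Nat.exists_prime_and_dvd hm1
  have hdp : d * p ∣ n := by
    rw [hm]; exact Nat.mul_dvd_mul_left d hpm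
  have hpn : p ∣ n := (Dvd.intro_left d rfl).trans hdp
  obtain ⟨ω, hω⟩ := exists_prim (d * p) (Nat.mul_pos hd0 hp.pos)
  have hωn : ω ^ n = 1 := (hω.pow_eq_one_iff_dvd n).mpr hdp
  have hω0 : ω ≠ 0 := by
    rintro rfl
    rw [zero_pow hn.ne'] at hωn
    exact zero_ne_one hωn
  set χ : ℕ → Qb := fun j => ω ^ (j - j0) with hχ
  have hχp : ∀ j ∈ S, χ j ^ p = 1 := by
    intro j hj
    rw [hχ]
    show (ω ^ (j - j0)) ^ p = 1
    rw [← pow_mul, hω.pow_eq_one_iff_dvd]
    exact Nat.mul_dvd_mul_right (hdj j hj) p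
  have hχ0 : χ j0 = 1 := by
    show ω ^ (j0 - j0) = 1
    rw [Nat.sub_self, pow_zero]
  have hχ1 : ∃ j ∈ S, χ j ≠ 1 := by
    by_contra hcon
    push Not at hcon
    have h1 : ∀ j ∈ S, d * p ∣ j - j0 := fun j hj =>
      (hω.pow_eq_one_iff_dvd _).mp (hcon j hj)
    have h2 : d * p ∣ d := Nat.dvd_gcd hdp (Finset.dvd_gcd h1)
    have h3 := Nat.le_of_dvd hd0 h2
    have h4 := hp.two_le
    nlinarith
  -- the automorphism
  have hover : ∀ V : ValuationSubring Qb, V.valuation (p : Qb) < 1 → ∀ i ∈ S, ∀ j ∈ S, i ≠ j →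
      V.valuation ((b i : Qb) * x ^ i) ≠ V.valuation ((b j : Qb) * x ^ j) := by
    intro V hV i hi j hj hij
    exact distinct K n x hx0 V (hVI p hp hpn V hV) (b i) (b j) (hSb i hi) i j (hSn i hi)
      (hSn j hj) hij
  obtain ⟨V0, hV0⟩ := exists_over p hp
  have hlin : ∀ c : ℕ → K, ∑ j ∈ Finset.range n, (c j : Qb) * x ^ j = 0 → ∀ j < n, c j = 0 := by
    intro c hc j hj
    by_contra hcj
    have e1 : ∑ j ∈ (Finset.range n).filter (fun j => c j ≠ 0), (c j : Qb) * x ^ j = 0 := by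
      rw [Finset.sum_filter_of_ne, hc]
      intro j _ hj h0
      apply hj
      rw [h0]
      show (0 : Qb) * x ^ j = 0
      rw [zero_mul]
    refine sum_ne_zero V0.valuation _ (fun j => (c j : Qb) * x ^ j) ?_ j
      (Finset.mem_filter.mpr ⟨Finset.mem_range.mpr hj, hcj⟩) ?_ e1
    · intro i hi j hj hij
      have hi' := Finset.mem_filter.mp hi
      have hj' := Finset.mem_filter.mp hj
      exact distinct K n x hx0 V0 (hVI p hp hpn V0 hV0) (c i) (c j) hi'.2 i j
        (Finset.mem_range.mp hi'.1) (Finset.mem_range.mp hj'.1) hij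
    · exact mul_ne_zero (by exact_mod_cast hcj) (pow_ne_zero _ hx0)
  obtain ⟨σ, hσx, hσK⟩ := exists_aut K n hn x hxn hlin ω hωn
  set z : Qb := (ω⁻¹) ^ j0 * σ β with hz
  have hzS : z = ∑ j ∈ S, χ j * ((b j : Qb) * x ^ j) := by
    rw [hz, hβS, map_sum, Finset.mul_sum]
    apply Finset.sum_congr rfl
    intro j hj
    rw [map_mul, map_pow, hσx, hσK _ (b j).2, mul_pow]
    have h1 : (ω⁻¹) ^ j0 * ω ^ j = ω ^ (j - j0) := by
      have e : ω ^ j = ω ^ (j - j0) * ω ^ j0 := by
        rw [← pow_add]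
        congr 1
        have := hmin j hj
        omega
      rw [e, inv_pow]
      field_simp
    show (ω⁻¹) ^ j0 * ((b j : Qb) * (ω ^ j * x ^ j)) = ω ^ (j - j0) * ((b j : Qb) * x ^ j)
    rw [← h1]
    ring
  have hhz : ht z = ht β := by
    rw [hz, ht_unit_mul _ _ n hn, ht_conj]
    rw [← pow_mul, mul_comm, pow_mul, inv_pow, hωn, inv_one, one_pow]
  obtain ⟨ζ, hζ⟩ := exists_prim p hp.pos
  have hζ1 : ζ ≠ 1 := by
    intro h
    have h1 := hζ.eq_orderOf
    rw [h, orderOf_one] at h1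
    exact hp.one_lt.ne' h1
  have hζp : ζ ^ p = 1 := hζ.pow_eq_one
  have hval : ∀ V : ValuationSubring Qb, ∀ χ ξ : Qb, χ ^ p = 1 → ξ ^ p = 1 → χ ≠ ξ →
      V.valuation (χ - ξ) = V.valuation (1 - ζ) := by
    intro V χ ξ hχ hξ hne
    have hξ0 : ξ ≠ 0 := by
      rintro rfl
      rw [zero_pow hp.ne_zero] at hξ
      exact zero_ne_one hξ
    have e : χ - ξ = -(ξ * (1 - χ * ξ⁻¹)) := by
      field_simp
      ring
    rw [e, Valuation.map_neg, map_mul, val_root V.valuation ξ p hp.pos hξ, one_mul]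
    apply val_one_sub_eq V.valuation p hp _ _ _ _ hζp hζ1
    · rw [mul_pow, inv_pow, hχ, hξ, inv_one, mul_one]
    · intro h
      apply hne
      field_simp at h
      exact h
  have hD : z ^ p ≠ β ^ p := by
    intro h
    set ξ : Qb := z / β with hξ
    have hξp : ξ ^ p = 1 := by
      rw [hξ, div_pow, h, div_self (pow_ne_zero _ hβ0)]
    have hzξ : z = ξ * β := by
      rw [hξ, div_mul_cancel₀ _ hβ0]
    have hsum : ∑ j ∈ S.filter (fun j => χ j ≠ ξ), (χ j - ξ) * ((b j : Qb) * x ^ j) = 0 := by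
      rw [Finset.sum_filter_of_ne]
      · have e : ∑ j ∈ S, (χ j - ξ) * ((b j : Qb) * x ^ j) = z - ξ * β := by
          rw [hzS, hβS, Finset.mul_sum, ← Finset.sum_sub_distrib]
          apply Finset.sum_congr rfl
          intro j _
          ring
        rw [e, hzξ, sub_self]
      · intro j _ hj h0
        apply hj
        rw [h0, sub_self, zero_mul]
    obtain ⟨i, hi, hiξ⟩ : ∃ i ∈ S, χ i ≠ ξ := by
      by_contra hcon
      push Not at hcon
      have h1 : ξ = 1 := by rw [← hcon j0 hj0, hχ0]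
      obtain ⟨j, hj, hj1⟩ := hχ1
      exact hj1 ((hcon j hj).trans h1)
    refine sum_ne_zero V0.valuation _ (fun j => (χ j - ξ) * ((b j : Qb) * x ^ j)) ?_ i
      (Finset.mem_filter.mpr ⟨hi, hiξ⟩) ?_ hsum
    · intro i hi j hj hij
      have hi' := Finset.mem_filter.mp hi
      have hj' := Finset.mem_filter.mp hj
      rw [map_mul, map_mul V0.valuation (χ j - ξ), hval V0 _ _ (hχp i hi'.1) hξp hi'.2,
        hval V0 _ _ (hχp j hj'.1) hξp hj'.2]
      intro h1
      have h2 : V0.valuation (1 - ζ) ≠ 0 :=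
        (Valuation.ne_zero_iff _).mpr (one_sub_ne_zero' hζ1)
      exact hover V0 hV0 i hi'.1 j hj'.1 hij (mul_left_cancel₀ h2 h1)
    · refine mul_ne_zero (sub_ne_zero.mpr hiξ) (mul_ne_zero ?_ (pow_ne_zero _ hx0))
      have := hSb i hi
      exact_mod_cast this
  have hfin := ht_step p hp β z hhz hD (by
    intro V hV
    apply val_pow_sub V.valuation p hp
    have h1 : V.valuation (z - β) ≤ V.valuation (1 - ζ) * V.valuation β := by
      have e : z - β = ∑ j ∈ S, (χ j - 1) * ((b j : Qb) * x ^ j) := by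
        rw [hzS, hβS, ← Finset.sum_sub_distrib]
        apply Finset.sum_congr rfl
        intro j _
        ring
      rw [e]
      apply Valuation.map_sum_le
      intro j hj
      rw [map_mul]
      have h2 : V.valuation (χ j - 1) ≤ V.valuation (1 - ζ) := by
        by_cases h : χ j = 1
        · rw [h, sub_self, map_zero]; exact zero_le
        · exact (hval V _ _ (hχp j hj) (one_pow p) h).le
      have h3 : V.valuation ((b j : Qb) * x ^ j) ≤ V.valuation β := by
        conv_rhs => rw [hβS]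
        exact val_sum V.valuation S (fun j => (b j : Qb) * x ^ j) (hover V hV) j hj
      exact mul_le_mul' h2 h3
    refine (pow_le_pow_left₀ zero_le h1 _).trans ?_
    rw [mul_pow, val_one_sub_pow V.valuation p hp ζ hζp hζ1])
  refine le_trans ?_ hfin
  have hlog : 0 < Real.log 2 := Real.log_pos (by norm_num)
  have hp2 : (2 : ℝ) ≤ p := by exact_mod_cast hp.two_le
  have hpN : (p : ℝ) ≤ N := by exact_mod_cast hN p hp hpn
  have hpos : (0 : ℝ) < 2 * p * (p - 1) := by
    have h1 : (0 : ℝ) < p - 1 := by linarith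
    positivity
  apply div_le_div_of_nonneg_left hlog.le hpos
  nlinarith

end Pool.Agent.H58R
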