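import Mathlib

set_option autoImplicit false

/-!
# Ramification index prime to `p`, from the inertia group
-/

namespace Pool.Agent.H58R

open NumberField IsDedekindDomain

/-- if the inertia group has no element of order `p`, then the ramification index is prime to
`p` -/
lemma ram_abs (K L : Type*) [Field K] [Field L] [NumberField K] [NumberField L] [Algebra K L]
    [IsGalois K L] (P : HeightOneSpectrum (𝓞 L)) (p : ℕ) (hp : p.Prime)
    (hI : ∀ σ : Gal(L/K), (∀ y : 𝓞 L, σ • y - y ∈ P.asIdeal) → σ ^ p = 1 → σ = 1)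
    (t : L) (ht : t ≠ 0) :
    ∃ e : ℕ, ¬ p ∣ e ∧ ∃ c : K, c ≠ 0 ∧
      P.valuation L (t ^ e) = P.valuation L (algebraMap K L c) := by
  have hPp : P.asIdeal.IsPrime := P.isPrime
  set I : Ideal (𝓞 K) := P.asIdeal.under (𝓞 K) with hIdef
  have hIprime : I.IsPrime := inferInstance
  have hover : P.asIdeal.LiesOver I := inferInstance
  have hI0 : I ≠ ⊥ := Ideal.under_ne_bot (𝓞 K) P.ne_bot
  have hImax : I.IsMaximal := hIprime.isMaximal hI0
  have hfin : Finite (𝓞 K ⧸ I) := Ring.HasFiniteQuotients.finiteQuotient hI0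
  set Q : HeightOneSpectrum (𝓞 K) := ⟨I, hIprime, hI0⟩ with hQ
  have hover' : P.asIdeal.LiesOver Q.asIdeal := hover
  have hcard : Nat.card (P.asIdeal.inertia Gal(L/K)) = Ideal.ramificationIdxIn I (𝓞 L) :=
    Ideal.card_inertia_eq_ramificationIdxIn I P.asIdeal
  have h1 : Ideal.ramificationIdxIn I (𝓞 L) = P.asIdeal.ramificationIdx (𝓞 K) :=
    Ideal.ramificationIdxIn_eq_ramificationIdx I P.asIdeal Gal(L/K)
  have h2 : I.ramificationIdx' P.asIdeal = P.asIdeal.ramificationIdx (𝓞 K) :=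
    Ideal.ramificationIdx'_eq_ramificationIdx I P.asIdeal hI0
  refine ⟨Nat.card (P.asIdeal.inertia Gal(L/K)), ?_, ?_⟩
  · intro hdvd
    have hp' : Fact p.Prime := ⟨hp⟩
    obtain ⟨σ, hσ⟩ := exists_prime_orderOf_dvd_card' p hdvd
    have h3 : (σ : Gal(L/K)) ^ p = 1 := by
      have := pow_orderOf_eq_one σ
      rw [hσ] at this
      have h4 := congrArg (fun s : P.asIdeal.inertia Gal(L/K) => (s : Gal(L/K))) this
      simpa using h4
    have h5 := hI σ.1 (fun y => σ.2 y) h3
    have h6 : σ = 1 := Subtype.ext h5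
    rw [h6, orderOf_one] at hσ
    exact hp.one_lt.ne hσ
  · obtain ⟨c, hc⟩ := Q.valuation_surjective (K := K) (P.valuation L t)
    refine ⟨c, ?_, ?_⟩
    · rintro rfl
      rw [map_zero] at hc
      exact ((Valuation.ne_zero_iff _).mpr ht) hc.symm
    · have h3 := HeightOneSpectrum.valuation_liesOver (K := K) L Q P c
      rw [← h3, hc, map_pow, hcard, h1, ← h2]

end Pool.Agent.H58R
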