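import Mathlib
import Pool.Agent.H58R.Ram
import Pool.Agent.H58R.Main

set_option autoImplicit false

/-!
# Tame radicals: the value group of `K(x)`, `x ^ n ∈ K`, above a prime not dividing `n`
-/

namespace Pool.Agent.H58R

open IntermediateField Polynomial Module NumberField IsDedekindDomain
open Pool.Agent.H58P (Qb ht qb_isIntegral alg_isIntegral)

lemma val_le_one (V : ValuationSubring Qb) (x : Qb) (hx : IsIntegral ℤ x) :
    V.valuation x ≤ 1 := by
  rw [ValuationSubring.valuation_le_one_iff]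
  have h3 : IsIntegral V x := hx.tower_top
  obtain ⟨z, hz⟩ := IsIntegrallyClosed.isIntegral_iff.mp h3
  have h4 : (z : Qb) = x := hz
  rw [← h4]
  exact z.2

/-- two distinct `n`-th roots of unity are not congruent above a prime not dividing `n` -/
lemma root_val (V : ValuationSubring Qb) (n : ℕ) (hn : 0 < n) (hVn : V.valuation (n : Qb) = 1)
    (ξ η : Qb) (hξ : ξ ^ n = 1) (hη : η ^ n = 1) (hlt : V.valuation (η - ξ) < 1) : η = ξ := by
  by_contra hne
  have hξ0 : ξ ≠ 0 := by
    rintro rfl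
    rw [zero_pow hn.ne'] at hξ
    exact zero_ne_one hξ
  set ρ := η * ξ⁻¹ with hρ
  have hρn : ρ ^ n = 1 := by rw [hρ, mul_pow, inv_pow, hξ, hη, inv_one, mul_one]
  have hρ1 : ρ ≠ 1 := by
    intro h
    apply hne
    rw [hρ] at h
    field_simp at h
    exact h
  have h1 : V.valuation (1 - ρ) < 1 := by
    have e : η - ξ = -(ξ * (1 - ρ)) := by
      rw [hρ]; field_simp; ring
    rw [e, Valuation.map_neg, map_mul, val_root V.valuation ξ n hn hξ, one_mul] at hlt
    exact hlt
  have hprim := IsPrimitiveRoot.orderOf ρ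
  have hm0 : 0 < orderOf ρ := orderOf_pos_iff.mpr (isOfFinOrder_iff_pow_eq_one.mpr ⟨n, hn, hρn⟩)
  have hm1 : orderOf ρ ≠ 1 := fun h => hρ1 (orderOf_eq_one_iff.mp h)
  have hmn : orderOf ρ ∣ n := orderOf_dvd_of_pow_eq_one hρn
  set m := orderOf ρ with hm
  have hm2 : 2 ≤ m := by omega
  have h2 : V.valuation (m : Qb) < 1 := by
    rw [hm] at hprim
    obtain ⟨k, hk⟩ : ∃ k, m = k + 1 := ⟨m - 1, by omega⟩
    rw [← hm, hk] at hprim
    have h3 := hprim.prod_one_sub_pow_eq_order
    have h4 : V.valuation ((m : ℕ) : Qb) =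
        ∏ j ∈ Finset.range k, V.valuation (1 - ρ ^ (j + 1)) := by
      rw [← map_prod, h3, hk]
      push_cast
      rfl
    rw [h4]
    have h5 : 0 ∈ Finset.range k := Finset.mem_range.mpr (by omega)
    rw [← Finset.mul_prod_erase _ _ h5]
    have h6 : ∏ j ∈ (Finset.range k).erase 0, V.valuation (1 - ρ ^ (j + 1)) ≤ 1 := by
      apply Finset.prod_le_one'
      intro j _
      exact (val_one_sub_pow_le V.valuation ρ (val_root V.valuation ρ n hn hρn) _).trans h1.le
    have h7 : V.valuation (1 - ρ ^ (0 + 1)) < 1 := by rw [zero_add, pow_one]; exact h1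
    exact mul_lt_one_of_lt_of_le h7 h6
  obtain ⟨k, hk⟩ := hmn
  rw [hk, Nat.cast_mul, map_mul] at hVn
  have h8 : V.valuation (k : Qb) ≤ 1 := by
    rw [ValuationSubring.valuation_le_one_iff]
    exact natCast_mem V k
  exact absurd hVn (mul_lt_one_of_lt_of_le h2 h8).ne

/-- the prime ideal under `V` -/
noncomputable def primeUnder {K₀ : IntermediateField ℚ Qb} (L : IntermediateField K₀ Qb)
    [NumberField L]
    (V : ValuationSubring Qb) (p : ℕ) (hp : p.Prime) (hV : V.valuation (p : Qb) < 1) :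
    HeightOneSpectrum (𝓞 L) where
  asIdeal :=
    { carrier := {y | V.valuation (((y : 𝓞 L) : L) : Qb) < 1}
      add_mem' := by
        intro a b ha hb
        show V.valuation ((((a + b : 𝓞 L)) : L) : Qb) < 1
        have e : ((((a + b : 𝓞 L)) : L) : Qb) = ((a : L) : Qb) + ((b : L) : Qb) := rfl
        rw [e]
        exact Valuation.map_add_lt _ ha hb
      zero_mem' := by
        show V.valuation ((((0 : 𝓞 L)) : L) : Qb) < 1
        have e : ((((0 : 𝓞 L)) : L) : Qb) = 0 := rfl
        rw [e, map_zero]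
        exact zero_lt_one
      smul_mem' := by
        intro a b hb
        show V.valuation ((((a * b : 𝓞 L)) : L) : Qb) < 1
        have e : ((((a * b : 𝓞 L)) : L) : Qb) = ((a : L) : Qb) * ((b : L) : Qb) := rfl
        rw [e, map_mul]
        have ha : V.valuation ((a : L) : Qb) ≤ 1 :=
          val_le_one V _ ((a.isIntegral_coe).map ((algebraMap L Qb).toIntAlgHom))
        rw [mul_comm]
        exact mul_lt_one_of_lt_of_le hb ha }
  isPrime := by
    constructor
    · rw [Ne, Ideal.eq_top_iff_one]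
      intro h
      have h1 : V.valuation ((((1 : 𝓞 L)) : L) : Qb) < 1 := h
      have e : ((((1 : 𝓞 L)) : L) : Qb) = 1 := rfl
      rw [e, map_one] at h1
      exact lt_irrefl _ h1
    · intro a b hab
      have h1 : V.valuation ((((a * b : 𝓞 L)) : L) : Qb) < 1 := hab
      have e : ((((a * b : 𝓞 L)) : L) : Qb) = ((a : L) : Qb) * ((b : L) : Qb) := rfl
      rw [e, map_mul] at h1
      have ha : V.valuation ((a : L) : Qb) ≤ 1 :=
        val_le_one V _ ((a.isIntegral_coe).map ((algebraMap L Qb).toIntAlgHom))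
      by_cases ha1 : V.valuation ((a : L) : Qb) < 1
      · exact Or.inl ha1
      · right
        have ha2 : V.valuation ((a : L) : Qb) = 1 := le_antisymm ha (not_lt.mp ha1)
        rw [ha2, one_mul] at h1
        exact h1
  ne_bot := by
    intro h
    have h1 : ((p : 𝓞 L)) ∈ (⊥ : Ideal (𝓞 L)) := by
      rw [← h]
      show V.valuation ((((p : 𝓞 L)) : L) : Qb) < 1
      have e : ((((p : 𝓞 L)) : L) : Qb) = (p : Qb) := by simp
      rw [e]
      exact hV
    rw [Ideal.mem_bot] at h1
    have h2 : (p : 𝓞 L) ≠ 0 := by exact_mod_cast hp.ne_zero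
    exact h2 h1

lemma mem_primeUnder {K₀ : IntermediateField ℚ Qb} (L : IntermediateField K₀ Qb)
    [NumberField L]
    (V : ValuationSubring Qb) (p : ℕ) (hp : p.Prime) (hV : V.valuation (p : Qb) < 1) (y : 𝓞 L) :
    y ∈ (primeUnder L V p hp hV).asIdeal ↔ V.valuation (((y : 𝓞 L) : L) : Qb) < 1 := Iff.rfl

lemma val_le_of {K₀ : IntermediateField ℚ Qb} (L : IntermediateField K₀ Qb)
    [NumberField L]
    (V : ValuationSubring Qb) (p : ℕ) (hp : p.Prime) (hV : V.valuation (p : Qb) < 1) (u : L)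
    (hu : (primeUnder L V p hp hV).valuation L u ≤ 1) : V.valuation (u : Qb) ≤ 1 := by
  obtain ⟨r, d, hd⟩ := (primeUnder L V p hp hV).exists_primeCompl_mul_eq_of_integer u hu
  have h1 : ¬ V.valuation ((((d : 𝓞 L)) : L) : Qb) < 1 := d.2
  have h2 : V.valuation ((((d : 𝓞 L)) : L) : Qb) ≤ 1 :=
    val_le_one V _ (((d : 𝓞 L).isIntegral_coe).map ((algebraMap L Qb).toIntAlgHom))
  have h3 : V.valuation ((((d : 𝓞 L)) : L) : Qb) = 1 := le_antisymm h2 (not_lt.mp h1)
  have h4 : V.valuation ((r : L) : Qb) ≤ 1 :=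
    val_le_one V _ ((r.isIntegral_coe).map ((algebraMap L Qb).toIntAlgHom))
  have h5 : (u : Qb) * (((d : 𝓞 L) : L) : Qb) = ((r : L) : Qb) :=
    congrArg (fun z : L => (z : Qb)) hd
  have h6 := congrArg V.valuation h5
  rw [map_mul, h3, mul_one] at h6
  rw [h6]
  exact h4

lemma alg_rat_eq (x : Qb) : IsIntegral ℚ x := qb_isIntegral x

/-- a tame radical extension: the new values have an exponent prime to `p` -/
theorem ram_step (K : IntermediateField ℚ Qb) (n : ℕ) (hn : 0 < n) (x : Qb) (hx0 : x ≠ 0)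
    (hxn : x ^ n ∈ K) (p : ℕ) (hp : p.Prime) (hpn : ¬ p ∣ n)
    (V : ValuationSubring Qb) (hV : V.valuation (p : Qb) < 1)
    (b : Qb) (hb : b ∈ K ⊔ IntermediateField.adjoin ℚ {x}) (hb0 : b ≠ 0) :
    ∃ e : ℕ, ¬ p ∣ e ∧ ∃ c ∈ K, c ≠ 0 ∧ V.valuation b ^ e = V.valuation c := by
  classical
  have hcop : IsCoprime (n : ℤ) (p : ℤ) := by
    rw [Nat.isCoprime_iff_coprime]
    exact ((Nat.Prime.coprime_iff_not_dvd hp).mpr hpn).symm
  have hVn : V.valuation (n : Qb) = 1 := by
    obtain ⟨u, w, huw⟩ := hcop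
    have h1 : V.valuation (n : Qb) ≤ 1 := by
      rw [ValuationSubring.valuation_le_one_iff]; exact natCast_mem V n
    rcases lt_or_eq_of_le h1 with h | h
    · exfalso
      have hi : ∀ z : ℤ, V.valuation (z : Qb) ≤ 1 := fun z => by
        rw [ValuationSubring.valuation_le_one_iff]; exact intCast_mem V z
      have h2 : V.valuation ((u : Qb) * n + (w : Qb) * p) < 1 := by
        apply Valuation.map_add_lt
        · rw [map_mul, mul_comm]; exact mul_lt_one_of_lt_of_le h (hi u)
        · rw [map_mul, mul_comm]; exact mul_lt_one_of_lt_of_le hV (hi w)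
      have h3 : (u : Qb) * n + (w : Qb) * p = 1 := by exact_mod_cast congrArg (fun z : ℤ => (z : Qb)) huw
      rw [h3, map_one] at h2
      exact lt_irrefl _ h2
    · exact h
  obtain ⟨c, hc⟩ := gen_mem K n hn x hxn b hb
  set S : Set Qb := insert (x ^ n) ((fun j : ℕ => (c j : Qb)) '' (Finset.range n : Set ℕ)) with hS
  have hSfin : S.Finite := (Set.Finite.image _ (Finset.finite_toSet _)).insert _
  have hSf : Finite S := hSfin
  set K₀ : IntermediateField ℚ Qb := IntermediateField.adjoin ℚ S with hK₀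
  have hK₀K : K₀ ≤ K := by
    rw [hK₀, IntermediateField.adjoin_le_iff]
    rintro y (rfl | ⟨j, -, rfl⟩)
    · exact hxn
    · exact (c j).2
  have hfd : FiniteDimensional ℚ K₀ :=
    IntermediateField.finiteDimensional_adjoin (fun y _ => qb_isIntegral y)
  have hnfK : NumberField K₀ := ⟨⟩
  have hxK₀ : x ^ n ∈ K₀ := IntermediateField.subset_adjoin ℚ S (Set.mem_insert _ _)
  have hcK₀ : ∀ j < n, (c j : Qb) ∈ K₀ := fun j hj =>
    IntermediateField.subset_adjoin ℚ S (Set.mem_insert_of_mem _ ⟨j, by simpa using hj, rfl⟩)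
  set a : K₀ := ⟨x ^ n, hxK₀⟩ with ha
  have ha0 : a ≠ 0 := by
    intro h
    have h1 : x ^ n = 0 := congrArg (fun z : K₀ => (z : Qb)) h
    exact pow_ne_zero n hx0 h1
  set f : K₀[X] := X ^ n - C a with hf
  set L : IntermediateField K₀ Qb := IntermediateField.adjoin K₀ (f.rootSet Qb) with hL
  have hsplit : IsSplittingField K₀ L f :=
    IntermediateField.adjoin_rootSet_isSplittingField (IsAlgClosed.splits _)
  have hn0 : (n : K₀) ≠ 0 := by exact_mod_cast hn.ne'
  have hgal : IsGalois K₀ L := IsGalois.of_separable_splitting_field (p := f)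
    (separable_X_pow_sub_C a hn0 ha0)
  have hfdL : FiniteDimensional K₀ L := IsSplittingField.finiteDimensional L f
  have hnfL : NumberField L := NumberField.of_module_finite K₀ L
  have hroot : ∀ y : Qb, y ^ n = x ^ n → y ∈ f.rootSet Qb := by
    intro y hy
    rw [mem_rootSet_of_ne (X_pow_sub_C_ne_zero hn a), map_sub, map_pow, aeval_X, aeval_C]
    show y ^ n - x ^ n = 0
    rw [hy, sub_self]
  have hxL : x ∈ L := IntermediateField.subset_adjoin K₀ _ (hroot x rfl)
  have hξL : ∀ ξ : Qb, ξ ^ n = 1 → ξ ∈ L := by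
    intro ξ hξ
    have h1 : ξ * x ∈ L := IntermediateField.subset_adjoin K₀ _
      (hroot (ξ * x) (by rw [mul_pow, hξ, one_mul]))
    have h2 := div_mem h1 hxL
    rwa [mul_div_cancel_right₀ _ hx0] at h2
  have hbL : b ∈ L := by
    rw [hc]
    apply sum_mem
    intro j hj
    apply mul_mem _ (pow_mem hxL j)
    exact L.algebraMap_mem ⟨(c j : Qb), hcK₀ j (Finset.mem_range.mp hj)⟩
  set P := primeUnder L V p hp hV with hP
  have hI : ∀ σ : Gal(L/K₀), (∀ y : 𝓞 L, σ • y - y ∈ P.asIdeal) → σ ^ p = 1 → σ = 1 := by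
    intro σ hσ hσp
    set xL : L := ⟨x, hxL⟩ with hxLdef
    have hxL0 : xL ≠ 0 := by
      intro h
      exact hx0 (congrArg (fun z : L => (z : Qb)) h)
    have hfix : ∀ ξ : L, ξ ^ n = 1 → σ ξ = ξ := by
      intro ξ hξ
      have hint : IsIntegral ℤ ξ := by
        refine ⟨X ^ n - C 1, monic_X_pow_sub_C _ hn.ne', ?_⟩
        simp [hξ]
      set ξO : 𝓞 L := ⟨ξ, hint⟩ with hξO
      have h1 := hσ ξO
      rw [hP, mem_primeUnder] at h1
      have e : (((σ • ξO - ξO : 𝓞 L) : L) : Qb) = ((σ ξ : L) : Qb) - (ξ : Qb) := rfl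
      rw [e] at h1
      have h2 : ((σ ξ : L) : Qb) = (ξ : Qb) := by
        apply root_val V n hn hVn _ _ _ _ h1
        · exact congrArg (fun z : L => (z : Qb)) hξ
        · have h3 : (σ ξ) ^ n = 1 := by rw [← map_pow, hξ, map_one]
          exact congrArg (fun z : L => (z : Qb)) h3
      exact Subtype.ext h2
    have hxn' : xL ^ n = algebraMap K₀ L a := rfl
    set η : L := σ xL / xL with hη
    have hηn : η ^ n = 1 := by
      rw [hη, div_pow, ← map_pow, hxn', σ.commutes, div_self]
      rw [← hxn']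
      exact pow_ne_zero n hxL0
    have hσx : σ xL = η * xL := by rw [hη, div_mul_cancel₀ _ hxL0]
    have hpow : ∀ k : ℕ, (σ ^ k) xL = η ^ k * xL := by
      intro k
      induction k with
      | zero => simp
      | succ k ih =>
        rw [pow_succ', AlgEquiv.mul_apply, ih, map_mul, hσx, hfix]
        · ring
        · rw [← pow_mul, mul_comm, pow_mul, hηn, one_pow]
    have hηp : η ^ p = 1 := by
      have h1 := hpow p
      rw [hσp] at h1
      have h2 : xL = η ^ p * xL := h1
      have h3 : 1 * xL = η ^ p * xL := by rw [one_mul]; exact h2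
      exact (mul_right_cancel₀ hxL0 h3).symm
    have hη1 : η = 1 := by
      have h1 : orderOf η ∣ n := orderOf_dvd_of_pow_eq_one hηn
      have h2 : orderOf η ∣ p := orderOf_dvd_of_pow_eq_one hηp
      have h3 : orderOf η ∣ Nat.gcd n p := Nat.dvd_gcd h1 h2
      have h4 : Nat.gcd n p = 1 := ((Nat.Prime.coprime_iff_not_dvd hp).mpr hpn).symm
      rw [h4, Nat.dvd_one] at h3
      exact orderOf_eq_one_iff.mp h3
    rw [hη1, one_mul] at hσx
    have hhom : σ.toAlgHom = (AlgEquiv.refl : L ≃ₐ[K₀] L).toAlgHom := by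
      apply IntermediateField.algHom_ext_of_eq_adjoin K₀ hL
      intro y hy
      have hyn : y ^ n = x ^ n := by
        rw [mem_rootSet_of_ne (X_pow_sub_C_ne_zero hn a), map_sub, map_pow, aeval_X,
          aeval_C] at hy
        exact sub_eq_zero.mp hy
      have hyL : y ∈ L := IntermediateField.subset_adjoin K₀ _ hy
      show σ ⟨y, hyL⟩ = ⟨y, hyL⟩
      set yL : L := ⟨y, hyL⟩ with hyLdef
      have h1 : yL = (yL / xL) * xL := by rw [div_mul_cancel₀ _ hxL0]
      rw [h1, map_mul, hσx, hfix]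
      rw [div_pow, div_eq_one_iff_eq (pow_ne_zero n hxL0)]
      exact Subtype.ext hyn
    ext z
    have := congrArg (fun τ : L →ₐ[K₀] L => ((τ z : L) : Qb)) hhom
    exact this
  obtain ⟨e, hpe, c', hc'0, hval⟩ := ram_abs K₀ L P p hp hI ⟨b, hbL⟩ (by
    intro h
    exact hb0 (congrArg (fun z : L => (z : Qb)) h))
  refine ⟨e, hpe, (c' : Qb), hK₀K c'.2, ?_, ?_⟩
  · intro h
    exact hc'0 (Subtype.ext h)
  · set t : L := ⟨b, hbL⟩ with ht
    have ht0 : t ≠ 0 := by
      intro h
      exact hb0 (congrArg (fun z : L => (z : Qb)) h)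
    set cL : L := algebraMap K₀ L c' with hcL
    have hcL0 : cL ≠ 0 := by
      rw [hcL]
      exact (_root_.map_ne_zero _).mpr hc'0
    have hPc : P.valuation L cL ≠ 0 := (Valuation.ne_zero_iff _).mpr hcL0
    have h1 : P.valuation L (t ^ e / cL) ≤ 1 := by
      rw [map_div₀, hval, div_self hPc]
    have h2 : P.valuation L (cL / t ^ e) ≤ 1 := by
      rw [map_div₀, hval, div_self hPc]
    have h3 := val_le_of L V p hp hV _ h1
    have h4 := val_le_of L V p hp hV _ h2
    have e1 : ((t ^ e / cL : L) : Qb) = b ^ e / (c' : Qb) := rfl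
    have e2 : ((cL / t ^ e : L) : Qb) = (c' : Qb) / b ^ e := rfl
    rw [e1, map_div₀, map_pow] at h3
    rw [e2, map_div₀, map_pow] at h4
    have hb1 : V.valuation b ^ e ≠ 0 := pow_ne_zero _ ((Valuation.ne_zero_iff _).mpr hb0)
    have hc1 : V.valuation (c' : Qb) ≠ 0 := (Valuation.ne_zero_iff _).mpr (by
      intro h; exact hc'0 (Subtype.ext h))
    apply le_antisymm
    · exact (div_le_one₀ (zero_lt_iff.mpr hc1)).mp h3
    · exact (div_le_one₀ (zero_lt_iff.mpr hb1)).mp h4

end Pool.Agent.H58R
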