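import Mathlib
import Pool.Agent.H58R.Ram2
import Pool.Agent.H58B.Fin

set_option autoImplicit false

/-!
# Transfer of the property that small points lie in a division group, along radical towers
-/

namespace Pool.Agent.H58R

open IntermediateField Polynomial Module
open Pool.Agent.H58P (Qb ht qb_isIntegral alg_isIntegral)
open Pool.Agent.H58B (ht_conj ht_pow)

/-- membership in the division group of `Γ` -/
def InDiv (Γ : Subgroup Qbˣ) (β : Qb) : Prop := ∃ N : ℕ, 0 < N ∧ ∃ g ∈ Γ, β ^ N = (g : Qb)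

/-- the small points of `L` lie in the division group of `Γ` -/
def Small (L : IntermediateField ℚ Qb) (Γ : Subgroup Qbˣ) : Prop :=
  ∃ c : ℝ, 0 < c ∧ ∀ β ∈ L, β ≠ 0 → ¬ InDiv Γ β → c ≤ ht β

lemma fin_step (K : IntermediateField ℚ Qb) (Γ : Subgroup Qbˣ) (c : ℝ) (hc : 0 < c)
    (h : ∀ δ ∈ K, δ ≠ 0 → ¬ InDiv Γ δ → c ≤ ht δ) (a : Qbˣ) (haK : (a : Qb) ∈ K)
    (Q : ℕ) (hQ : 0 < Q) (hQa : ht (a : Qb) / ((Q : ℝ) + 1) ≤ c / 2)
    (β b : Qb) (hb : b ∈ K) (hb0 : b ≠ 0) (N : ℕ) (hN : 0 < N) (j : ℕ)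
    (hβ : β ^ N = b ^ N * (a : Qb) ^ j) :
    InDiv (Γ ⊔ Subgroup.closure {a}) β ∨ c / (2 * Q) ≤ ht β := by
  by_contra hcon
  push Not at hcon
  obtain ⟨hnd, hlt⟩ := hcon
  have ha0 : (a : Qb) ≠ 0 := a.ne_zero
  have hβ0 : β ≠ 0 := by
    rintro rfl
    rw [zero_pow hN.ne'] at hβ
    exact (mul_ne_zero (pow_ne_zero _ hb0) (pow_ne_zero _ ha0)) hβ.symm
  obtain ⟨s, k, hk0, hkQ, hks⟩ := Real.exists_int_int_abs_mul_sub_le ((j : ℝ) / N) hQ
  obtain ⟨k, rfl⟩ := Int.eq_ofNat_of_zero_le hk0.le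
  have hk0' : 0 < k := by exact_mod_cast hk0
  have hkQ' : k ≤ Q := by exact_mod_cast hkQ
  set δ : Qb := b ^ k * (a : Qb) ^ s with hδ
  have hδK : δ ∈ K := mul_mem (pow_mem hb k) (zpow_mem haK s)
  have hδ0 : δ ≠ 0 := mul_ne_zero (pow_ne_zero _ hb0) (zpow_ne_zero _ ha0)
  set m : ℤ := s * N - j * k with hm
  have hδN : δ ^ N = β ^ (N * k) * (a : Qb) ^ m := by
    rw [hδ, pow_mul β, hβ, mul_pow, mul_pow, ← pow_mul b, ← pow_mul b, mul_comm k N, mul_assoc]
    congr 1
    rw [← pow_mul, ← zpow_natCast, ← zpow_mul, ← zpow_natCast (a : Qb) (j * k), ← zpow_add₀ ha0]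
    congr 1
    rw [hm]
    push_cast
    ring
  have hN' : (0 : ℝ) < N := by exact_mod_cast hN
  have hmabs : |(m : ℝ)| ≤ N / ((Q : ℝ) + 1) := by
    have e : (m : ℝ) = -(N * (((k : ℤ) : ℝ) * ((j : ℝ) / N) - s)) := by
      rw [hm]
      push_cast
      field_simp
      ring
    rw [e, abs_neg, abs_mul, abs_of_pos hN']
    calc (N : ℝ) * |((k : ℤ) : ℝ) * ((j : ℝ) / N) - s| ≤ N * (1 / ((Q : ℝ) + 1)) := by
          gcongr
      _ = _ := by ring
  have hh : (N : ℝ) * ht δ ≤ N * Q * ht β + N / ((Q : ℝ) + 1) * ht (a : Qb) := by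
    rw [← ht_pow, hδN]
    refine (ht_mul_le _ _).trans ?_
    rw [ht_pow, ht_zpow _ ha0]
    have h1 : ((N * k : ℕ) : ℝ) * ht β ≤ N * Q * ht β := by
      have : ((N * k : ℕ) : ℝ) ≤ N * Q := by exact_mod_cast Nat.mul_le_mul_left N hkQ'
      exact mul_le_mul_of_nonneg_right this (ht_nonneg β)
    have h2 : |(m : ℝ)| * ht (a : Qb) ≤ N / ((Q : ℝ) + 1) * ht (a : Qb) :=
      mul_le_mul_of_nonneg_right hmabs (ht_nonneg _)
    linarith
  have hh2 : ht δ ≤ Q * ht β + ht (a : Qb) / ((Q : ℝ) + 1) := by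
    have e : (N : ℝ) * Q * ht β + N / ((Q : ℝ) + 1) * ht (a : Qb) =
        N * (Q * ht β + ht (a : Qb) / ((Q : ℝ) + 1)) := by ring
    rw [e] at hh
    exact le_of_mul_le_mul_left hh hN'
  have hδc : ht δ < c := by
    have hQ' : (0 : ℝ) < Q := by exact_mod_cast hQ
    have h1 : (Q : ℝ) * ht β < Q * (c / (2 * Q)) := mul_lt_mul_of_pos_left hlt hQ'
    have h2 : (Q : ℝ) * (c / (2 * Q)) = c / 2 := by field_simp
    linarith
  have hδdiv : InDiv Γ δ := by
    by_contra hcon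
    exact absurd (h δ hδK hδ0 hcon) (not_le.mpr hδc)
  obtain ⟨M, hM, g, hg, hgM⟩ := hδdiv
  apply hnd
  refine ⟨N * k * M, Nat.mul_pos (Nat.mul_pos hN hk0') hM, g ^ N * a ^ (-(m * M)), ?_, ?_⟩
  · apply mul_mem
    · exact pow_mem ((le_sup_left : Γ ≤ _) hg) N
    · exact zpow_mem ((le_sup_right : Subgroup.closure {a} ≤ Γ ⊔ Subgroup.closure {a})
        (Subgroup.subset_closure (Set.mem_singleton a))) _
  · push_cast
    have e1 : (g : Qb) ^ N = β ^ (N * k * M) * (a : Qb) ^ (m * M) := by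
      rw [← hgM, ← pow_mul, mul_comm M N, pow_mul δ, hδN, mul_pow, ← pow_mul,
        ← zpow_natCast ((a : Qb) ^ m) M, ← zpow_mul]
    rw [e1, mul_assoc (β ^ (N * k * M)), ← zpow_add₀ ha0, add_neg_cancel, zpow_zero, mul_one]

/-- union of a chain of simple extensions -/
lemma mem_chain (K : IntermediateField ℚ Qb) (q : ℕ) (r : ℕ → Qb)
    (hr : ∀ k, r (k + 1) ^ q = r k) (y : Qb)
    (hy : y ∈ K ⊔ IntermediateField.adjoin ℚ (Set.range r)) :
    ∃ k, y ∈ K ⊔ IntermediateField.adjoin ℚ {r k} := by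
  set M : ℕ → IntermediateField ℚ Qb := fun k => K ⊔ IntermediateField.adjoin ℚ {r k} with hM
  have hmono : Monotone M := monotone_nat_of_le_succ fun k => by
    apply sup_le_sup_left
    rw [IntermediateField.adjoin_le_iff, Set.singleton_subset_iff]
    show r k ∈ IntermediateField.adjoin ℚ {r (k + 1)}
    rw [← hr k]
    exact pow_mem (IntermediateField.mem_adjoin_simple_self ℚ _) q
  have hle : K ⊔ IntermediateField.adjoin ℚ (Set.range r) ≤ ⨆ k, M k := by
    apply sup_le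
    · exact (le_sup_left : K ≤ M 0).trans (le_iSup M 0)
    · rw [IntermediateField.adjoin_le_iff]
      rintro _ ⟨k, rfl⟩
      apply (le_iSup M k)
      exact (le_sup_right : IntermediateField.adjoin ℚ {r k} ≤ M k)
        (IntermediateField.mem_adjoin_simple_self ℚ _)
  have h1 := hle hy
  rw [← SetLike.mem_coe, IntermediateField.coe_iSup_of_directed hmono.directed_le,
    Set.mem_iUnion] at h1
  exact h1

lemma r_pow (q : ℕ) (r : ℕ → Qb) (hr : ∀ k, r (k + 1) ^ q = r k) (k i : ℕ) :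
    r (k + i) ^ q ^ i = r k := by
  induction i with
  | zero => simp
  | succ i ih =>
    rw [pow_succ', pow_mul, ← add_assoc, hr, ih]

/-- the transfer along one chain -/
theorem transfer (K : IntermediateField ℚ Qb) (Γ : Subgroup Qbˣ) (hK : Small K Γ) (q : ℕ)
    (hq : q.Prime) (a : Qbˣ) (haK : (a : Qb) ∈ K) (r : ℕ → Qb) (hr0 : r 0 = a)
    (hr : ∀ k, r (k + 1) ^ q = r k)
    (hV : ∀ V : ValuationSubring Qb, V.valuation (q : Qb) < 1 → ∀ b ∈ K,
      V.valuation (a : Qb) ≠ V.valuation b ^ q) :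
    Small (K ⊔ IntermediateField.adjoin ℚ (Set.range r)) (Γ ⊔ Subgroup.closure {a}) := by
  obtain ⟨c, hc, hKc⟩ := hK
  obtain ⟨Q, hQ⟩ := exists_nat_gt (ht (a : Qb) / (c / 2))
  have ha0 : (a : Qb) ≠ 0 := a.ne_zero
  have hc2 : 0 < c / 2 := by linarith
  have hQ0 : 0 < Q := by
    have h1 : 0 ≤ ht (a : Qb) / (c / 2) := div_nonneg (ht_nonneg _) hc2.le
    exact_mod_cast h1.trans_lt hQ
  have hQa : ht (a : Qb) / ((Q : ℝ) + 1) ≤ c / 2 := by
    rw [div_le_iff₀ (by positivity)]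
    rw [div_lt_iff₀ hc2] at hQ
    linarith
  have hq2 : (0 : ℝ) < q := by exact_mod_cast hq.pos
  have hlog : 0 < Real.log 2 := Real.log_pos (by norm_num)
  have hQ0' : (0 : ℝ) < Q := by exact_mod_cast hQ0
  refine ⟨min (Real.log 2 / (2 * (q : ℝ) ^ 2)) (c / (2 * Q)),
    lt_min (by positivity) (by positivity), fun β hβ hβ0 hnd => ?_⟩
  obtain ⟨k, hk⟩ := mem_chain K q r hr β hβ
  have hrk : r k ^ q ^ k = (a : Qb) := by
    have := r_pow q r hr 0 k
    rw [zero_add] at this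
    rw [this, hr0]
  have hrk0 : r k ≠ 0 := by
    intro h
    rw [h, zero_pow (pow_ne_zero _ hq.ne_zero)] at hrk
    exact ha0 hrk.symm
  have hVI : ∀ p : ℕ, p.Prime → p ∣ q ^ k → ∀ V : ValuationSubring Qb,
      V.valuation (p : Qb) < 1 → ∀ j, 0 < j → j < q ^ k → ∀ b ∈ K,
      V.valuation (r k ^ j) ≠ V.valuation b := by
    intro p hp hpk V hVp j hj hjk b hb heq
    have hpq : p = q := (Nat.prime_dvd_prime_iff_eq hp hq).mp (hp.dvd_of_dvd_pow hpk)
    subst hpq
    -- gcd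
    obtain ⟨s, hs, hgcd⟩ := (Nat.dvd_prime_pow hp).mp (Nat.gcd_dvd_right j (p ^ k))
    have hsk : s < k := by
      rcases lt_or_eq_of_le hs with h | h
      · exact h
      · exfalso
        have h1 : p ^ k ∣ j := by
          rw [← h, ← hgcd]
          exact Nat.gcd_dvd_left _ _
        exact absurd (Nat.le_of_dvd hj h1) (not_le.mpr hjk)
    have hbez := Nat.gcd_eq_gcd_ab j (p ^ k)
    rw [hgcd] at hbez
    set u := j.gcdA (p ^ k) with hu
    set w := j.gcdB (p ^ k) with hw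
    set b' : Qb := b ^ u * (a : Qb) ^ w with hb'
    have hb'K : b' ∈ K := mul_mem (zpow_mem hb u) (zpow_mem haK w)
    have h1 : V.valuation (r k ^ p ^ s) = V.valuation b' := by
      have e : r k ^ p ^ s = (r k ^ j) ^ u * (a : Qb) ^ w := by
        rw [← zpow_natCast, hbez, zpow_add₀ hrk0, zpow_mul, zpow_mul, zpow_natCast, zpow_natCast,
          hrk]
      rw [e, map_mul, map_zpow₀, heq, hb', map_mul, map_zpow₀ V.valuation b]
    have h2 : V.valuation (a : Qb) = V.valuation (b' ^ p ^ (k - s - 1)) ^ p := by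
      have e : (a : Qb) = ((r k ^ p ^ s) ^ p ^ (k - s - 1)) ^ p := by
        rw [← hrk, ← pow_mul, ← pow_mul]
        congr 1
        rw [← pow_succ, ← pow_add]
        congr 1
        omega
      rw [e, map_pow, map_pow, h1, map_pow]
    exact hV V hVp _ (pow_mem hb'K _) h2
  have hN : ∀ p : ℕ, p.Prime → p ∣ q ^ k → p ≤ q := fun p hp hpk =>
    ((Nat.prime_dvd_prime_iff_eq hp hq).mp (hp.dvd_of_dvd_pow hpk)).le
  rcases level K (q ^ k) (pow_pos hq.pos k) (r k) hrk0 (by rw [hrk]; exact haK) hVI q hN β hk hβ0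
    with ⟨b, hb, j, hbj⟩ | h
  · have hb0 : b ≠ 0 := by
      rintro rfl
      rw [zero_mul] at hbj
      exact hβ0 hbj
    rcases fin_step K Γ c hc hKc a haK Q hQ0 hQa β b hb hb0 (q ^ k) (pow_pos hq.pos k) j (by
      rw [hbj, mul_pow, ← pow_mul, mul_comm j, pow_mul, hrk]) with h | h
    · exact absurd h hnd
    · exact (min_le_right _ _).trans h
  · exact (min_le_left _ _).trans h

/-- values in a chain for another prime -/
lemma chain_val (K : IntermediateField ℚ Qb) (p : ℕ) (hp : p.Prime) (a : Qbˣ)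
    (haK : (a : Qb) ∈ K) (r : ℕ → Qb) (hr0 : r 0 = a) (hr : ∀ k, r (k + 1) ^ p = r k)
    (q : ℕ) (hq : q.Prime) (hpq : q ≠ p) (V : ValuationSubring Qb)
    (hV : V.valuation (q : Qb) < 1) (b : Qb)
    (hb : b ∈ K ⊔ IntermediateField.adjoin ℚ (Set.range r)) (hb0 : b ≠ 0) :
    ∃ e : ℕ, ¬ q ∣ e ∧ ∃ c ∈ K, c ≠ 0 ∧ V.valuation b ^ e = V.valuation c := by
  obtain ⟨k, hk⟩ := mem_chain K p r hr b hb
  have hrk : r k ^ p ^ k = (a : Qb) := by
    have := r_pow p r hr 0 k
    rw [zero_add] at this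
    rw [this, hr0]
  have hrk0 : r k ≠ 0 := by
    intro h
    rw [h, zero_pow (pow_ne_zero _ hp.ne_zero)] at hrk
    exact a.ne_zero hrk.symm
  refine ram_step K (p ^ k) (pow_pos hp.pos k) (r k) hrk0 (by rw [hrk]; exact haK) q hq ?_ V hV b
    hk hb0
  intro h
  exact hpq ((Nat.prime_dvd_prime_iff_eq hq hp).mp (hq.dvd_of_dvd_pow h))

/-- the field of a family of chains -/
noncomputable def tower (K : IntermediateField ℚ Qb) (P : Finset ℕ) (r : ℕ → ℕ → Qb) :
    IntermediateField ℚ Qb :=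
  K ⊔ IntermediateField.adjoin ℚ {y | ∃ p ∈ P, ∃ k, y = r p k}

lemma tower_insert (K : IntermediateField ℚ Qb) (P : Finset ℕ) (q : ℕ) (r : ℕ → ℕ → Qb) :
    tower K (insert q P) r ≤ tower K P r ⊔ IntermediateField.adjoin ℚ (Set.range (r q)) := by
  apply sup_le
  · exact le_sup_left.trans le_sup_left
  · rw [IntermediateField.adjoin_le_iff]
    rintro y ⟨p, hp, k, rfl⟩
    rcases Finset.mem_insert.mp hp with rfl | hp'
    · exact (le_sup_right : IntermediateField.adjoin ℚ (Set.range (r p)) ≤ _)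
        (IntermediateField.subset_adjoin ℚ _ ⟨k, rfl⟩)
    · apply (le_sup_left : tower K P r ≤ _)
      exact (le_sup_right : _ ≤ tower K P r)
        (IntermediateField.subset_adjoin ℚ _ ⟨p, hp', k, rfl⟩)

/-- main theorem -/
theorem main (K : IntermediateField ℚ Qb) (Γ : Subgroup Qbˣ) (hK : Small K Γ) (a : ℕ → Qbˣ)
    (r : ℕ → ℕ → Qb) (P : Finset ℕ) (hP : ∀ p ∈ P, p.Prime) (haK : ∀ p ∈ P, (a p : Qb) ∈ K)
    (hr0 : ∀ p ∈ P, r p 0 = a p) (hr : ∀ p ∈ P, ∀ k, r p (k + 1) ^ p = r p k)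
    (hV : ∀ p ∈ P, ∀ V : ValuationSubring Qb, V.valuation (p : Qb) < 1 → ∀ b ∈ K,
      V.valuation (a p : Qb) ≠ V.valuation b ^ p) :
    Small (tower K P r) (Γ ⊔ Subgroup.closure (a '' (P : Set ℕ))) ∧
    ∀ q : ℕ, q.Prime → q ∉ P → ∀ V : ValuationSubring Qb, V.valuation (q : Qb) < 1 →
      ∀ b ∈ tower K P r, b ≠ 0 →
        ∃ e : ℕ, ¬ q ∣ e ∧ ∃ c ∈ K, c ≠ 0 ∧ V.valuation b ^ e = V.valuation c := by
  classical
  induction P using Finset.induction_on with
  | empty =>
    have e : tower K ∅ r = K := by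
      unfold tower
      simp
    rw [e]
    refine ⟨by simpa using hK, ?_⟩
    intro q hq _ V _ b hb hb0
    refine ⟨1, ?_, b, hb, hb0, pow_one _⟩
    intro h
    exact hq.one_lt.ne' (Nat.dvd_one.mp h)
  | insert q P hqP ih =>
    obtain ⟨ih1, ih2⟩ := ih (fun p hp => hP p (Finset.mem_insert_of_mem hp))
      (fun p hp => haK p (Finset.mem_insert_of_mem hp))
      (fun p hp => hr0 p (Finset.mem_insert_of_mem hp))
      (fun p hp => hr p (Finset.mem_insert_of_mem hp))
      (fun p hp => hV p (Finset.mem_insert_of_mem hp))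
    have hqm := Finset.mem_insert_self q P
    have hq : q.Prime := hP q hqm
    have haT : (a q : Qb) ∈ tower K P r := (le_sup_left : K ≤ tower K P r) (haK q hqm)
    constructor
    · have h1 := transfer (tower K P r) _ ih1 q hq (a q) haT (r q) (hr0 q hqm) (hr q hqm) (by
        intro V hVq b hb heq
        have hb0 : b ≠ 0 := by
          rintro rfl
          rw [map_zero, zero_pow hq.ne_zero, Valuation.zero_iff] at heq
          exact (a q).ne_zero heq
        obtain ⟨e, hqe, c, hcK, hc0, hec⟩ := ih2 q hq hqP V hVq b hb hb0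
        have hcop : IsCoprime (e : ℤ) (q : ℤ) := by
          rw [Nat.isCoprime_iff_coprime]
          exact ((Nat.Prime.coprime_iff_not_dvd hq).mpr hqe).symm
        obtain ⟨u, w, huw⟩ := hcop
        have ha0 : V.valuation (a q : Qb) ≠ 0 := (Valuation.ne_zero_iff _).mpr (a q).ne_zero
        apply hV q hqm V hVq (c ^ u * (a q : Qb) ^ w)
          (mul_mem (zpow_mem hcK u) (zpow_mem (haK q hqm) w))
        have h2 : V.valuation (a q : Qb) ^ e = V.valuation c ^ q := by
          rw [heq, ← hec, ← pow_mul, ← pow_mul, mul_comm]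
        calc V.valuation (a q : Qb) = V.valuation (a q : Qb) ^ (u * e + w * q) := by
              rw [huw, zpow_one]
          _ = (V.valuation (a q : Qb) ^ e) ^ u * (V.valuation (a q : Qb) ^ w) ^ q := by
              rw [zpow_add₀ ha0, mul_comm u, zpow_mul, zpow_mul, zpow_natCast, zpow_natCast]
          _ = _ := by
              rw [h2, map_mul, map_zpow₀, map_zpow₀, mul_pow]
              congr 1
              rw [← zpow_natCast, ← zpow_natCast, ← zpow_mul, ← zpow_mul, mul_comm])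
      obtain ⟨c, hc, hcβ⟩ := h1
      refine ⟨c, hc, fun β hβ hβ0 hnd => hcβ β (tower_insert K P q r hβ) hβ0 ?_⟩
      rintro ⟨N, hN, g, hg, hgN⟩
      apply hnd
      refine ⟨N, hN, g, ?_, hgN⟩
      have hle : Γ ⊔ Subgroup.closure (a '' (P : Set ℕ)) ⊔ Subgroup.closure {a q} ≤
          Γ ⊔ Subgroup.closure (a '' ((insert q P : Finset ℕ) : Set ℕ)) := by
        apply sup_le
        · apply sup_le_sup_left
          apply Subgroup.closure_mono
          apply Set.image_mono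
          exact_mod_cast Finset.subset_insert q P
        · refine le_trans ?_ le_sup_right
          apply Subgroup.closure_mono
          rw [Set.singleton_subset_iff]
          exact ⟨q, by simp, rfl⟩
      exact hle hg
    · intro p hp hpP V hVp b hb hb0
      have hpq : p ≠ q := fun h => hpP (h ▸ hqm)
      have hpP' : p ∉ P := fun h => hpP (Finset.mem_insert_of_mem h)
      obtain ⟨e, hpe, c, hc, hc0, hec⟩ := chain_val (tower K P r) q hq (a q) haT (r q)
        (hr0 q hqm) (hr q hqm) p hp hpq V hVp b (tower_insert K P q r hb) hb0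
      obtain ⟨e', hpe', c', hc', hc0', hec'⟩ := ih2 p hp hpP' V hVp c hc hc0
      refine ⟨e * e', ?_, c', hc', hc0', ?_⟩
      · intro h
        rcases hp.dvd_mul.mp h with h | h
        · exact hpe h
        · exact hpe' h
      · rw [pow_mul, hec, hec']

end Pool.Agent.H58R
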