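import Mathlib
import Pool.Agent.H58R.Fin

set_option autoImplicit false

/-!
# The condition over `ℚ`, and number fields
-/

namespace Pool.Agent.H58R

open IntermediateField Polynomial Module
open Pool.Agent.H58P (Qb ht qb_isIntegral alg_isIntegral)

lemma val_unit (V : ValuationSubring Qb) (p : ℕ) (hp : p.Prime) (hV : V.valuation (p : Qb) < 1)
    (n : ℕ) (hpn : ¬ p ∣ n) : V.valuation (n : Qb) = 1 := by
  have hcop : IsCoprime (n : ℤ) (p : ℤ) := by
    rw [Nat.isCoprime_iff_coprime]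
    exact ((Nat.Prime.coprime_iff_not_dvd hp).mpr hpn).symm
  obtain ⟨u, w, huw⟩ := hcop
  have h1 : V.valuation (n : Qb) ≤ 1 := by
    rw [ValuationSubring.valuation_le_one_iff]; exact natCast_mem V n
  rcases lt_or_eq_of_le h1 with h | h
  · exfalso
    have hi : ∀ z : ℤ, V.valuation (z : Qb) ≤ 1 := fun z => by
      rw [ValuationSubring.valuation_le_one_iff]; exact intCast_mem V z
    have h2 : V.valuation ((u : Qb) * n + (w : Qb) * p) < 1 := by
      apply Valuation.map_add_lt
      · rw [map_mul, mul_comm]; exact mul_lt_one_of_lt_of_le h (hi u)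
      · rw [map_mul, mul_comm]; exact mul_lt_one_of_lt_of_le hV (hi w)
    have h3 : (u : Qb) * n + (w : Qb) * p = 1 := by
      exact_mod_cast congrArg (fun z : ℤ => (z : Qb)) huw
    rw [h3, map_one] at h2
    exact lt_irrefl _ h2
  · exact h

lemma val_nat (V : ValuationSubring Qb) (p : ℕ) (hp : p.Prime) (hV : V.valuation (p : Qb) < 1)
    (n : ℕ) (hn : n ≠ 0) : V.valuation (n : Qb) = V.valuation (p : Qb) ^ padicValNat p n := by
  have hp' : Fact p.Prime := ⟨hp⟩
  obtain ⟨e, m, hpm, hnm⟩ := Nat.exists_eq_pow_mul_and_not_dvd hn p hp.ne_one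
  have he : padicValNat p n = e := by
    rw [hnm, padicValNat.mul (pow_ne_zero _ hp.ne_zero) (by rintro rfl; exact hpm (dvd_zero p)),
      padicValNat.prime_pow, padicValNat.eq_zero_of_not_dvd hpm, add_zero]
  rw [he, hnm]
  push_cast
  rw [map_mul, map_pow, val_unit V p hp hV m hpm, mul_one]

lemma val_rat (V : ValuationSubring Qb) (p : ℕ) (hp : p.Prime) (hV : V.valuation (p : Qb) < 1)
    (b : ℚ) (hb : b ≠ 0) :
    V.valuation (algebraMap ℚ Qb b) = V.valuation (p : Qb) ^ padicValRat p b := by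
  have hp' : Fact p.Prime := ⟨hp⟩
  have hp0 : V.valuation (p : Qb) ≠ 0 :=
    (Valuation.ne_zero_iff _).mpr (by exact_mod_cast hp.ne_zero)
  have hnum : V.valuation ((b.num : ℤ) : Qb) = V.valuation (p : Qb) ^ padicValInt p b.num := by
    have h1 : V.valuation ((b.num : ℤ) : Qb) = V.valuation ((b.num.natAbs : ℕ) : Qb) := by
      rcases Int.natAbs_eq b.num with h | h
      · conv_lhs => rw [h]
        simp
      · conv_lhs => rw [h]
        push_cast
        rw [Valuation.map_neg]
        congr 1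
        simp
    rw [h1, val_nat V p hp hV _ (by
      rw [Int.natAbs_ne_zero]
      exact Rat.num_ne_zero.mpr hb)]
    rfl
  have hden : V.valuation ((b.den : ℕ) : Qb) = V.valuation (p : Qb) ^ padicValNat p b.den :=
    val_nat V p hp hV _ b.den_ne_zero
  have e : algebraMap ℚ Qb b = ((b.num : ℤ) : Qb) / ((b.den : ℕ) : Qb) := by
    conv_lhs => rw [← Rat.num_div_den b]
    simp
  rw [e, map_div₀, hnum, hden, padicValRat, zpow_sub₀ hp0, zpow_natCast, zpow_natCast]

/-- the condition over `ℚ` -/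
lemma cond_rat (V : ValuationSubring Qb) (p : ℕ) (hp : p.Prime) (hV : V.valuation (p : Qb) < 1)
    (a : ℚ) (ha : a ≠ 0) (hpa : ¬ (p : ℤ) ∣ padicValRat p a) (b : Qb)
    (hb : b ∈ (⊥ : IntermediateField ℚ Qb)) :
    V.valuation (algebraMap ℚ Qb a) ≠ V.valuation b ^ p := by
  obtain ⟨b, rfl⟩ := IntermediateField.mem_bot.mp hb
  intro h
  have hp0 : V.valuation (p : Qb) ≠ 0 :=
    (Valuation.ne_zero_iff _).mpr (by exact_mod_cast hp.ne_zero)
  have hb0 : b ≠ 0 := by
    rintro rfl
    rw [map_zero, map_zero, zero_pow hp.ne_zero, Valuation.zero_iff] at h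
    exact ha ((_root_.map_eq_zero _).mp h)
  rw [val_rat V p hp hV a ha, val_rat V p hp hV b hb0, ← zpow_natCast, ← zpow_mul] at h
  have h1 := zpow_right_injective₀ (zero_lt_iff.mpr hp0) hV.ne h
  apply hpa
  rw [h1]
  exact Dvd.intro_left _ rfl

/-- number fields -/
lemma small_nf (K : IntermediateField ℚ Qb) (hK : FiniteDimensional ℚ K) : Small K ⊥ := by
  obtain ⟨c, hc, h⟩ := Pool.Agent.H58B.bogomolov_nf K
  refine ⟨c, hc, fun β hβ hβ0 hnd => h β hβ ?_ hβ0⟩
  intro n hn hβn
  apply hnd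
  exact ⟨n, hn, 1, Subgroup.mem_bot.mpr rfl, by rw [hβn]; rfl⟩

end Pool.Agent.H58R
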