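import Mathlib
import Pool.Agent.H58R.Loc

set_option autoImplicit false

/-!
# A variant of the basic inequality with general exponents
-/

namespace Pool.Agent.H58R

open NumberField Height Module
open Pool.Agent.Helper259.AbsHt
open Pool.Agent.H58P (Qb ht qb_isIntegral)
open Pool.Agent.H58B (height_ge ht_conj absLogHeight_four ht_pow)

/-- the basic inequality -/
theorem ht_step' (p : ℕ) (hp : p.Prime) (m m' : ℕ) (hm : 0 < m) (hmm : 2 * 2 ^ m ≤ p ^ m')
    (β z : Qb) (hz : ht z = ht β)
    (hD : z ^ p ≠ β ^ p)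
    (hV : ∀ V : ValuationSubring Qb, V.valuation (p : Qb) < 1 →
      V.valuation (z ^ p - β ^ p) ^ m ≤ V.valuation (p : Qb) ^ m' *
        V.valuation (β ^ p) ^ m) :
    Real.log 2 / (2 * p * m) ≤ ht β := by
  have hp2 := hp.two_le
  set D := z ^ p - β ^ p with hDdef
  have hD0 : D ≠ 0 := sub_ne_zero.mpr hD
  have hp0 : (p : Qb) ≠ 0 := by exact_mod_cast hp.ne_zero
  set y := β ^ p with hy
  set z' := z ^ p with hz'
  set c : Qb := (p : Qb) ^ m' * (D ^ m)⁻¹ with hc
  have hc0 : c ≠ 0 := mul_ne_zero (pow_ne_zero _ hp0) (inv_ne_zero (pow_ne_zero _ hD0))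
  set w : Fin 2 × Fin 2 → Qb := fun a =>
    (![1, y ^ m] : Fin 2 → Qb) a.1 * (![1, z' ^ m] : Fin 2 → Qb) a.2 with hw
  have hsm : absLogHeight (c • w) = absLogHeight w := absLogHeight_smul w hc0
  have h4 : absLogHeight w = 2 * p * m * ht β := by
    have a1 : ht (y ^ m) = (m : ℝ) * (p * ht β) := by rw [ht_pow, hy, ht_pow]
    have a2 : ht (z' ^ m) = (m : ℝ) * (p * ht β) := by
      rw [ht_pow, hz', ht_pow, hz]
    rw [hw, absLogHeight_four, a1, a2]
    ring
  have hw1 : w (1, 0) = y ^ m := by simp [hw]
  have hw2 : w (0, 1) = z' ^ m := by simp [hw]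
  have key : Real.log 2 ≤ absLogHeight (c • w) := by
    apply height_ge
    · intro V
      by_contra hcon
      push Not at hcon
      have h1 : V.valuation (c * y ^ m) < 1 := by
        have := hcon (1, 0)
        rwa [Pi.smul_apply, smul_eq_mul, hw1] at this
      have h2 : V.valuation (c * z' ^ m) < 1 := by
        have := hcon (0, 1)
        rwa [Pi.smul_apply, smul_eq_mul, hw2] at this
      have hpV : V.valuation (p : Qb) ≤ 1 := by
        rw [ValuationSubring.valuation_le_one_iff]
        exact natCast_mem V p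
      have hvD : V.valuation (D ^ m) ≠ 0 :=
        (Valuation.ne_zero_iff _).mpr (pow_ne_zero _ hD0)
      have hlt : ∀ e : Qb, V.valuation (c * e) < 1 →
          V.valuation (p : Qb) ^ m' * V.valuation e < V.valuation (D ^ m) := by
        intro e he
        have e1 : V.valuation (D ^ m) * V.valuation (c * e) =
            V.valuation (p : Qb) ^ m' * V.valuation e := by
          rw [← map_mul, ← map_pow, ← map_mul, hc]
          congr 1
          field_simp
        rw [← e1]
        calc V.valuation (D ^ m) * V.valuation (c * e) < V.valuation (D ^ m) * 1 :=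
              mul_lt_mul_of_pos_left he (zero_lt_iff.mpr hvD)
          _ = _ := mul_one _
      rcases lt_or_eq_of_le hpV with h | h
      · have h3 := hV V h
        have h5 := hlt _ h1
        rw [map_pow] at h5
        rw [map_pow V.valuation D] at h5
        exact absurd h3 (not_le.mpr h5)
      · have h3 := hlt _ h1
        have h5 := hlt _ h2
        rw [h, one_pow, one_mul] at h3 h5
        rw [map_pow V.valuation D m, map_pow V.valuation y m] at h3
        rw [map_pow V.valuation D m, map_pow V.valuation z' m] at h5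
        have h6 : V.valuation D ≤ max (V.valuation z') (V.valuation y) := Valuation.map_sub _ _ _
        rcases le_max_iff.mp h6 with h7 | h7
        · exact absurd (pow_le_pow_left₀ zero_le h7 m) (not_le.mpr h5)
        · exact absurd (pow_le_pow_left₀ zero_le h7 m) (not_le.mpr h3)
    · intro φ
      by_contra hcon
      push Not at hcon
      have h1 : ‖φ (c * y ^ m)‖ < 2 := by
        have := hcon (1, 0)
        rwa [Pi.smul_apply, smul_eq_mul, hw1] at this
      have h2 : ‖φ (c * z' ^ m)‖ < 2 := by
        have := hcon (0, 1)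
        rwa [Pi.smul_apply, smul_eq_mul, hw2] at this
      have hnD : 0 < ‖φ D‖ := norm_pos_iff.mpr (by
        intro h
        exact hD0 ((map_eq_zero φ).mp h))
      have hlt : ∀ e : Qb, ‖φ (c * e ^ m)‖ < 2 →
          (p : ℝ) ^ m' * ‖φ e‖ ^ m < 2 * ‖φ D‖ ^ m := by
        intro e he
        have e1 : ‖φ D‖ ^ m * ‖φ (c * e ^ m)‖ = (p : ℝ) ^ m' * ‖φ e‖ ^ m := by
          have e2 : D ^ m * (c * e ^ m) = (p : Qb) ^ m' * e ^ m := by
            rw [hc]
            field_simp
          rw [← norm_pow, ← map_pow, ← norm_mul, ← map_mul, e2, map_mul, map_pow, map_pow,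
            norm_mul, norm_pow, norm_pow, map_natCast, Complex.norm_natCast]
        rw [← e1, mul_comm (2 : ℝ)]
        exact mul_lt_mul_of_pos_left he (pow_pos hnD _)
      have h3 := hlt _ h1
      have h5 := hlt _ h2
      have h6 : ‖φ D‖ ≤ ‖φ z'‖ + ‖φ y‖ := by
        rw [hDdef, map_sub]
        exact norm_sub_le _ _
      have hpp : (2 : ℝ) * 2 ^ m ≤ (p : ℝ) ^ m' := by exact_mod_cast hmm
      have hfin : ∀ M : ℝ, 0 ≤ M → ‖φ D‖ ≤ 2 * M →
          (p : ℝ) ^ m' * M ^ m < 2 * ‖φ D‖ ^ m → False := by
        intro M hM hDm hlt'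
        have e3 : ‖φ D‖ ^ m ≤ (2 * M) ^ m := pow_le_pow_left₀ hnD.le hDm _
        rw [mul_pow] at e3
        have e4 : 2 * 2 ^ m * M ^ m ≤ (p : ℝ) ^ m' * M ^ m :=
          mul_le_mul_of_nonneg_right hpp (pow_nonneg hM _)
        nlinarith
      rcases le_total ‖φ z'‖ ‖φ y‖ with h7 | h7
      · exact hfin _ (norm_nonneg _) (by linarith) h3
      · exact hfin _ (norm_nonneg _) (by linarith) h5
  rw [hsm, h4] at key
  have hpos : (0 : ℝ) < 2 * p * m := by
    have : (2 : ℝ) ≤ p := by exact_mod_cast hp2
    have h1 : (0 : ℝ) < m := by exact_mod_cast hm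
    positivity
  rw [div_le_iff₀ hpos]
  linarith

end Pool.Agent.H58R
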