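import Mathlib
import Pool.Agent.H58R.Loc2
import Pool.Agent.H58R.Fin

set_option autoImplicit false

/-!
# Descent along a chain of radicals
-/

namespace Pool.Agent.H58R

open IntermediateField Polynomial Module
open Pool.Agent.H58P (Qb ht qb_isIntegral alg_isIntegral)
open Pool.Agent.H58B (ht_conj ht_pow)

lemma val_pow_sub' {G : Type*} [LinearOrderedCommGroupWithZero G] (v : Valuation Qb G)
    (p : ℕ) (hp : p.Prime) (E1 E2 : ℕ) (z β : Qb)
    (h : v (z - β) ^ E1 ≤ v (p : Qb) ^ E2 * v β ^ E1)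
    (hξ : ∀ ξ : Qb, ξ ^ p = 1 → v (1 - ξ) ^ E1 ≤ v (p : Qb) ^ E2) :
    v (z ^ p - β ^ p) ^ E1 ≤ v (p : Qb) ^ (p * E2) * v (β ^ p) ^ E1 := by
  obtain ⟨ζ, hζ⟩ := exists_prim p hp.pos
  rw [hζ.pow_sub_pow_eq_prod_sub_mul z β hp.pos, map_prod, ← Finset.prod_pow]
  have hcard : (Polynomial.nthRootsFinset p (1 : Qb)).card = p := hζ.card_nthRootsFinset
  calc ∏ ξ ∈ Polynomial.nthRootsFinset p (1 : Qb), v (z - ξ * β) ^ E1
      ≤ ∏ ξ ∈ Polynomial.nthRootsFinset p (1 : Qb), (v (p : Qb) ^ E2 * v β ^ E1) := by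
        apply Finset.prod_le_prod'
        intro ξ hξm
        have hξ' : ξ ^ p = 1 := (Polynomial.mem_nthRootsFinset hp.pos (1 : Qb)).mp hξm
        have e : z - ξ * β = (z - β) + (1 - ξ) * β := by ring
        have h1 : v (z - ξ * β) ≤ max (v (z - β)) (v ((1 - ξ) * β)) := by
          rw [e]; exact v.map_add _ _
        rcases le_max_iff.mp h1 with h2 | h2
        · exact (pow_le_pow_left₀ zero_le h2 _).trans h
        · refine (pow_le_pow_left₀ zero_le h2 _).trans ?_
          rw [map_mul, mul_pow]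
          exact mul_le_mul' (hξ ξ hξ') le_rfl
    _ = v (p : Qb) ^ (p * E2) * v (β ^ p) ^ E1 := by
        rw [Finset.prod_const, hcard, mul_pow, map_pow, ← pow_mul, ← pow_mul, ← pow_mul,
          mul_comm E1, mul_comm E2]

lemma exps (q : ℕ) (hq : 2 ≤ q) : (q - 1) * q ^ 2 + q = q * (q ^ 2 - q + 1) ∧
    q ^ 2 - q + 1 ≤ q ^ 2 ∧ 0 < (q - 1) * q ^ 2 ∧ (q - 1) * q ^ 2 + q = q * (q ^ 2 - q + 1) := by
  obtain ⟨s, rfl⟩ : ∃ s, q = s + 2 := ⟨q - 2, by omega⟩
  have h1 : (s + 2) ^ 2 - (s + 2) = s ^ 2 + 3 * s + 2 := by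
    apply Nat.sub_eq_of_eq_add
    ring
  have h2 : s + 2 - 1 = s + 1 := by omega
  rw [h1, h2]
  refine ⟨by ring, by nlinarith, by positivity, by ring⟩

/-- descent along a chain -/
theorem level2 (K : IntermediateField ℚ Qb) (q : ℕ) (hq : q.Prime) (x : ℕ → Qb)
    (hx0K : x 0 ∈ K) (hx : ∀ k, x (k + 1) ^ q = x k) (hxne : ∀ k, x k ≠ 0)
    (hσ : ∀ i, ∃ (σ : Qb ≃ₐ[ℚ] Qb) (ζ : Qb), IsPrimitiveRoot ζ q ∧
      σ (x (i + 1)) = ζ * x (i + 1) ∧
      (∀ y ∈ K ⊔ IntermediateField.adjoin ℚ {x (i + 1)}, σ y = y →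
        y ∈ K ⊔ IntermediateField.adjoin ℚ {x i}) ∧
      σ (x 0) = x 0 ∧
      ∀ V : ValuationSubring Qb, V.valuation (q : Qb) < 1 →
        ∀ y ∈ K ⊔ IntermediateField.adjoin ℚ {x (i + 1)},
          V.valuation (σ y - y) ^ ((q - 1) * q ^ 2) ≤
            V.valuation (q : Qb) ^ (q ^ 2 - q + 1) * V.valuation y ^ ((q - 1) * q ^ 2))
    (k : ℕ) (β : Qb) (hβ : β ∈ K ⊔ IntermediateField.adjoin ℚ {x k}) (hβ0 : β ≠ 0) :
    (∃ b ∈ K, ∃ j : ℕ, β = b * x k ^ j) ∨
      Real.log 2 / (2 * q * (((q - 1) * q ^ 2 : ℕ) : ℝ)) ≤ ht β := by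
  have hne : NeZero q := ⟨hq.ne_zero⟩
  obtain ⟨hE, hE2, hE1, -⟩ := exps q hq.two_le
  set E1 := (q - 1) * q ^ 2 with hE1def
  set E2 := q ^ 2 - q + 1 with hE2def
  have key : ∀ i, i ≤ k → ∀ (β' : Qb) (j : ℕ), β' ∈ K ⊔ IntermediateField.adjoin ℚ {x i} →
      β = β' * x k ^ j → (∃ b ∈ K, ∃ j : ℕ, β = b * x k ^ j) ∨
      Real.log 2 / (2 * q * (E1 : ℝ)) ≤ ht β := by
    intro i
    induction i with
    | zero =>
      intro _ β' j hβ' h
      left
      refine ⟨β', ?_, j, h⟩
      have hle : K ⊔ IntermediateField.adjoin ℚ {x 0} ≤ K := by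
        apply sup_le le_rfl
        rw [IntermediateField.adjoin_le_iff, Set.singleton_subset_iff]
        exact hx0K
      exact hle hβ'
    | succ i ih =>
      intro hik β' j hβ' h
      have hβ'0 : β' ≠ 0 := by
        rintro rfl
        rw [zero_mul] at h
        exact hβ0 h
      obtain ⟨σ, ζ, hζ, hσx, hσfix, hσ0, hσV⟩ := hσ i
      have hxi : x (i + 1) = x k ^ q ^ (k - (i + 1)) := by
        have h1 := r_pow q x hx (i + 1) (k - (i + 1))
        rw [← h1]
        congr 2
        omega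
      by_cases hξ : (σ β') ^ q = β' ^ q
      · have hξ1 : (σ β' / β') ^ q = 1 := by
          rw [div_pow, hξ, div_self (pow_ne_zero _ hβ'0)]
        obtain ⟨t, -, hζt⟩ := hζ.eq_pow_of_pow_eq_one hξ1
        have hσβ' : σ β' = ζ ^ t * β' := by
          rw [hζt, div_mul_cancel₀ _ hβ'0]
        have hζ0 : ζ ≠ 0 := hζ.ne_zero hq.ne_zero
        have hxt : x (i + 1) ^ t ≠ 0 := pow_ne_zero _ (hxne _)
        have hβ''1 : β' / x (i + 1) ^ t ∈ K ⊔ IntermediateField.adjoin ℚ {x (i + 1)} := by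
          apply div_mem hβ'
          apply pow_mem
          exact (le_sup_right : IntermediateField.adjoin ℚ {x (i + 1)} ≤ _)
            (IntermediateField.mem_adjoin_simple_self ℚ _)
        have hβ''2 : σ (β' / x (i + 1) ^ t) = β' / x (i + 1) ^ t := by
          rw [map_div₀, map_pow, hσx, hσβ', mul_pow, mul_div_mul_left _ _ (pow_ne_zero t hζ0)]
        refine ih (by omega) _ (j + q ^ (k - (i + 1)) * t) (hσfix _ hβ''1 hβ''2) ?_
        rw [h, pow_add, pow_mul, ← hxi]
        field_simp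
      · right
        set η : Qb := σ (x k) / x k with hη
        have hηk : η ^ q ^ k = 1 := by
          have h1 := r_pow q x hx 0 k
          rw [zero_add] at h1
          rw [hη, div_pow, ← map_pow, h1, hσ0, div_self (hxne 0)]
        have hσk : σ (x k) = η * x k := by rw [hη, div_mul_cancel₀ _ (hxne k)]
        have hη0 : η ≠ 0 := by
          rintro h0
          rw [h0, zero_pow (pow_ne_zero _ hq.ne_zero)] at hηk
          exact zero_ne_one hηk
        set z : Qb := (η⁻¹) ^ j * σ β with hz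
        have hz2 : z = σ β' * x k ^ j := by
          rw [hz, h, map_mul, map_pow, hσk, mul_pow, inv_pow]
          field_simp
        have hhz : ht z = ht β := by
          rw [hz, ht_unit_mul _ _ (q ^ k) (pow_pos hq.pos k), ht_conj]
          rw [← pow_mul, mul_comm, pow_mul, inv_pow, hηk, inv_one, one_pow]
        have hD : z ^ q ≠ β ^ q := by
          rw [hz2]
          conv_rhs => rw [h]
          rw [mul_pow, mul_pow]
          intro h1
          exact hξ (mul_right_cancel₀ (pow_ne_zero _ (pow_ne_zero _ (hxne k))) h1)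
        refine ht_step' q hq E1 (q * E2) hE1 ?_ β z hhz hD ?_
        · rw [← hE]
          calc 2 * 2 ^ E1 = 2 ^ (E1 + 1) := by ring
            _ ≤ 2 ^ (E1 + q) := Nat.pow_le_pow_right (by norm_num) (by have := hq.two_le; omega)
            _ ≤ q ^ (E1 + q) := Nat.pow_le_pow_left hq.two_le _
        · intro V hV
          apply val_pow_sub' V.valuation q hq E1 E2
          · have e : z - β = (σ β' - β') * x k ^ j := by
              rw [hz2]
              conv_lhs => rw [h]
              ring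
            have h1 := hσV V hV β' hβ'
            rw [e, map_mul, mul_pow]
            conv_rhs => rw [h]
            rw [map_mul, mul_pow, ← mul_assoc]
            gcongr
          · intro ξ hξ'
            have h1 := val_one_sub_pow_le' V.valuation q hq ξ hξ'
            calc V.valuation (1 - ξ) ^ E1 = (V.valuation (1 - ξ) ^ (q - 1)) ^ q ^ 2 := by
                  rw [← pow_mul]
              _ ≤ V.valuation (q : Qb) ^ q ^ 2 := pow_le_pow_left₀ zero_le h1 _
              _ ≤ V.valuation (q : Qb) ^ E2 := pow_le_pow_right_of_le_one' hV.le hE2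
  exact key k le_rfl β 0 hβ (by rw [pow_zero, mul_one])

end Pool.Agent.H58R
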