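import Mathlib
import Pool.Agent.H58R.Lev2

set_option autoImplicit false

/-!
# Orthogonal powers of a shifted radical
-/

namespace Pool.Agent.H58R

open IntermediateField Polynomial Module
open Pool.Agent.H58P (Qb ht qb_isIntegral alg_isIntegral)
open Pool.Agent.H58B (ht_conj ht_pow)

/-- the powers `y ^ j`, `0 < j < p ^ k`, have values outside the value group of `K` -/
lemma ortho (K : IntermediateField ℚ Qb) (p : ℕ) (hp : p.Prime) (V : ValuationSubring Qb)
    (y : Qb) (hy0 : y ≠ 0) (k : ℕ) (ϖ : Qb) (hϖK : ϖ ∈ K) (hy : V.valuation y ^ p ^ k = V.valuation ϖ)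
    (hϖ : ∀ b ∈ K, V.valuation ϖ ≠ V.valuation b ^ p) :
    ∀ j, 0 < j → j < p ^ k → ∀ b ∈ K, V.valuation (y ^ j) ≠ V.valuation b := by
  intro j hj hjk b hb heq
  have hvy : V.valuation y ≠ 0 := (Valuation.ne_zero_iff _).mpr hy0
  obtain ⟨s, hs, hgcd⟩ := (Nat.dvd_prime_pow hp).mp (Nat.gcd_dvd_right j (p ^ k))
  have hsk : s < k := by
    rcases lt_or_eq_of_le hs with h | h
    · exact h
    · exfalso
      have h1 : p ^ k ∣ j := by
        rw [← h, ← hgcd]
        exact Nat.gcd_dvd_left _ _
      exact absurd (Nat.le_of_dvd hj h1) (not_le.mpr hjk)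
  have hbez := Nat.gcd_eq_gcd_ab j (p ^ k)
  rw [hgcd] at hbez
  set u := j.gcdA (p ^ k) with hu
  set w := j.gcdB (p ^ k) with hw
  set b' : Qb := b ^ u * ϖ ^ w with hb'
  have hb'K : b' ∈ K := mul_mem (zpow_mem hb u) (zpow_mem hϖK w)
  have h1 : V.valuation y ^ p ^ s = V.valuation b' := by
    rw [hb', map_mul, map_zpow₀, map_zpow₀, ← heq, ← hy, map_pow, ← zpow_natCast _ (p ^ s), hbez,
      zpow_add₀ hvy, zpow_mul, zpow_mul, zpow_natCast, zpow_natCast]
  have h2 : V.valuation ϖ = V.valuation (b' ^ p ^ (k - s - 1)) ^ p := by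
    rw [map_pow, ← h1, ← hy, ← pow_mul, ← pow_mul]
    congr 1
    rw [← pow_succ, ← pow_add]
    congr 1
    omega
  exact hϖ _ (pow_mem hb'K _) h2

/-- linear independence: the degree is at least `n` -/
lemma deg_ge (K : IntermediateField ℚ Qb) (n : ℕ) (y : Qb) (hy0 : y ≠ 0)
    (V : ValuationSubring Qb)
    (hVI : ∀ j, 0 < j → j < n → ∀ b ∈ K, V.valuation (y ^ j) ≠ V.valuation b) :
    n ≤ (minpoly K y).natDegree := by
  classical
  by_contra hcon
  push Not at hcon
  have hint : IsIntegral K y := alg_isIntegral K y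
  have hqm : (minpoly K y).Monic := minpoly.monic hint
  have h0 : aeval y (minpoly K y) = 0 := minpoly.aeval K y
  rw [aeval_eq_sum_range' hcon] at h0
  have e1 : ∑ j ∈ (Finset.range n).filter (fun j => (minpoly K y).coeff j ≠ 0),
      (((minpoly K y).coeff j : K) : Qb) * y ^ j = 0 := by
    rw [Finset.sum_filter_of_ne, ← h0]
    · apply Finset.sum_congr rfl
      intro j _
      rw [Algebra.smul_def]
      rfl
    · intro j _ hj h0
      apply hj
      rw [h0]
      show (0 : Qb) * y ^ j = 0
      rw [zero_mul]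
  refine sum_ne_zero V.valuation _ (fun j => (((minpoly K y).coeff j : K) : Qb) * y ^ j) ?_
    (minpoly K y).natDegree
    (Finset.mem_filter.mpr ⟨Finset.mem_range.mpr hcon, ?_⟩) ?_ e1
  · intro i hi j hj hij
    have hi' := Finset.mem_filter.mp hi
    have hj' := Finset.mem_filter.mp hj
    exact distinct K n y hy0 V hVI _ _ hi'.2 i j
      (Finset.mem_range.mp hi'.1) (Finset.mem_range.mp hj'.1) hij
  · have : (minpoly K y).coeff (minpoly K y).natDegree = 1 := hqm
    rw [this]
    exact one_ne_zero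
  · have : (minpoly K y).coeff (minpoly K y).natDegree = 1 := hqm
    rw [this]
    exact mul_ne_zero (by simp) (pow_ne_zero _ hy0)

/-- an automorphism, from a lower bound for the degree -/
lemma exists_aut2 (K : IntermediateField ℚ Qb) (n : ℕ) (hn : 0 < n) (x : Qb) (hxn : x ^ n ∈ K)
    (hge : n ≤ (minpoly K x).natDegree)
    (ω : Qb) (hω : ω ^ n = 1) :
    ∃ σ : Qb ≃ₐ[ℚ] Qb, σ x = ω * x ∧ ∀ y ∈ K, σ y = y := by
  refine exists_aut K n hn x hxn ?_ ω hω
  intro b hb j hj
  by_contra hbj
  set f : K[X] := ∑ j ∈ Finset.range n, C (b j) * X ^ j with hf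
  have hfd : f.natDegree < n := by
    have h1 : f.degree < n := by
      rw [hf, degree_lt_iff_coeff_zero]
      intro m hm
      rw [finsetSum_coeff]
      apply Finset.sum_eq_zero
      intro i hi
      rw [coeff_C_mul, coeff_X_pow, if_neg, mul_zero]
      have := Finset.mem_range.mp hi
      have hm' : n ≤ m := by exact_mod_cast hm
      omega
    rcases eq_or_ne f 0 with h | h
    · rw [h, natDegree_zero]; exact hn
    · exact (natDegree_lt_iff_degree_lt h).mpr h1
  have hfc : f.coeff j = b j := by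
    rw [hf, finsetSum_coeff, Finset.sum_eq_single j]
    · simp
    · intro i _ hij
      rw [coeff_C_mul, coeff_X_pow, if_neg (Ne.symm hij), mul_zero]
    · intro h
      exact absurd (Finset.mem_range.mpr hj) h
  have hf0 : f ≠ 0 := by
    intro h
    rw [h, coeff_zero] at hfc
    exact hbj hfc.symm
  have hfx : aeval x f = 0 := by
    rw [← hb, hf, map_sum]
    apply Finset.sum_congr rfl
    intro i _
    rw [map_mul, aeval_C, map_pow, aeval_X]
    rfl
  have h1 := natDegree_le_of_dvd (minpoly.dvd K x hfx) hf0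
  omega

/-- expansion in powers of `x - c` -/
lemma gen_mem2 (K : IntermediateField ℚ Qb) (n : ℕ) (hn : 0 < n) (x : Qb) (hxn : x ^ n ∈ K)
    (c : Qb) (hc : c ∈ K) (y : Qb) (hy : y ∈ K ⊔ IntermediateField.adjoin ℚ {x}) :
    ∃ b : ℕ → K, y = ∑ j ∈ Finset.range n, (b j : Qb) * (x - c) ^ j := by
  obtain ⟨b, hb⟩ := gen_mem K n hn x hxn y hy
  set f : K[X] := ∑ j ∈ Finset.range n, C (b j) * X ^ j with hf
  have hfd : f.natDegree < n := by
    have h1 : f.degree < n := by
      rw [hf, degree_lt_iff_coeff_zero]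
      intro m hm
      rw [finsetSum_coeff]
      apply Finset.sum_eq_zero
      intro i hi
      rw [coeff_C_mul, coeff_X_pow, if_neg, mul_zero]
      have := Finset.mem_range.mp hi
      have hm' : n ≤ m := by exact_mod_cast hm
      omega
    rcases eq_or_ne f 0 with h | h
    · rw [h, natDegree_zero]; exact hn
    · exact (natDegree_lt_iff_degree_lt h).mpr h1
  have hfx : aeval x f = y := by
    rw [hb, hf, map_sum]
    apply Finset.sum_congr rfl
    intro i _
    rw [map_mul, aeval_C, map_pow, aeval_X]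
    rfl
  set g : K[X] := f.comp (X + C ⟨c, hc⟩) with hg
  have hgd : g.natDegree < n := by
    rw [hg, natDegree_comp, natDegree_X_add_C, mul_one]
    exact hfd
  have hgx : aeval (x - c) g = y := by
    rw [hg, aeval_comp, map_add, aeval_X, aeval_C, ← hfx]
    congr 1
    congr 1
    show x - c + c = x
    ring
  refine ⟨fun j => g.coeff j, ?_⟩
  rw [← hgx, aeval_eq_sum_range' hgd]
  apply Finset.sum_congr rfl
  intro j _
  rw [Algebra.smul_def]
  rfl

/-- the action of `σ` is close to the identity, uniformly -/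
lemma close (K : IntermediateField ℚ Qb) (n : ℕ) (y : Qb) (hy0 : y ≠ 0)
    (V : ValuationSubring Qb)
    (hVI : ∀ j, 0 < j → j < n → ∀ b ∈ K, V.valuation (y ^ j) ≠ V.valuation b)
    (σ : Qb ≃ₐ[ℚ] Qb) (hσ : ∀ b ∈ K, σ b = b) (θ : V.ValueGroup) (hθ : θ ≤ 1)
    (hσy : V.valuation (σ y - y) ≤ θ * V.valuation y) (b : ℕ → K) :
    V.valuation (σ (∑ j ∈ Finset.range n, (b j : Qb) * y ^ j) -
      ∑ j ∈ Finset.range n, (b j : Qb) * y ^ j) ≤
      θ * V.valuation (∑ j ∈ Finset.range n, (b j : Qb) * y ^ j) := by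
  classical
  set S : Finset ℕ := (Finset.range n).filter (fun j => b j ≠ 0) with hS
  have hβS : ∑ j ∈ Finset.range n, (b j : Qb) * y ^ j = ∑ j ∈ S, (b j : Qb) * y ^ j := by
    rw [hS, Finset.sum_filter_of_ne]
    intro j _ hj h0
    apply hj
    rw [h0]
    show (0 : Qb) * y ^ j = 0
    rw [zero_mul]
  rw [hβS]
  have hvy : V.valuation (σ y) ≤ V.valuation y := by
    have e : σ y = (σ y - y) + y := by ring
    rw [e]
    refine (Valuation.map_add _ _ _).trans (max_le ?_ le_rfl)
    exact hσy.trans (mul_le_of_le_one_left zero_le hθ)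
  have hpow : ∀ j : ℕ, V.valuation (σ y ^ j - y ^ j) ≤ θ * V.valuation y ^ j := by
    intro j
    rcases Nat.eq_zero_or_pos j with rfl | hj
    · rw [pow_zero, pow_zero, sub_self, map_zero]
      exact zero_le
    · rw [← (Commute.all (σ y) y).mul_geom_sum₂, map_mul]
      have h1 : V.valuation (∑ i ∈ Finset.range j, σ y ^ i * y ^ (j - 1 - i)) ≤
          V.valuation y ^ (j - 1) := by
        apply Valuation.map_sum_le
        intro i hi
        have hi' := Finset.mem_range.mp hi
        rw [map_mul, map_pow, map_pow]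
        calc V.valuation (σ y) ^ i * V.valuation y ^ (j - 1 - i)
            ≤ V.valuation y ^ i * V.valuation y ^ (j - 1 - i) :=
              mul_le_mul' (pow_le_pow_left₀ zero_le hvy i) le_rfl
          _ = V.valuation y ^ (j - 1) := by
              rw [← pow_add]; congr 1; omega
      calc V.valuation (σ y - y) * V.valuation (∑ i ∈ Finset.range j, σ y ^ i * y ^ (j - 1 - i))
          ≤ (θ * V.valuation y) * V.valuation y ^ (j - 1) := mul_le_mul' hσy h1
        _ = θ * V.valuation y ^ j := by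
            rw [mul_assoc, ← pow_succ']
            congr 2
            omega
  have e : σ (∑ j ∈ S, (b j : Qb) * y ^ j) - ∑ j ∈ S, (b j : Qb) * y ^ j =
      ∑ j ∈ S, (b j : Qb) * (σ y ^ j - y ^ j) := by
    rw [map_sum, ← Finset.sum_sub_distrib]
    apply Finset.sum_congr rfl
    intro j _
    rw [map_mul, map_pow, hσ _ (b j).2]
    ring
  rw [e]
  apply Valuation.map_sum_le
  intro j hj
  rw [map_mul]
  have h3 : V.valuation ((b j : Qb) * y ^ j) ≤ V.valuation (∑ j ∈ S, (b j : Qb) * y ^ j) := by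
    apply val_sum V.valuation S (fun j => (b j : Qb) * y ^ j) _ j hj
    intro i hi j hj hij
    have hi' := Finset.mem_filter.mp hi
    have hj' := Finset.mem_filter.mp hj
    exact distinct K n y hy0 V hVI _ _ hi'.2 i j
      (Finset.mem_range.mp hi'.1) (Finset.mem_range.mp hj'.1) hij
  calc V.valuation (b j : Qb) * V.valuation (σ y ^ j - y ^ j)
      ≤ V.valuation (b j : Qb) * (θ * V.valuation y ^ j) := mul_le_mul' le_rfl (hpow j)
    _ = θ * V.valuation ((b j : Qb) * y ^ j) := by
        rw [map_mul, map_pow]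
        exact mul_left_comm _ _ _
    _ ≤ _ := mul_le_mul' le_rfl h3

/-- adjoining a `q`-th root of unity does not destroy the condition -/
lemma cond_zeta (K : IntermediateField ℚ Qb) (q : ℕ) (hq : q.Prime) (V : ValuationSubring Qb)
    (ϖ : Qb) (hϖK : ϖ ∈ K) (hϖ : ∀ b ∈ K, V.valuation ϖ ≠ V.valuation b ^ q)
    (ζ : Qb) (hζ : IsPrimitiveRoot ζ q) :
    ∀ b ∈ K ⊔ IntermediateField.adjoin ℚ {ζ}, V.valuation ϖ ≠ V.valuation b ^ q := by
  intro b hb heq
  have hϖ0 : ϖ ≠ 0 := by
    rintro rfl
    apply hϖ 0 (zero_mem K)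
    rw [map_zero, zero_pow hq.ne_zero]
  have hb0 : b ≠ 0 := by
    rintro rfl
    rw [map_zero, zero_pow hq.ne_zero, Valuation.zero_iff] at heq
    exact hϖ0 heq
  have hVI := ortho K q hq V b hb0 1 ϖ hϖK (by rw [pow_one]; exact heq.symm) hϖ
  rw [pow_one] at hVI
  have h1 := deg_ge K q b hb0 V hVI
  -- the degree of `K(ζ)` is less than `q`
  rw [← Pool.Agent.H58B.mem_adjoin_iff] at hb
  have hζint : IsIntegral K ζ := alg_isIntegral K ζ
  have hfd : FiniteDimensional K (IntermediateField.adjoin K {ζ}) :=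
    IntermediateField.adjoin.finiteDimensional hζint
  have h2 : (minpoly K b).natDegree ≤ finrank K (IntermediateField.adjoin K {ζ}) := by
    have hb' : b ∈ IntermediateField.adjoin K {ζ} := hb
    have e : minpoly K b = minpoly K (⟨b, hb'⟩ : IntermediateField.adjoin K {ζ}) := by
      rw [← minpoly.algebraMap_eq (algebraMap (IntermediateField.adjoin K {ζ}) Qb).injective]
      rfl
    rw [e]
    exact minpoly.natDegree_le _
  rw [IntermediateField.adjoin.finrank hζint] at h2
  have h3 : (minpoly K ζ).natDegree ≤ q - 1 := by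
    have h4 : aeval ζ (∑ i ∈ Finset.range q, (X : K[X]) ^ i) = 0 := by
      rw [map_sum]
      simp only [map_pow, aeval_X]
      exact hζ.geom_sum_eq_zero hq.one_lt
    have h5 : (∑ i ∈ Finset.range q, (X : K[X]) ^ i).Monic := by
      have := monic_geom_sum_X (R := K) hq.ne_zero
      exact this
    have h6 := natDegree_le_of_dvd (minpoly.dvd K ζ h4) h5.ne_zero
    refine h6.trans ?_
    apply natDegree_sum_le_of_forall_le
    intro i hi
    rw [natDegree_X_pow]
    have := Finset.mem_range.mp hi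
    omega
  have := hq.two_le
  omega

end Pool.Agent.H58R
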