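import Mathlib
import Pool.Agent.H58R.Orth

set_option autoImplicit false

/-!
# Transfer along a chain which is totally ramified above `q`
-/

namespace Pool.Agent.H58R

open IntermediateField Polynomial Module
open Pool.Agent.H58P (Qb ht qb_isIntegral alg_isIntegral)
open Pool.Agent.H58B (ht_conj ht_pow)

/-- a chain of `q`-th roots, totally ramified over `K` at all places above `q` -/
def GoodChain (K : IntermediateField ℚ Qb) (q : ℕ) (x : ℕ → Qb) : Prop :=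
  x 0 ∈ K ∧ (∀ k, x k ≠ 0) ∧ (∀ k, x (k + 1) ^ q = x k) ∧
  ∀ V : ValuationSubring Qb, V.valuation (q : Qb) < 1 →
    ∃ ϖ ∈ K, (∀ b ∈ K, V.valuation ϖ ≠ V.valuation b ^ q) ∧
      ∀ i, ∃ c ∈ K, V.valuation (x i - c) ^ q ^ i = V.valuation ϖ ∧
        (0 < i → ∀ ξ : Qb, ξ ^ q = 1 →
          V.valuation ((1 - ξ) * x i) ^ ((q - 1) * q ^ 2) ≤
            V.valuation (q : Qb) ^ (q ^ 2 - q + 1) *
              V.valuation (x i - c) ^ ((q - 1) * q ^ 2))

/-- the fixed elements -/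
lemma fixed_mem (K : IntermediateField ℚ Qb) (q : ℕ) (hq : q.Prime) (n : ℕ) (hn : 0 < n)
    (x : Qb) (hxn : x ^ n ∈ K) (σ : Qb ≃ₐ[ℚ] Qb) (ζ : Qb)
    (hζ : IsPrimitiveRoot ζ q) (hσx : σ x = ζ * x) (hσζ : σ ζ = ζ) (hσK : ∀ b ∈ K, σ b = b)
    (w : Qb) (hw : w ∈ K ⊔ IntermediateField.adjoin ℚ {x}) (hσw : σ w = w) :
    w ∈ K ⊔ IntermediateField.adjoin ℚ {x ^ q} := by
  classical
  obtain ⟨b, hb⟩ := gen_mem K n hn x hxn w hw
  have hs : ∀ s : ℕ, ∑ j ∈ Finset.range n, (b j : Qb) * ((ζ ^ j) ^ s * x ^ j) = w := by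
    intro s
    induction s with
    | zero =>
      rw [hb]
      apply Finset.sum_congr rfl
      intro j _
      rw [pow_zero, one_mul]
    | succ s ih =>
      have h1 := congrArg σ ih
      rw [hσw, map_sum] at h1
      rw [← h1]
      apply Finset.sum_congr rfl
      intro j _
      rw [map_mul, map_mul, map_pow, map_pow, map_pow, hσx, hσζ, hσK _ (b j).2, mul_pow]
      ring
  have hsum : (q : Qb) * w = ∑ j ∈ Finset.range n,
      (b j : Qb) * x ^ j * ∑ s ∈ Finset.range q, (ζ ^ j) ^ s := by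
    calc (q : Qb) * w = ∑ s ∈ Finset.range q, w := by
          rw [Finset.sum_const, Finset.card_range, nsmul_eq_mul]
      _ = ∑ s ∈ Finset.range q, ∑ j ∈ Finset.range n, (b j : Qb) * ((ζ ^ j) ^ s * x ^ j) := by
          apply Finset.sum_congr rfl
          intro s _
          exact (hs s).symm
      _ = ∑ j ∈ Finset.range n, (b j : Qb) * x ^ j * ∑ s ∈ Finset.range q, (ζ ^ j) ^ s := by
          rw [Finset.sum_comm]
          apply Finset.sum_congr rfl
          intro j _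
          rw [Finset.mul_sum]
          apply Finset.sum_congr rfl
          intro s _
          ring
  have hqw : (q : Qb) * w ∈ K ⊔ IntermediateField.adjoin ℚ {x ^ q} := by
    rw [hsum]
    apply sum_mem
    intro j _
    by_cases hj : q ∣ j
    · obtain ⟨t, rfl⟩ := hj
      have h1 : ∑ s ∈ Finset.range q, (ζ ^ (q * t)) ^ s = q := by
        have e : ζ ^ (q * t) = 1 := by rw [pow_mul, hζ.pow_eq_one, one_pow]
        rw [e]
        simp
      rw [h1, pow_mul]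
      apply mul_mem (mul_mem _ _) _
      · exact (le_sup_left : K ≤ _) (b (q * t)).2
      · apply pow_mem
        exact (le_sup_right : IntermediateField.adjoin ℚ {x ^ q} ≤ _)
          (IntermediateField.mem_adjoin_simple_self ℚ _)
      · exact IntermediateField.natCast_mem _ q
    · have h1 : ∑ s ∈ Finset.range q, (ζ ^ j) ^ s = 0 := by
        have hne : ζ ^ j ≠ 1 := fun h => hj ((hζ.pow_eq_one_iff_dvd j).mp h)
        have h2 := mul_neg_geom_sum (ζ ^ j) q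
        rw [← pow_mul, mul_comm j q, pow_mul, hζ.pow_eq_one, one_pow, sub_self] at h2
        rcases mul_eq_zero.mp h2 with h3 | h3
        · exact absurd (sub_eq_zero.mp h3).symm hne
        · exact h3
      rw [h1, mul_zero]
      exact zero_mem _
  have hq0 : (q : Qb) ≠ 0 := by exact_mod_cast hq.ne_zero
  have h1 := div_mem hqw (IntermediateField.natCast_mem (K ⊔ IntermediateField.adjoin ℚ {x ^ q}) q)
  rwa [mul_div_cancel_left₀ _ hq0] at h1

/-- the automorphisms of a good chain -/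
lemma good_aut (K : IntermediateField ℚ Qb) (q : ℕ) (hq : q.Prime) (x : ℕ → Qb)
    (hx : GoodChain K q x) (i : ℕ) :
    ∃ (σ : Qb ≃ₐ[ℚ] Qb) (ζ : Qb), IsPrimitiveRoot ζ q ∧
      σ (x (i + 1)) = ζ * x (i + 1) ∧
      (∀ y ∈ K ⊔ IntermediateField.adjoin ℚ {x (i + 1)}, σ y = y →
        y ∈ K ⊔ IntermediateField.adjoin ℚ {x i}) ∧
      σ (x 0) = x 0 ∧
      ∀ V : ValuationSubring Qb, V.valuation (q : Qb) < 1 →
        ∀ y ∈ K ⊔ IntermediateField.adjoin ℚ {x (i + 1)},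
          V.valuation (σ y - y) ^ ((q - 1) * q ^ 2) ≤
            V.valuation (q : Qb) ^ (q ^ 2 - q + 1) * V.valuation y ^ ((q - 1) * q ^ 2) := by
  obtain ⟨hx0K, hxne, hxs, hV⟩ := hx
  obtain ⟨ζ, hζ⟩ := exists_prim q hq.pos
  obtain ⟨V0, hV0⟩ := exists_over q hq
  obtain ⟨ϖ, hϖK, hϖ, hc⟩ := hV V0 hV0
  obtain ⟨c, hcK, hcϖ, -⟩ := hc (i + 1)
  have hyne : ∀ (V : ValuationSubring Qb) (ϖ c : Qb) (j : ℕ),
      (∀ b ∈ K, V.valuation ϖ ≠ V.valuation b ^ q) →
      V.valuation (x j - c) ^ q ^ j = V.valuation ϖ → x j - c ≠ 0 := by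
    intro V ϖ c j h1 h2 h3
    rw [h3, map_zero, zero_pow (pow_ne_zero _ hq.ne_zero)] at h2
    apply h1 0 (zero_mem K)
    rw [map_zero, zero_pow hq.ne_zero, ← h2]
  set Kt : IntermediateField ℚ Qb := K ⊔ IntermediateField.adjoin ℚ {ζ} with hKt
  have hKle : K ≤ Kt := le_sup_left
  have hxn : x (i + 1) ^ q ^ (i + 1) = x 0 := by
    have h1 := r_pow q x hxs 0 (i + 1)
    rwa [zero_add] at h1
  have hy0 := hyne V0 ϖ c (i + 1) hϖ hcϖ
  have hcond := cond_zeta K q hq V0 ϖ hϖK hϖ ζ hζ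
  have hort := ortho Kt q hq V0 (x (i + 1) - c) hy0 (i + 1) ϖ (hKle hϖK) hcϖ hcond
  have hdeg1 := deg_ge Kt (q ^ (i + 1)) (x (i + 1) - c) hy0 V0 hort
  have hdeg : q ^ (i + 1) ≤ (minpoly Kt (x (i + 1))).natDegree := by
    have h1 := minpoly.sub_algebraMap (A := Kt) (x (i + 1)) ⟨c, hKle hcK⟩
    have h2 : x (i + 1) - algebraMap Kt Qb ⟨c, hKle hcK⟩ = x (i + 1) - c := rfl
    rw [h2] at h1
    rw [h1, natDegree_comp, natDegree_X_add_C, mul_one] at hdeg1
    exact hdeg1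
  obtain ⟨σ, hσx, hσK⟩ := exists_aut2 Kt (q ^ (i + 1)) (pow_pos hq.pos _) (x (i + 1))
    (by rw [hxn]; exact hKle hx0K) hdeg ζ (by rw [pow_succ', pow_mul, hζ.pow_eq_one, one_pow])
  have hσζ : σ ζ = ζ := hσK ζ ((le_sup_right : IntermediateField.adjoin ℚ {ζ} ≤ Kt)
    (IntermediateField.mem_adjoin_simple_self ℚ _))
  have hσK' : ∀ b ∈ K, σ b = b := fun b hb => hσK b (hKle hb)
  refine ⟨σ, ζ, hζ, hσx, ?_, hσK' _ hx0K, ?_⟩
  · intro y hy hσy
    have h1 := fixed_mem K q hq (q ^ (i + 1)) (pow_pos hq.pos _) (x (i + 1))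
      (by rw [hxn]; exact hx0K) σ ζ hζ hσx hσζ hσK' y hy hσy
    rwa [hxs i] at h1
  · intro V hVq y hy
    obtain ⟨ϖ', hϖK', hϖ', hc'⟩ := hV V hVq
    obtain ⟨c', hcK', hcϖ', hbd⟩ := hc' (i + 1)
    have hy0' := hyne V ϖ' c' (i + 1) hϖ' hcϖ'
    have hort' := ortho K q hq V (x (i + 1) - c') hy0' (i + 1) ϖ' hϖK' hcϖ' hϖ'
    obtain ⟨b, hb⟩ := gen_mem2 K (q ^ (i + 1)) (pow_pos hq.pos _) (x (i + 1))
      (by rw [hxn]; exact hx0K) c' hcK' y hy
    set Y : Qb := x (i + 1) - c' with hY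
    have hσY : σ Y - Y = -((1 - ζ) * x (i + 1)) := by
      rw [hY, map_sub, hσx, hσK' c' hcK']
      ring
    have hvY : V.valuation Y ≠ 0 := (Valuation.ne_zero_iff _).mpr hy0'
    set θ : V.ValueGroup := V.valuation (σ Y - Y) / V.valuation Y with hθ
    have hθE : θ ^ ((q - 1) * q ^ 2) ≤ V.valuation (q : Qb) ^ (q ^ 2 - q + 1) := by
      have h1 := hbd (Nat.succ_pos i) ζ hζ.pow_eq_one
      rw [hθ, hσY, Valuation.map_neg, div_pow]
      exact (div_le_iff₀ (zero_lt_iff.mpr (pow_ne_zero _ hvY))).mpr h1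
    have hE1 := (exps q hq.two_le).2.2.1
    have hθ1 : θ ≤ 1 := by
      have h1 : θ ^ ((q - 1) * q ^ 2) ≤ 1 := hθE.trans (pow_le_one' hVq.le _)
      exact (pow_le_one_iff hE1.ne').mp h1
    have hcl := close K (q ^ (i + 1)) Y hy0' V hort' σ hσK' θ hθ1
      (by rw [hθ, div_mul_cancel₀ _ hvY]) b
    rw [← hb] at hcl
    calc V.valuation (σ y - y) ^ ((q - 1) * q ^ 2)
        ≤ (θ * V.valuation y) ^ ((q - 1) * q ^ 2) := pow_le_pow_left₀ zero_le hcl _
      _ = θ ^ ((q - 1) * q ^ 2) * V.valuation y ^ ((q - 1) * q ^ 2) := mul_pow _ _ _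
      _ ≤ _ := mul_le_mul' hθE le_rfl

/-- the transfer along one good chain -/
theorem transfer2 (K : IntermediateField ℚ Qb) (Γ : Subgroup Qbˣ) (hK : Small K Γ) (q : ℕ)
    (hq : q.Prime) (a : Qbˣ) (x : ℕ → Qb) (hx0 : x 0 = a) (hx : GoodChain K q x) :
    Small (K ⊔ IntermediateField.adjoin ℚ (Set.range x)) (Γ ⊔ Subgroup.closure {a}) := by
  obtain ⟨c, hc, hKc⟩ := hK
  obtain ⟨Q, hQ⟩ := exists_nat_gt (ht (a : Qb) / (c / 2))
  have ha0 : (a : Qb) ≠ 0 := a.ne_zero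
  have hc2 : 0 < c / 2 := by linarith
  have hQ0 : 0 < Q := by
    have h1 : 0 ≤ ht (a : Qb) / (c / 2) := div_nonneg (ht_nonneg _) hc2.le
    exact_mod_cast h1.trans_lt hQ
  have hQa : ht (a : Qb) / ((Q : ℝ) + 1) ≤ c / 2 := by
    rw [div_le_iff₀ (by positivity)]
    rw [div_lt_iff₀ hc2] at hQ
    linarith
  have hq2 : (0 : ℝ) < q := by exact_mod_cast hq.pos
  have hlog : 0 < Real.log 2 := Real.log_pos (by norm_num)
  have hQ0' : (0 : ℝ) < Q := by exact_mod_cast hQ0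
  have hE1 := (exps q hq.two_le).2.2.1
  have hE1' : (0 : ℝ) < (((q - 1) * q ^ 2 : ℕ) : ℝ) := by exact_mod_cast hE1
  have hx0K := hx.1
  have hxne := hx.2.1
  have hxs := hx.2.2.1
  refine ⟨min (Real.log 2 / (2 * q * (((q - 1) * q ^ 2 : ℕ) : ℝ))) (c / (2 * Q)),
    lt_min (by positivity) (by positivity), fun β hβ hβ0 hnd => ?_⟩
  obtain ⟨k, hk⟩ := mem_chain K q x hxs β hβ
  have hrk : x k ^ q ^ k = (a : Qb) := by
    have := r_pow q x hxs 0 k
    rw [zero_add] at this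
    rw [this, hx0]
  rcases level2 K q hq x hx0K hxs hxne (good_aut K q hq x hx) k β hk hβ0
    with ⟨b, hb, j, hbj⟩ | h
  · have hb0 : b ≠ 0 := by
      rintro rfl
      rw [zero_mul] at hbj
      exact hβ0 hbj
    rcases fin_step K Γ c hc hKc a (hx0 ▸ hx0K) Q hQ0 hQa β b hb hb0 (q ^ k) (pow_pos hq.pos k) j
      (by rw [hbj, mul_pow, ← pow_mul, mul_comm j, pow_mul, hrk]) with h | h
    · exact absurd h hnd
    · exact (min_le_right _ _).trans h
  · exact (min_le_left _ _).trans h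

end Pool.Agent.H58R
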