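import Mathlib
import Pool.Agent.H58R.Tr2
import Pool.Agent.H58R.Rat

set_option autoImplicit false

/-!
# Several good chains
-/

namespace Pool.Agent.H58R

open IntermediateField Polynomial Module
open Pool.Agent.H58P (Qb ht qb_isIntegral alg_isIntegral)
open Pool.Agent.H58B (ht_conj ht_pow)

lemma cond_lift (K K₁ : IntermediateField ℚ Qb) (q : ℕ) (hq : q.Prime)
    (V : ValuationSubring Qb)
    (h : ∀ b ∈ K₁, b ≠ 0 → ∃ e : ℕ, ¬ q ∣ e ∧ ∃ c ∈ K, c ≠ 0 ∧ V.valuation b ^ e = V.valuation c)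
    (ϖ : Qb) (hϖK : ϖ ∈ K) (hϖ : ∀ b ∈ K, V.valuation ϖ ≠ V.valuation b ^ q) :
    ∀ b ∈ K₁, V.valuation ϖ ≠ V.valuation b ^ q := by
  intro b hb heq
  have hϖ0 : ϖ ≠ 0 := by
    rintro rfl
    apply hϖ 0 (zero_mem K)
    rw [map_zero, zero_pow hq.ne_zero]
  have hb0 : b ≠ 0 := by
    rintro rfl
    rw [map_zero, zero_pow hq.ne_zero, Valuation.zero_iff] at heq
    exact hϖ0 heq
  obtain ⟨e, hqe, c, hcK, hc0, hec⟩ := h b hb hb0
  have hcop : IsCoprime (e : ℤ) (q : ℤ) := by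
    rw [Nat.isCoprime_iff_coprime]
    exact ((Nat.Prime.coprime_iff_not_dvd hq).mpr hqe).symm
  obtain ⟨u, w, huw⟩ := hcop
  have ha0 : V.valuation ϖ ≠ 0 := (Valuation.ne_zero_iff _).mpr hϖ0
  apply hϖ (c ^ u * ϖ ^ w) (mul_mem (zpow_mem hcK u) (zpow_mem hϖK w))
  have h2 : V.valuation ϖ ^ e = V.valuation c ^ q := by
    rw [heq, ← hec, ← pow_mul, ← pow_mul, mul_comm]
  calc V.valuation ϖ = V.valuation ϖ ^ (u * e + w * q) := by
        rw [huw, zpow_one]
    _ = (V.valuation ϖ ^ e) ^ u * (V.valuation ϖ ^ w) ^ q := by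
        rw [zpow_add₀ ha0, mul_comm u, zpow_mul, zpow_mul, zpow_natCast, zpow_natCast]
    _ = _ := by
        rw [h2, map_mul, map_zpow₀, map_zpow₀, mul_pow]
        congr 1
        rw [← zpow_natCast, ← zpow_natCast, ← zpow_mul, ← zpow_mul, mul_comm]

/-- several good chains -/
theorem main2 (K : IntermediateField ℚ Qb) (Γ : Subgroup Qbˣ) (hK : Small K Γ) (a : ℕ → Qbˣ)
    (r : ℕ → ℕ → Qb) (P : Finset ℕ) (hP : ∀ p ∈ P, p.Prime)
    (hr0 : ∀ p ∈ P, r p 0 = a p) (hr : ∀ p ∈ P, GoodChain K p (r p)) :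
    Small (tower K P r) (Γ ⊔ Subgroup.closure (a '' (P : Set ℕ))) ∧
    ∀ q : ℕ, q.Prime → q ∉ P → ∀ V : ValuationSubring Qb, V.valuation (q : Qb) < 1 →
      ∀ b ∈ tower K P r, b ≠ 0 →
        ∃ e : ℕ, ¬ q ∣ e ∧ ∃ c ∈ K, c ≠ 0 ∧ V.valuation b ^ e = V.valuation c := by
  classical
  induction P using Finset.induction_on with
  | empty =>
    have e : tower K ∅ r = K := by
      unfold tower
      simp
    rw [e]
    refine ⟨by simpa using hK, ?_⟩
    intro q hq _ V _ b hb hb0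
    refine ⟨1, ?_, b, hb, hb0, pow_one _⟩
    intro h
    exact hq.one_lt.ne' (Nat.dvd_one.mp h)
  | insert q P hqP ih =>
    obtain ⟨ih1, ih2⟩ := ih (fun p hp => hP p (Finset.mem_insert_of_mem hp))
      (fun p hp => hr0 p (Finset.mem_insert_of_mem hp))
      (fun p hp => hr p (Finset.mem_insert_of_mem hp))
    have hqm := Finset.mem_insert_self q P
    have hq : q.Prime := hP q hqm
    have hKT : K ≤ tower K P r := le_sup_left
    obtain ⟨hx0K, hxne, hxs, hV⟩ := hr q hqm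
    have haK : (a q : Qb) ∈ K := by rw [← hr0 q hqm]; exact hx0K
    constructor
    · have hgood : GoodChain (tower K P r) q (r q) := by
        refine ⟨hKT hx0K, hxne, hxs, fun V hVq => ?_⟩
        obtain ⟨ϖ, hϖK, hϖ, hc⟩ := hV V hVq
        refine ⟨ϖ, hKT hϖK, cond_lift K (tower K P r) q hq V (ih2 q hq hqP V hVq) ϖ hϖK hϖ, ?_⟩
        intro i
        obtain ⟨c, hcK, h1, h2⟩ := hc i
        exact ⟨c, hKT hcK, h1, h2⟩
      have h1 := transfer2 (tower K P r) _ ih1 q hq (a q) (r q) (hr0 q hqm) hgood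
      obtain ⟨c, hc, hcβ⟩ := h1
      refine ⟨c, hc, fun β hβ hβ0 hnd => hcβ β (tower_insert K P q r hβ) hβ0 ?_⟩
      rintro ⟨N, hN, g, hg, hgN⟩
      apply hnd
      refine ⟨N, hN, g, ?_, hgN⟩
      have hle : Γ ⊔ Subgroup.closure (a '' (P : Set ℕ)) ⊔ Subgroup.closure {a q} ≤
          Γ ⊔ Subgroup.closure (a '' ((insert q P : Finset ℕ) : Set ℕ)) := by
        apply sup_le
        · apply sup_le_sup_left
          apply Subgroup.closure_mono
          apply Set.image_mono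
          exact_mod_cast Finset.subset_insert q P
        · refine le_trans ?_ le_sup_right
          apply Subgroup.closure_mono
          rw [Set.singleton_subset_iff]
          exact ⟨q, by simp, rfl⟩
      exact hle hg
    · intro p hp hpP V hVp b hb hb0
      have hpq : p ≠ q := fun h => hpP (h ▸ hqm)
      have hpP' : p ∉ P := fun h => hpP (Finset.mem_insert_of_mem h)
      obtain ⟨e, hpe, c, hc, hc0, hec⟩ := chain_val (tower K P r) q hq (a q) (hKT haK) (r q)
        (hr0 q hqm) hxs p hp hpq V hVp b (tower_insert K P q r hb) hb0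
      obtain ⟨e', hpe', c', hc', hc0', hec'⟩ := ih2 p hp hpP' V hVp c hc hc0
      refine ⟨e * e', ?_, c', hc', hc0', ?_⟩
      · intro h
        rcases hp.dvd_mul.mp h with h | h
        · exact hpe h
        · exact hpe' h
      · rw [pow_mul, hec, hec']

/-- first layers at other primes -/
lemma first_layers (K : IntermediateField ℚ Qb) (a x : ℕ → Qb) (S : Finset ℕ)
    (hS : ∀ q ∈ S, q.Prime) (haK : ∀ q ∈ S, x q ^ q ∈ K) (hx0 : ∀ q ∈ S, x q ≠ 0)
    (p : ℕ) (hp : p.Prime) (hpS : p ∉ S) (V : ValuationSubring Qb)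
    (hV : V.valuation (p : Qb) < 1) :
    ∀ b ∈ K ⊔ IntermediateField.adjoin ℚ (x '' (S : Set ℕ)), b ≠ 0 →
      ∃ e : ℕ, ¬ p ∣ e ∧ ∃ c ∈ K, c ≠ 0 ∧ V.valuation b ^ e = V.valuation c := by
  classical
  induction S using Finset.induction_on with
  | empty =>
    intro b hb hb0
    refine ⟨1, ?_, b, ?_, hb0, pow_one _⟩
    · intro h
      exact hp.one_lt.ne' (Nat.dvd_one.mp h)
    · simpa using hb
  | insert q S hqS ih =>
    intro b hb hb0
    have hqm := Finset.mem_insert_self q S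
    have ih' := ih (fun p hp => hS p (Finset.mem_insert_of_mem hp))
      (fun p hp => haK p (Finset.mem_insert_of_mem hp))
      (fun p hp => hx0 p (Finset.mem_insert_of_mem hp))
      (fun h => hpS (Finset.mem_insert_of_mem h))
    set T := K ⊔ IntermediateField.adjoin ℚ (x '' (S : Set ℕ)) with hT
    have hle : K ⊔ IntermediateField.adjoin ℚ (x '' ((insert q S : Finset ℕ) : Set ℕ)) ≤
        T ⊔ IntermediateField.adjoin ℚ {x q} := by
      apply sup_le
      · exact le_sup_left.trans le_sup_left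
      · rw [IntermediateField.adjoin_le_iff]
        rintro y ⟨t, ht, rfl⟩
        rcases Finset.mem_insert.mp (Finset.mem_coe.mp ht) with rfl | ht'
        · exact (le_sup_right : IntermediateField.adjoin ℚ {x t} ≤ _)
            (IntermediateField.mem_adjoin_simple_self ℚ _)
        · apply (le_sup_left : T ≤ _)
          exact (le_sup_right : IntermediateField.adjoin ℚ (x '' (S : Set ℕ)) ≤ T)
            (IntermediateField.subset_adjoin ℚ _ ⟨t, Finset.mem_coe.mpr ht', rfl⟩)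
    have hpq : ¬ p ∣ q := fun h =>
      hpS (((Nat.prime_dvd_prime_iff_eq hp (hS q hqm)).mp h) ▸ hqm)
    obtain ⟨e, hpe, c, hc, hc0, hec⟩ := ram_step T q (hS q hqm).pos (x q) (hx0 q hqm)
      ((le_sup_left : K ≤ T) (haK q hqm)) p hp hpq V hV b (hle hb) hb0
    obtain ⟨e', hpe', c', hc', hc0', hec'⟩ := ih' c hc hc0
    refine ⟨e * e', ?_, c', hc', hc0', ?_⟩
    · intro h
      rcases hp.dvd_mul.mp h with h | h
      · exact hpe h
      · exact hpe' h
    · rw [pow_mul, hec, hec']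

/-- division groups of subgroups of division groups -/
lemma indiv_trans (Γ : Subgroup Qbˣ) (S : Set Qbˣ) (hS : ∀ g ∈ S, ∃ n : ℕ, 0 < n ∧ g ^ n ∈ Γ)
    (β : Qb) (h : InDiv (Subgroup.closure S) β) : InDiv Γ β := by
  let D : Subgroup Qbˣ :=
    { carrier := {g | ∃ n : ℕ, 0 < n ∧ g ^ n ∈ Γ}
      mul_mem' := by
        rintro g g' ⟨n, hn, hg⟩ ⟨m, hm, hg'⟩
        refine ⟨n * m, Nat.mul_pos hn hm, ?_⟩
        rw [mul_pow, pow_mul, mul_comm n m, pow_mul]
        exact mul_mem (pow_mem hg m) (pow_mem hg' n)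
      one_mem' := ⟨1, one_pos, by rw [one_pow]; exact one_mem Γ⟩
      inv_mem' := by
        rintro g ⟨n, hn, hg⟩
        exact ⟨n, hn, by rw [inv_pow]; exact inv_mem hg⟩ }
  have hle : Subgroup.closure S ≤ D := (Subgroup.closure_le D).mpr hS
  obtain ⟨N, hN, g, hg, hgN⟩ := h
  obtain ⟨n, hn, hgn⟩ := hle hg
  refine ⟨N * n, Nat.mul_pos hN hn, g ^ n, hgn, ?_⟩
  rw [pow_mul, hgN]
  push_cast
  rfl

end Pool.Agent.H58R
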