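import Mathlib
import Pool.Agent.H58R.Main2

set_option autoImplicit false

/-!
# Radicals of a rational `p`-adic unit `a` with `a ^ (p - 1)` not congruent to `1` modulo `p ^ 2`
-/

namespace Pool.Agent.H58R

open IntermediateField Polynomial Module
open Pool.Agent.H58P (Qb ht qb_isIntegral alg_isIntegral)
open Pool.Agent.H58B (ht_conj ht_pow)

section
variable (V : ValuationSubring Qb) (p : ℕ)

lemma val_nat_le (n : ℕ) : V.valuation (n : Qb) ≤ 1 := by
  rw [ValuationSubring.valuation_le_one_iff]; exact natCast_mem V n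

lemma val_S (x y : Qb) (hx : V.valuation x ≤ 1) (hy : V.valuation y ≤ 1) (n : ℕ) :
    V.valuation (∑ k ∈ Finset.Ioo 0 (p ^ n),
      x ^ (k - 1) * y ^ (p ^ n - k - 1) * (((p ^ n).choose k / p : ℕ) : Qb)) ≤ 1 := by
  apply Valuation.map_sum_le
  intro k _
  rw [map_mul, map_mul, map_pow, map_pow]
  exact mul_le_one' (mul_le_one' (pow_le_one' hx _) (pow_le_one' hy _)) (val_nat_le V _)

lemma frob (hp : p.Prime) (hV : V.valuation (p : Qb) < 1) (A : Qb) (hA : V.valuation A = 1)
    (hAp : V.valuation (A ^ (p - 1) - 1) = V.valuation (p : Qb)) (i : ℕ) :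
    V.valuation (A ^ p ^ (i + 1) - A) = V.valuation (p : Qb) := by
  have hp1 : p - 1 + 1 = p := Nat.succ_pred_eq_of_pos hp.pos
  have hbase : V.valuation (A ^ p - A) = V.valuation (p : Qb) := by
    have e : A ^ p - A = A * (A ^ (p - 1) - 1) := by
      rw [mul_sub, mul_one, ← pow_succ', hp1]
    rw [e, map_mul, hA, one_mul, hAp]
  have hp0 : V.valuation (p : Qb) ≠ 0 :=
    (Valuation.ne_zero_iff _).mpr (by exact_mod_cast hp.ne_zero)
  induction i with
  | zero => rw [zero_add, pow_one]; exact hbase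
  | succ i ih =>
    set C := A ^ p ^ (i + 1) with hC
    set d := C - A with hd
    have hCA : C = d + A := by rw [hd]; ring
    have e1 : A ^ p ^ (i + 1 + 1) = C ^ p := by rw [hC, ← pow_mul, ← pow_succ]
    have h1 := add_pow_prime_pow_eq hp d A 1
    rw [pow_one] at h1
    have e2 : A ^ p ^ (i + 1 + 1) - A = (d ^ p + (p : Qb) * d * A *
        ∑ k ∈ Finset.Ioo 0 (p ^ 1), d ^ (k - 1) * A ^ (p ^ 1 - k - 1) *
          (((p ^ 1).choose k / p : ℕ) : Qb)) + (A ^ p - A) := by
      rw [e1, hCA, h1, pow_one]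
      ring
    have hd1 : V.valuation d < 1 := by rw [ih]; exact hV
    have hlt : V.valuation (d ^ p + (p : Qb) * d * A *
        ∑ k ∈ Finset.Ioo 0 (p ^ 1), d ^ (k - 1) * A ^ (p ^ 1 - k - 1) *
          (((p ^ 1).choose k / p : ℕ) : Qb)) < V.valuation (p : Qb) := by
      apply Valuation.map_add_lt
      · rw [map_pow, ih]
        calc V.valuation (p : Qb) ^ p ≤ V.valuation (p : Qb) ^ 2 :=
              pow_le_pow_right_of_le_one' hV.le hp.two_le
          _ < V.valuation (p : Qb) := by
              rw [pow_two]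
              calc V.valuation (p : Qb) * V.valuation (p : Qb) < V.valuation (p : Qb) * 1 :=
                    mul_lt_mul_of_pos_left hV (zero_lt_iff.mpr hp0)
                _ = _ := mul_one _
      · rw [map_mul, map_mul, map_mul, hA, mul_one]
        calc V.valuation (p : Qb) * V.valuation d * _ ≤ V.valuation (p : Qb) * V.valuation d * 1 :=
              mul_le_mul' le_rfl (val_S V p d A hd1.le hA.le 1)
          _ = V.valuation (p : Qb) * V.valuation d := mul_one _
          _ < V.valuation (p : Qb) * 1 := mul_lt_mul_of_pos_left hd1 (zero_lt_iff.mpr hp0)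
          _ = _ := mul_one _
    rw [e2, Valuation.map_add_eq_of_lt_right _ (by rw [hbase]; exact hlt), hbase]

lemma shift_val (hp : p.Prime) (hV : V.valuation (p : Qb) < 1) (A : Qb)
    (hA : V.valuation A = 1)
    (hAp : V.valuation (A ^ (p - 1) - 1) = V.valuation (p : Qb)) (i : ℕ) (x : Qb)
    (hx : x ^ p ^ (i + 1) = A) :
    V.valuation (x - A) ^ p ^ (i + 1) = V.valuation (p : Qb) := by
  have hp0 : V.valuation (p : Qb) ≠ 0 :=
    (Valuation.ne_zero_iff _).mpr (by exact_mod_cast hp.ne_zero)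
  have hn0 : p ^ (i + 1) ≠ 0 := pow_ne_zero _ hp.ne_zero
  have hx1 : V.valuation x = 1 := by
    have h1 := congrArg V.valuation hx
    rw [map_pow, hA] at h1
    exact (pow_eq_one_iff_of_nonneg zero_le hn0).mp h1
  set y := x - A with hy
  have hxy : x = y + A := by rw [hy]; ring
  have hy1 : V.valuation y ≤ 1 := by
    rw [hy]
    exact (Valuation.map_sub _ _ _).trans (max_le hx1.le hA.le)
  have h1 := add_pow_prime_pow_eq hp y A (i + 1)
  rw [← hxy, hx] at h1
  set S := ∑ k ∈ Finset.Ioo 0 (p ^ (i + 1)), y ^ (k - 1) * A ^ (p ^ (i + 1) - k - 1) *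
    (((p ^ (i + 1)).choose k / p : ℕ) : Qb) with hS
  have hSle : V.valuation S ≤ 1 := val_S V p y A hy1 hA.le (i + 1)
  have e : y ^ p ^ (i + 1) = -(A ^ p ^ (i + 1) - A) - (p : Qb) * y * A * S := by
    linear_combination -h1
  have hf := frob V p hp hV A hA hAp i
  have hle : V.valuation ((p : Qb) * y * A * S) ≤ V.valuation (p : Qb) * V.valuation y := by
    rw [map_mul, map_mul, map_mul, hA, mul_one]
    calc V.valuation (p : Qb) * V.valuation y * V.valuation S
        ≤ V.valuation (p : Qb) * V.valuation y * 1 := mul_le_mul' le_rfl hSle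
      _ = _ := mul_one _
  have hlt1 : V.valuation y < 1 := by
    have h2 : V.valuation y ^ p ^ (i + 1) ≤ V.valuation (p : Qb) := by
      rw [← map_pow, e]
      refine (Valuation.map_sub _ _ _).trans (max_le ?_ ?_)
      · rw [Valuation.map_neg, hf]
      · refine hle.trans ?_
        calc V.valuation (p : Qb) * V.valuation y ≤ V.valuation (p : Qb) * 1 :=
              mul_le_mul' le_rfl hy1
          _ = _ := mul_one _
    rcases lt_or_eq_of_le hy1 with h | h
    · exact h
    · rw [h, one_pow] at h2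
      exact absurd hV (not_lt.mpr h2)
  have hlt : V.valuation ((p : Qb) * y * A * S) < V.valuation (-(A ^ p ^ (i + 1) - A)) := by
    rw [Valuation.map_neg, hf]
    refine hle.trans_lt ?_
    calc V.valuation (p : Qb) * V.valuation y < V.valuation (p : Qb) * 1 :=
          mul_lt_mul_of_pos_left hlt1 (zero_lt_iff.mpr hp0)
      _ = _ := mul_one _
  rw [← map_pow, e, Valuation.map_sub_eq_of_lt_left _ hlt, Valuation.map_neg, hf]

end

/-- the value of a sum with distinct values is one of the values -/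
lemma val_sum_eq {G : Type*} [LinearOrderedCommGroupWithZero G] (v : Valuation Qb G)
    {ι : Type*} (s : Finset ι) (hs : s.Nonempty) (T : ι → Qb)
    (hd : ∀ i ∈ s, ∀ j ∈ s, i ≠ j → v (T i) ≠ v (T j)) :
    ∃ m ∈ s, v (∑ j ∈ s, T j) = v (T m) := by
  obtain ⟨m, hm, hmax⟩ := s.exists_max_image (fun j => v (T j)) hs
  refine ⟨m, hm, le_antisymm ?_ (val_sum v s T hd m hm)⟩
  apply Valuation.map_sum_le
  intro j hj
  exact hmax j hj

/-- the value of a rational number -/
lemma val_bot (V : ValuationSubring Qb) (p : ℕ) (hp : p.Prime) (hV : V.valuation (p : Qb) < 1)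
    (c : Qb) (hc : c ∈ (⊥ : IntermediateField ℚ Qb)) (hc0 : c ≠ 0) :
    ∃ m : ℤ, V.valuation c = V.valuation (p : Qb) ^ m := by
  obtain ⟨b, rfl⟩ := IntermediateField.mem_bot.mp hc
  refine ⟨_, val_rat V p hp hV b ?_⟩
  rintro rfl
  rw [map_zero] at hc0
  exact hc0 rfl

/-- the values of `ℚ(x)`, where `x ^ p = a` -/
lemma val_first (V : ValuationSubring Qb) (p : ℕ) (hp : p.Prime)
    (hV : V.valuation (p : Qb) < 1) (A x : Qb) (hAbot : A ∈ (⊥ : IntermediateField ℚ Qb))
    (hx : x ^ p = A) (hy : V.valuation (x - A) ^ p = V.valuation (p : Qb)) (b : Qb)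
    (hb : b ∈ (⊥ : IntermediateField ℚ Qb) ⊔ IntermediateField.adjoin ℚ {x}) (hb0 : b ≠ 0) :
    ∃ m : ℤ, V.valuation b ^ p = V.valuation (p : Qb) ^ m := by
  classical
  have hp0 : V.valuation (p : Qb) ≠ 0 :=
    (Valuation.ne_zero_iff _).mpr (by exact_mod_cast hp.ne_zero)
  have hy0 : x - A ≠ 0 := by
    intro h
    rw [h, map_zero, zero_pow hp.ne_zero] at hy
    exact hp0 hy.symm
  obtain ⟨c, hc⟩ := gen_mem2 ⊥ p hp.pos x (by rw [hx]; exact hAbot) A hAbot b hb
  set y := x - A with hydef
  have hcond : ∀ b ∈ (⊥ : IntermediateField ℚ Qb), V.valuation (p : Qb) ≠ V.valuation b ^ p := by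
    intro b hb
    have h1 := cond_rat V p hp hV (p : ℚ) (by exact_mod_cast hp.ne_zero) (by
      rw [padicValRat.self hp.one_lt]
      intro h
      have h2 := Int.le_of_dvd one_pos h
      have h3 := hp.two_le
      omega) b hb
    simpa using h1
  have hort := ortho ⊥ p hp V y hy0 1 (p : Qb) (_root_.natCast_mem _ p) (by rw [pow_one]; exact hy) hcond
  rw [pow_one] at hort
  set S : Finset ℕ := (Finset.range p).filter (fun j => c j ≠ 0) with hS
  have hbS : b = ∑ j ∈ S, (c j : Qb) * y ^ j := by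
    rw [hc, hS, Finset.sum_filter_of_ne]
    intro j _ hj h0
    apply hj
    rw [h0]
    show (0 : Qb) * y ^ j = 0
    rw [zero_mul]
  have hSne : S.Nonempty := by
    rw [Finset.nonempty_iff_ne_empty]
    intro h
    rw [h, Finset.sum_empty] at hbS
    exact hb0 hbS
  obtain ⟨m, hm, hval⟩ := val_sum_eq V.valuation S hSne (fun j => (c j : Qb) * y ^ j) (by
    intro i hi j hj hij
    have hi' := Finset.mem_filter.mp hi
    have hj' := Finset.mem_filter.mp hj
    exact distinct ⊥ p y hy0 V hort _ _ hi'.2 i j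
      (Finset.mem_range.mp hi'.1) (Finset.mem_range.mp hj'.1) hij)
  rw [← hbS] at hval
  have hcm0 : (c m : Qb) ≠ 0 := by
    have := (Finset.mem_filter.mp hm).2
    exact_mod_cast this
  obtain ⟨l, hl⟩ := val_bot V p hp hV (c m : Qb) (c m).2 hcm0
  refine ⟨l * p + m, ?_⟩
  rw [hval, map_mul, mul_pow, hl, map_pow, ← pow_mul, mul_comm m p, pow_mul, hy,
    zpow_add₀ hp0, zpow_mul, zpow_natCast, zpow_natCast]

end Pool.Agent.H58R
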