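import Mathlib
import Pool.Agent.H58R.Wief

set_option autoImplicit false

/-!
# Assembly over `ℚ`
-/

namespace Pool.Agent.H58R

open IntermediateField Polynomial Module
open Pool.Agent.H58P (Qb ht qb_isIntegral alg_isIntegral)
open Pool.Agent.H58B (ht_conj ht_pow)

lemma bound_root (V : ValuationSubring Qb) (p : ℕ) (hp : p.Prime) (ξ : Qb) (hξ : ξ ^ p = 1) :
    V.valuation (1 - ξ) ^ ((p - 1) * p ^ 2) ≤ V.valuation (p : Qb) ^ p ^ 2 := by
  rw [pow_mul]
  exact pow_le_pow_left₀ zero_le (val_one_sub_pow_le' V.valuation p hp ξ hξ) _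

/-- the good chain in the ramified case -/
lemma good_ram (K : IntermediateField ℚ Qb) (p : ℕ) (hp : p.Prime) (x : ℕ → Qb)
    (hx0 : x 0 ∈ K) (hxne : ∀ k, x k ≠ 0) (hxs : ∀ k, x (k + 1) ^ p = x k)
    (hV : ∀ V : ValuationSubring Qb, V.valuation (p : Qb) < 1 →
      ∀ b ∈ K, V.valuation (x 0) ≠ V.valuation b ^ p) : GoodChain K p x := by
  refine ⟨hx0, hxne, hxs, fun V hVp => ⟨x 0, hx0, hV V hVp, fun i => ⟨0, zero_mem K, ?_, ?_⟩⟩⟩
  · have h1 := r_pow p x hxs 0 i
    rw [zero_add] at h1
    rw [sub_zero, ← map_pow, h1]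
  · intro _ ξ hξ
    rw [sub_zero, map_mul, mul_pow]
    refine mul_le_mul' ((bound_root V p hp ξ hξ).trans ?_) le_rfl
    exact pow_le_pow_right_of_le_one' hVp.le (exps p hp.two_le).2.1

/-- the good chain in the unit case -/
lemma good_unit (K : IntermediateField ℚ Qb) (p : ℕ) (hp : p.Prime) (x : ℕ → Qb) (A : Qb)
    (hAK : A ∈ K) (hx0 : x 0 ∈ K) (hxA : x 0 ^ p = A) (hxs : ∀ k, x (k + 1) ^ p = x k)
    (hA1 : ∀ V : ValuationSubring Qb, V.valuation (p : Qb) < 1 → V.valuation A = 1)
    (hAp : ∀ V : ValuationSubring Qb, V.valuation (p : Qb) < 1 →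
      V.valuation (A ^ (p - 1) - 1) = V.valuation (p : Qb))
    (hV : ∀ V : ValuationSubring Qb, V.valuation (p : Qb) < 1 →
      ∀ b ∈ K, V.valuation (x 0 - A) ≠ V.valuation b ^ p) : GoodChain K p x := by
  have hxn : ∀ k, x k ^ p ^ (k + 1) = A := by
    intro k
    have h1 := r_pow p x hxs 0 k
    rw [zero_add] at h1
    rw [pow_succ, pow_mul, h1, hxA]
  obtain ⟨V0, hV0⟩ := exists_over p hp
  have hA0 : A ≠ 0 := by
    rintro rfl
    have := hA1 V0 hV0
    rw [map_zero] at this
    exact zero_ne_one this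
  have hxne : ∀ k, x k ≠ 0 := by
    intro k h
    have h1 := hxn k
    rw [h, zero_pow (pow_ne_zero _ hp.ne_zero)] at h1
    exact hA0 h1.symm
  refine ⟨hx0, hxne, hxs, fun V hVp => ⟨x 0 - A, sub_mem hx0 hAK, hV V hVp,
    fun i => ⟨A, hAK, ?_, ?_⟩⟩⟩
  · have h1 := shift_val V p hp hVp A (hA1 V hVp) (hAp V hVp) i (x i) (hxn i)
    have h2 := shift_val V p hp hVp A (hA1 V hVp) (hAp V hVp) 0 (x 0) (hxn 0)
    rw [zero_add, pow_one] at h2
    rw [pow_succ, pow_mul, ← h2] at h1
    exact (pow_left_inj₀ zero_le zero_le hp.ne_zero).mp h1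
  · intro hi ξ hξ
    have hx1 : V.valuation (x i) = 1 := by
      have h1 := congrArg V.valuation (hxn i)
      rw [map_pow, hA1 V hVp] at h1
      exact (pow_eq_one_iff_of_nonneg zero_le (pow_ne_zero _ hp.ne_zero)).mp h1
    have h1 := shift_val V p hp hVp A (hA1 V hVp) (hAp V hVp) i (x i) (hxn i)
    have hp0 : V.valuation (p : Qb) ≠ 0 :=
      (Valuation.ne_zero_iff _).mpr (by exact_mod_cast hp.ne_zero)
    have hy1 : V.valuation (x i - A) ≤ 1 :=
      (Valuation.map_sub _ _ _).trans (max_le hx1.le (hA1 V hVp).le)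
    have h2 : V.valuation (p : Qb) ≤ V.valuation (x i - A) ^ p ^ 2 := by
      rw [← h1]
      apply pow_le_pow_right_of_le_one' hy1
      exact Nat.pow_le_pow_right hp.pos (by omega)
    have h3 : V.valuation (p : Qb) ^ (p - 1) ≤
        V.valuation (x i - A) ^ ((p - 1) * p ^ 2) := by
      rw [mul_comm (p - 1), pow_mul]
      exact pow_le_pow_left₀ zero_le h2 _
    rw [map_mul, hx1, mul_one]
    calc V.valuation (1 - ξ) ^ ((p - 1) * p ^ 2) ≤ V.valuation (p : Qb) ^ p ^ 2 :=
          bound_root V p hp ξ hξ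
      _ = V.valuation (p : Qb) ^ (p ^ 2 - p + 1) * V.valuation (p : Qb) ^ (p - 1) := by
          rw [← pow_add]
          congr 1
          obtain ⟨t, rfl⟩ : ∃ t, p = t + 2 := ⟨p - 2, by have := hp.two_le; omega⟩
          have h1 : (t + 2) ^ 2 - (t + 2) = t ^ 2 + 3 * t + 2 := by
            apply Nat.sub_eq_of_eq_add
            ring
          have h2 : t + 2 - 1 = t + 1 := by omega
          rw [h1, h2]
          ring
      _ ≤ _ := mul_le_mul' le_rfl h3

/-- the main theorem over `ℚ` -/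
theorem main_rat (P : Finset ℕ) (hP : ∀ p ∈ P, p.Prime) (s : ℕ → ℚ) (a : ℕ → Qbˣ)
    (has : ∀ p ∈ P, (a p : Qb) = algebraMap ℚ Qb (s p))
    (hs : ∀ p ∈ P, ¬ (p : ℤ) ∣ padicValRat p (s p) ∨
      (padicValRat p (s p) = 0 ∧ padicValRat p (s p ^ (p - 1) - 1) = 1))
    (r : ℕ → ℕ → Qb) (hr0 : ∀ p ∈ P, r p 0 = a p)
    (hr : ∀ p ∈ P, ∀ k, r p (k + 1) ^ p = r p k) :
    Small (tower ⊥ P r) (Subgroup.closure (a '' (P : Set ℕ))) := by
  classical
  set U : Finset ℕ := P.filter (fun p => (p : ℤ) ∣ padicValRat p (s p)) with hU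
  have hUP : ∀ p ∈ U, p ∈ P := fun p hp => (Finset.mem_filter.mp hp).1
  have hUs : ∀ p ∈ U, padicValRat p (s p) = 0 ∧ padicValRat p (s p ^ (p - 1) - 1) = 1 := by
    intro p hp
    have h1 := Finset.mem_filter.mp hp
    rcases hs p h1.1 with h | h
    · exact absurd h1.2 h
    · exact h
  have hsne : ∀ p ∈ P, s p ≠ 0 := by
    intro p hp h0
    have := has p hp
    rw [h0, map_zero] at this
    exact (a p).ne_zero this
  have hrn : ∀ p ∈ P, ∀ k, r p k ^ p ^ k = (a p : Qb) := by
    intro p hp k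
    have h1 := r_pow p (r p) (hr p hp) 0 k
    rw [zero_add] at h1
    rw [h1, hr0 p hp]
  have hrne : ∀ p ∈ P, ∀ k, r p k ≠ 0 := by
    intro p hp k h
    have h1 := hrn p hp k
    rw [h, zero_pow (pow_ne_zero _ (hP p hp).ne_zero)] at h1
    exact (a p).ne_zero h1.symm
  have hr1 : ∀ p ∈ P, r p 1 ^ p = (a p : Qb) := by
    intro p hp
    have := hrn p hp 1
    rwa [pow_one] at this
  have habot : ∀ p ∈ P, (a p : Qb) ∈ (⊥ : IntermediateField ℚ Qb) := by
    intro p hp
    rw [has p hp]
    exact IntermediateField.algebraMap_mem _ _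
  -- the base field
  set K' : IntermediateField ℚ Qb :=
    ⊥ ⊔ IntermediateField.adjoin ℚ ((fun p => r p 1) '' (U : Set ℕ)) with hK'
  have hfd : FiniteDimensional ℚ K' := by
    rw [hK', bot_sup_eq]
    have hfin : Finite ((fun p => r p 1) '' (U : Set ℕ)) :=
      Set.Finite.image _ (Finset.finite_toSet U)
    exact IntermediateField.finiteDimensional_adjoin (fun y _ => qb_isIntegral y)
  have hbotK' : (⊥ : IntermediateField ℚ Qb) ≤ K' := le_sup_left
  have hmemU : ∀ p ∈ U, r p 1 ∈ K' := by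
    intro p hp
    apply (le_sup_right : IntermediateField.adjoin ℚ ((fun p => r p 1) '' (U : Set ℕ)) ≤ K')
    exact IntermediateField.subset_adjoin ℚ _ ⟨p, Finset.mem_coe.mpr hp, rfl⟩
  set x' : ℕ → ℕ → Qb := fun p k => if p ∈ U then r p (k + 1) else r p k with hx'
  have hx'U : ∀ p ∈ U, ∀ k, x' p k = r p (k + 1) := fun p hp k => if_pos hp
  have hx'M : ∀ p, p ∉ U → ∀ k, x' p k = r p k := fun p hp k => if_neg hp
  have hx'ne : ∀ p ∈ P, ∀ k, x' p k ≠ 0 := by
    intro p hp k
    by_cases h : p ∈ U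
    · rw [hx'U p h]; exact hrne p hp _
    · rw [hx'M p h]; exact hrne p hp _
  set a' : ℕ → Qbˣ := fun p => if h : x' p 0 ≠ 0 then Units.mk0 (x' p 0) h else 1 with ha'
  have ha'v : ∀ p ∈ P, (a' p : Qb) = x' p 0 := by
    intro p hp
    rw [ha']
    simp only
    rw [dif_pos (hx'ne p hp 0)]
    rfl
  have hgood : ∀ p ∈ P, GoodChain K' p (x' p) := by
    intro p hpP
    have hp := hP p hpP
    by_cases hpU : p ∈ U
    · have hsp := hUs p hpU
      have hA1 : ∀ V : ValuationSubring Qb, V.valuation (p : Qb) < 1 →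
          V.valuation (a p : Qb) = 1 := by
        intro V hV
        rw [has p hpP, val_rat V p hp hV _ (hsne p hpP), hsp.1, zpow_zero]
      have hAp : ∀ V : ValuationSubring Qb, V.valuation (p : Qb) < 1 →
          V.valuation ((a p : Qb) ^ (p - 1) - 1) = V.valuation (p : Qb) := by
        intro V hV
        have e : (a p : Qb) ^ (p - 1) - 1 = algebraMap ℚ Qb (s p ^ (p - 1) - 1) := by
          rw [has p hpP, map_sub, map_pow, map_one]
        have hne : s p ^ (p - 1) - 1 ≠ 0 := by
          intro h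
          have := hsp.2
          rw [h, padicValRat.zero] at this
          exact zero_ne_one this
        rw [e, val_rat V p hp hV _ hne, hsp.2, zpow_one]
      apply good_unit K' p hp (x' p) (a p : Qb) (hbotK' (habot p hpP))
      · rw [hx'U p hpU]; exact hmemU p hpU
      · rw [hx'U p hpU]; exact hr1 p hpP
      · intro k
        rw [hx'U p hpU, hx'U p hpU]
        exact hr p hpP (k + 1)
      · exact hA1
      · exact hAp
      · intro V hV b hb heq
        rw [hx'U p hpU, zero_add] at heq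
        have hp0 : V.valuation (p : Qb) ≠ 0 :=
          (Valuation.ne_zero_iff _).mpr (by exact_mod_cast hp.ne_zero)
        have h2 := shift_val V p hp hV (a p : Qb) (hA1 V hV) (hAp V hV) 0 (r p 1)
          (by rw [zero_add, pow_one]; exact hr1 p hpP)
        rw [zero_add, pow_one] at h2
        have hb0 : b ≠ 0 := by
          rintro rfl
          rw [map_zero, zero_pow hp.ne_zero] at heq
          rw [heq, zero_pow hp.ne_zero] at h2
          exact hp0 h2.symm
        have hle : K' ≤ (⊥ ⊔ IntermediateField.adjoin ℚ {r p 1}) ⊔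
            IntermediateField.adjoin ℚ ((fun p => r p 1) '' ((U.erase p : Finset ℕ) : Set ℕ)) := by
          apply sup_le bot_le
          rw [IntermediateField.adjoin_le_iff]
          rintro y ⟨t, ht, rfl⟩
          by_cases htp : t = p
          · subst htp
            exact (le_sup_left : ⊥ ⊔ IntermediateField.adjoin ℚ {r t 1} ≤ _)
              ((le_sup_right : IntermediateField.adjoin ℚ {r t 1} ≤ _)
                (IntermediateField.mem_adjoin_simple_self ℚ _))
          · apply (le_sup_right : IntermediateField.adjoin ℚ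
              ((fun p => r p 1) '' ((U.erase p : Finset ℕ) : Set ℕ)) ≤ _)
            exact IntermediateField.subset_adjoin ℚ _
              ⟨t, by simpa using ⟨Finset.mem_coe.mp ht, htp⟩, rfl⟩
        obtain ⟨e, hpe, c, hc, hc0, hec⟩ := first_layers
          (⊥ ⊔ IntermediateField.adjoin ℚ {r p 1}) (fun _ => 0) (fun p => r p 1) (U.erase p)
          (fun q hq => hP q (hUP q (Finset.mem_of_mem_erase hq)))
          (fun q hq => by
            show r q 1 ^ q ∈ _
            rw [hr1 q (hUP q (Finset.mem_of_mem_erase hq))]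
            exact (le_sup_left : (⊥ : IntermediateField ℚ Qb) ≤ _)
              (habot q (hUP q (Finset.mem_of_mem_erase hq))))
          (fun q hq => hrne q (hUP q (Finset.mem_of_mem_erase hq)) 1)
          p hp (Finset.notMem_erase p U) V hV b (hle hb) hb0
        obtain ⟨m, hm⟩ := val_first V p hp hV (a p : Qb) (r p 1) (habot p hpP) (hr1 p hpP) h2 c
          hc hc0
        have h5 : V.valuation (p : Qb) ^ (e : ℤ) = V.valuation (p : Qb) ^ (m * p) := by
          rw [zpow_natCast, zpow_mul, zpow_natCast, ← hm, ← hec, ← h2, heq, ← pow_mul, ← pow_mul,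
            ← pow_mul, ← pow_mul]
          congr 1
          ring
        have h6 := zpow_right_injective₀ (zero_lt_iff.mpr hp0) hV.ne h5
        apply hpe
        have h7 : (p : ℤ) ∣ (e : ℤ) := ⟨m, by rw [h6]; ring⟩
        exact_mod_cast h7
    · have hpv : ¬ (p : ℤ) ∣ padicValRat p (s p) := fun h =>
        hpU (Finset.mem_filter.mpr ⟨hpP, h⟩)
      have hx0e : x' p 0 = (a p : Qb) := by rw [hx'M p hpU, hr0 p hpP]
      apply good_ram K' p hp (x' p)
      · rw [hx0e]
        exact hbotK' (habot p hpP)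
      · exact hx'ne p hpP
      · intro k
        rw [hx'M p hpU, hx'M p hpU]
        exact hr p hpP k
      · intro V hV
        rw [hx0e]
        apply cond_lift ⊥ K' p hp V _ (a p : Qb) (habot p hpP)
        · intro b hb
          rw [has p hpP]
          exact cond_rat V p hp hV (s p) (hsne p hpP) hpv b hb
        · exact first_layers ⊥ (fun _ => 0) (fun p => r p 1) U
            (fun q hq => hP q (hUP q hq))
            (fun q hq => by
              show r q 1 ^ q ∈ _
              rw [hr1 q (hUP q hq)]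
              exact habot q (hUP q hq))
            (fun q hq => hrne q (hUP q hq) 1) p hp hpU V hV
  have hmain := (main2 K' ⊥ (small_nf K' hfd) a' x' P hP
    (fun p hp => (ha'v p hp).symm) hgood).1
  obtain ⟨c, hc, hcβ⟩ := hmain
  have htow : tower ⊥ P r ≤ tower K' P x' := by
    apply sup_le bot_le
    rw [IntermediateField.adjoin_le_iff]
    rintro y ⟨p, hp, k, rfl⟩
    have hin : ∀ k, x' p k ∈ tower K' P x' := fun k =>
      (le_sup_right : IntermediateField.adjoin ℚ {y | ∃ p ∈ P, ∃ k, y = x' p k} ≤ _)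
        (IntermediateField.subset_adjoin ℚ _ ⟨p, hp, k, rfl⟩)
    by_cases hpU : p ∈ U
    · rcases k with _ | k
      · have h1 : r p 0 = x' p 0 ^ p := by
          rw [hx'U p hpU, zero_add, hr1 p hp, hr0 p hp]
        rw [h1]
        exact pow_mem (hin 0) p
      · rw [← hx'U p hpU k]
        exact hin k
    · rw [← hx'M p hpU k]
      exact hin k
  refine ⟨c, hc, fun β hβ hβ0 hnd => hcβ β (htow hβ) hβ0 ?_⟩
  intro hin
  apply hnd
  rw [bot_sup_eq] at hin
  refine indiv_trans _ _ ?_ β hin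
  rintro g ⟨p, hp, rfl⟩
  have hpP : p ∈ P := Finset.mem_coe.mp hp
  have hmem : a p ∈ Subgroup.closure (a '' (P : Set ℕ)) :=
    Subgroup.subset_closure ⟨p, hp, rfl⟩
  by_cases hpU : p ∈ U
  · refine ⟨p, (hP p hpP).pos, ?_⟩
    have e : a' p ^ p = a p := by
      apply Units.ext
      push_cast
      rw [ha'v p hpP, hx'U p hpU, zero_add, hr1 p hpP]
    rw [e]
    exact hmem
  · refine ⟨1, one_pos, ?_⟩
    have e : a' p ^ 1 = a p := by
      apply Units.ext
      rw [pow_one, ha'v p hpP, hx'M p hpU, hr0 p hpP]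
    rw [e]
    exact hmem

end Pool.Agent.H58R
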