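import Mathlib
import Pool.Agent.H58R.Asm

set_option autoImplicit false

/-!
# The closure of `ℚ` at a place above `p`
-/

namespace Pool.Agent.H58R

open IntermediateField Polynomial Module
open Pool.Agent.H58P (Qb ht qb_isIntegral alg_isIntegral)

section
variable (V : ValuationSubring Qb) (p : ℕ)

lemma hp0' (hp : p.Prime) : V.valuation (p : Qb) ≠ 0 :=
  (Valuation.ne_zero_iff _).mpr (by exact_mod_cast hp.ne_zero)

/-- archimedean property: values are bounded below by powers of the value of `p` -/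
lemma arch (hp : p.Prime) (hV : V.valuation (p : Qb) < 1) (z : Qb) (hz : z ≠ 0) :
    ∃ k : ℕ, V.valuation (p : Qb) ^ k ≤ V.valuation z := by
  have halg : IsAlgebraic ℤ z⁻¹ := by
    have h1 : IsAlgebraic ℚ z⁻¹ := (qb_isIntegral z⁻¹).isAlgebraic
    exact (IsFractionRing.isAlgebraic_iff ℤ ℚ Qb).mpr h1
  obtain ⟨n, hn0, hn⟩ := halg.exists_integral_multiple
  have h1 := val_le_one V _ hn
  rw [zsmul_eq_mul, map_mul, map_inv₀] at h1
  have hz0 : V.valuation z ≠ 0 := (Valuation.ne_zero_iff _).mpr hz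
  have h2 : V.valuation ((n : ℤ) : Qb) ≤ V.valuation z := by
    have := mul_le_mul' h1 (le_refl (V.valuation z))
    rwa [mul_assoc, inv_mul_cancel₀ hz0, mul_one, one_mul] at this
  have hnQ : (n : ℚ) ≠ 0 := by exact_mod_cast hn0
  have h3 := val_rat V p hp hV (n : ℚ) hnQ
  have h4 : algebraMap ℚ Qb (n : ℚ) = ((n : ℤ) : Qb) := by simp
  rw [h4] at h3
  refine ⟨(padicValRat p (n : ℚ)).toNat, ?_⟩
  refine le_trans ?_ h2
  rw [h3, ← zpow_natCast]
  have h5 : (0 : ℤ) ≤ padicValRat p (n : ℚ) := by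
    rw [padicValRat.of_int]
    exact Int.natCast_nonneg _
  rw [Int.toNat_of_nonneg h5]

/-- the bounded version -/
lemma arch2 (hp : p.Prime) (hV : V.valuation (p : Qb) < 1) (z : Qb) :
    ∃ k : ℕ, V.valuation z * V.valuation (p : Qb) ^ k ≤ 1 := by
  by_cases hz : z = 0
  · exact ⟨0, by rw [hz, map_zero, zero_mul]; exact zero_le⟩
  · obtain ⟨k, hk⟩ := arch V p hp hV z⁻¹ (inv_ne_zero hz)
    refine ⟨k, ?_⟩
    have hz0 : V.valuation z ≠ 0 := (Valuation.ne_zero_iff _).mpr hz
    calc V.valuation z * V.valuation (p : Qb) ^ k ≤ V.valuation z * V.valuation z⁻¹ :=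
          mul_le_mul' le_rfl hk
      _ = 1 := by rw [map_inv₀, mul_inv_cancel₀ hz0]

/-- the closure of `ℚ` -/
def clo (hp : p.Prime) (hV : V.valuation (p : Qb) < 1) : IntermediateField ℚ Qb where
  carrier := {z | ∀ M : ℕ, ∃ B ∈ (⊥ : IntermediateField ℚ Qb),
    V.valuation (z - B) ≤ V.valuation (p : Qb) ^ M}
  mul_mem' := by
    intro z z' hz hz' M
    obtain ⟨k, hk⟩ := arch2 V p hp hV z
    obtain ⟨B', hB', hzB'⟩ := hz' (M + k)
    obtain ⟨k', hk'⟩ := arch2 V p hp hV B'
    obtain ⟨B, hB, hzB⟩ := hz (M + k')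
    refine ⟨B * B', mul_mem hB hB', ?_⟩
    have e : z * z' - B * B' = z * (z' - B') + (z - B) * B' := by ring
    rw [e]
    refine (Valuation.map_add _ _ _).trans (max_le ?_ ?_)
    · rw [map_mul]
      calc V.valuation z * V.valuation (z' - B')
          ≤ V.valuation z * V.valuation (p : Qb) ^ (M + k) := mul_le_mul' le_rfl hzB'
        _ = (V.valuation z * V.valuation (p : Qb) ^ k) * V.valuation (p : Qb) ^ M := by
            rw [pow_add, mul_assoc, mul_comm (V.valuation (p : Qb) ^ k)]
        _ ≤ 1 * V.valuation (p : Qb) ^ M := mul_le_mul' hk le_rfl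
        _ = _ := one_mul _
    · rw [map_mul]
      calc V.valuation (z - B) * V.valuation B'
          ≤ V.valuation (p : Qb) ^ (M + k') * V.valuation B' := mul_le_mul' hzB le_rfl
        _ = V.valuation (p : Qb) ^ M * (V.valuation B' * V.valuation (p : Qb) ^ k') := by
            rw [pow_add, mul_assoc, mul_comm (V.valuation (p : Qb) ^ k')]
        _ ≤ V.valuation (p : Qb) ^ M * 1 := mul_le_mul' le_rfl hk'
        _ = _ := mul_one _
  add_mem' := by
    intro z z' hz hz' M
    obtain ⟨B, hB, hzB⟩ := hz M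
    obtain ⟨B', hB', hzB'⟩ := hz' M
    refine ⟨B + B', add_mem hB hB', ?_⟩
    have e : z + z' - (B + B') = (z - B) + (z' - B') := by ring
    rw [e]
    exact (Valuation.map_add _ _ _).trans (max_le hzB hzB')
  algebraMap_mem' := by
    intro r M
    refine ⟨algebraMap ℚ Qb r, IntermediateField.algebraMap_mem _ _, ?_⟩
    rw [sub_self, map_zero]
    exact zero_le
  inv_mem' := by
    intro z hz M
    by_cases hz0 : z = 0
    · refine ⟨0, zero_mem _, ?_⟩
      rw [hz0, inv_zero, sub_zero, map_zero]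
      exact zero_le
    · obtain ⟨k, hk⟩ := arch V p hp hV z hz0
      obtain ⟨B, hB, hzB⟩ := hz (M + k + k + 1)
      have hpk : V.valuation (p : Qb) ^ (M + k + k + 1) < V.valuation (p : Qb) ^ k := by
        apply pow_lt_pow_right_of_lt_one₀ (zero_lt_iff.mpr (hp0' V p hp)) hV
        omega
      have hlt : V.valuation (z - B) < V.valuation z := (hzB.trans_lt hpk).trans_le hk
      have hVB : V.valuation B = V.valuation z := by
        have e : B = z - (z - B) := by ring
        rw [e]
        exact Valuation.map_sub_eq_of_lt_left _ hlt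
      have hvz : V.valuation z ≠ 0 := (Valuation.ne_zero_iff _).mpr hz0
      have hB0 : B ≠ 0 := by
        rintro rfl
        rw [map_zero] at hVB
        exact hvz hVB.symm
      refine ⟨B⁻¹, inv_mem hB, ?_⟩
      have e : z⁻¹ - B⁻¹ = -((z - B) * (z⁻¹ * B⁻¹)) := by
        field_simp
        ring
      rw [e, Valuation.map_neg, map_mul, map_mul, map_inv₀, map_inv₀, hVB]
      have h1 : V.valuation (z - B) ≤ V.valuation (p : Qb) ^ M *
          (V.valuation z * V.valuation z) := by
        calc V.valuation (z - B) ≤ V.valuation (p : Qb) ^ (M + k + k + 1) := hzB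
          _ ≤ V.valuation (p : Qb) ^ (M + k + k) :=
              pow_le_pow_right_of_le_one' hV.le (by omega)
          _ = V.valuation (p : Qb) ^ M *
              (V.valuation (p : Qb) ^ k * V.valuation (p : Qb) ^ k) := by
              rw [pow_add, pow_add, mul_assoc]
          _ ≤ _ := mul_le_mul' le_rfl (mul_le_mul' hk hk)
      calc V.valuation (z - B) * ((V.valuation z)⁻¹ * (V.valuation z)⁻¹)
          ≤ (V.valuation (p : Qb) ^ M * (V.valuation z * V.valuation z)) *
            ((V.valuation z)⁻¹ * (V.valuation z)⁻¹) := mul_le_mul' h1 le_rfl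
        _ = V.valuation (p : Qb) ^ M := by
            field_simp

lemma mem_clo (hp : p.Prime) (hV : V.valuation (p : Qb) < 1) (z : Qb) :
    z ∈ clo V p hp hV ↔ ∀ M : ℕ, ∃ B ∈ (⊥ : IntermediateField ℚ Qb),
      V.valuation (z - B) ≤ V.valuation (p : Qb) ^ M := Iff.rfl

/-- the values of the closure -/
lemma val_clo (hp : p.Prime) (hV : V.valuation (p : Qb) < 1) (z : Qb)
    (hz : z ∈ clo V p hp hV) (hz0 : z ≠ 0) :
    ∃ m : ℤ, V.valuation z = V.valuation (p : Qb) ^ m := by
  obtain ⟨k, hk⟩ := arch V p hp hV z hz0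
  obtain ⟨B, hB, hzB⟩ := (mem_clo V p hp hV z).mp hz (k + 1)
  have hpk : V.valuation (p : Qb) ^ (k + 1) < V.valuation (p : Qb) ^ k := by
    apply pow_lt_pow_right_of_lt_one₀ (zero_lt_iff.mpr (hp0' V p hp)) hV
    omega
  have hlt : V.valuation (z - B) < V.valuation z := (hzB.trans_lt hpk).trans_le hk
  have hVB : V.valuation B = V.valuation z := by
    have e : B = z - (z - B) := by ring
    rw [e]
    exact Valuation.map_sub_eq_of_lt_left _ hlt
  have hvz : V.valuation z ≠ 0 := (Valuation.ne_zero_iff _).mpr hz0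
  have hB0 : B ≠ 0 := by
    rintro rfl
    rw [map_zero] at hVB
    exact hvz hVB.symm
  rw [← hVB]
  exact val_bot V p hp hV B hB hB0

end

end Pool.Agent.H58R
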