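import Mathlib
import Pool.Agent.H58R.Clo

set_option autoImplicit false

/-!
# Roots in the closure of `ℚ`
-/

namespace Pool.Agent.H58R

open IntermediateField Polynomial Module
open Pool.Agent.H58P (Qb ht qb_isIntegral alg_isIntegral)

section
variable (V : ValuationSubring Qb) (p : ℕ)

lemma pow_expand (hp : p.Prime) (B δ : Qb) (hB : V.valuation B ≤ 1) (hδ : V.valuation δ ≤ 1) :
    ∃ R : Qb, (B + δ) ^ p = B ^ p + p * B ^ (p - 1) * δ + R ∧
      V.valuation R ≤ max (V.valuation δ ^ p) (V.valuation (p : Qb) * V.valuation δ ^ 2) := by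
  have hp2 := hp.two_le
  have h1 := add_pow_prime_pow_eq hp δ B 1
  rw [pow_one] at h1
  have hI : Finset.Ioo 0 p = insert 1 (Finset.Ioo 1 p) := by
    ext k
    simp only [Finset.mem_Ioo, Finset.mem_insert]
    omega
  set T := ∑ k ∈ Finset.Ioo 1 p, δ ^ (k - 1) * B ^ (p - k - 1) * ((p.choose k / p : ℕ) : Qb)
    with hT
  have hsum : ∑ k ∈ Finset.Ioo 0 p, δ ^ (k - 1) * B ^ (p - k - 1) *
      ((p.choose k / p : ℕ) : Qb) = B ^ (p - 2) + T := by
    rw [hI, Finset.sum_insert (by simp), hT]
    congr 1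
    rw [Nat.choose_one_right, Nat.div_self hp.pos]
    simp only [Nat.sub_self, pow_zero, one_mul, Nat.cast_one, mul_one]
    congr 1
  have hVT : V.valuation T ≤ V.valuation δ := by
    apply Valuation.map_sum_le
    intro k hk
    have hk' := Finset.mem_Ioo.mp hk
    have e : δ ^ (k - 1) = δ * δ ^ (k - 2) := by
      rw [← pow_succ']; congr 1; omega
    rw [e, map_mul, map_mul, map_mul, map_pow, map_pow]
    calc V.valuation δ * V.valuation δ ^ (k - 2) * V.valuation B ^ (p - k - 1) *
          V.valuation ((p.choose k / p : ℕ) : Qb)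
        ≤ V.valuation δ * 1 * 1 * 1 :=
          mul_le_mul' (mul_le_mul' (mul_le_mul' le_rfl (pow_le_one' hδ _)) (pow_le_one' hB _))
            (val_nat_le V _)
      _ = _ := by rw [mul_one, mul_one, mul_one]
  refine ⟨δ ^ p + p * δ * B * T, ?_, ?_⟩
  · rw [add_comm B δ, h1, hsum]
    have e : B * B ^ (p - 2) = B ^ (p - 1) := by
      rw [← pow_succ']; congr 1; omega
    rw [← e]
    ring
  · refine (Valuation.map_add _ _ _).trans (max_le_max ?_ ?_)
    · rw [map_pow]
    · rw [map_mul, map_mul, map_mul]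
      calc V.valuation (p : Qb) * V.valuation δ * V.valuation B * V.valuation T
          ≤ V.valuation (p : Qb) * V.valuation δ * 1 * V.valuation δ :=
            mul_le_mul' (mul_le_mul' le_rfl hB) hVT
        _ = _ := by rw [mul_one, mul_assoc, pow_two]

lemma growth (hp : p.Prime) (hp3 : 3 ≤ p) (hV : V.valuation (p : Qb) < 1) (z : Qb)
    (hz : V.valuation z = 1) (hη : V.valuation (z ^ p - z) ≤ V.valuation (p : Qb)) :
    V.valuation ((z ^ p) ^ p - z ^ p) = V.valuation (p : Qb) * V.valuation (z ^ p - z) := by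
  set η := z ^ p - z with hηdef
  have hzη : z + η = z ^ p := by rw [hηdef]; ring
  have hη1 : V.valuation η < 1 := hη.trans_lt hV
  obtain ⟨R, hR, hVR⟩ := pow_expand V p hp z η hz.le hη1.le
  rw [hzη] at hR
  have e : (z ^ p) ^ p - z ^ p = p * z ^ (p - 1) * η + R := by rw [hR]; ring
  by_cases h0 : η = 0
  · have h1 : z ^ p = z := by rw [← hzη, h0, add_zero]
    rw [h0, map_zero, mul_zero, h1, h1, sub_self, map_zero]
  have hη0 : V.valuation η ≠ 0 := (Valuation.ne_zero_iff _).mpr h0
  have hp0 := hp0' V p hp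
  have hmain : V.valuation ((p : Qb) * z ^ (p - 1) * η) =
      V.valuation (p : Qb) * V.valuation η := by
    rw [map_mul, map_mul, map_pow, hz, one_pow, mul_one]
  rw [e, Valuation.map_add_eq_of_lt_left, hmain]
  rw [hmain]
  refine hVR.trans_lt (max_lt ?_ ?_)
  · have e1 : V.valuation η ^ p = V.valuation η ^ (p - 1) * V.valuation η := by
      rw [← pow_succ]; congr 1; omega
    rw [e1]
    apply mul_lt_mul_of_pos_right _ (zero_lt_iff.mpr hη0)
    calc V.valuation η ^ (p - 1) ≤ V.valuation (p : Qb) ^ (p - 1) :=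
          pow_le_pow_left₀ zero_le hη _
      _ < V.valuation (p : Qb) ^ 1 := by
          apply pow_lt_pow_right_of_lt_one₀ (zero_lt_iff.mpr hp0) hV
          omega
      _ = _ := pow_one _
  · apply mul_lt_mul_of_pos_left _ (zero_lt_iff.mpr hp0)
    calc V.valuation η ^ 2 < V.valuation η ^ 1 := by
          apply pow_lt_pow_right_of_lt_one₀ (zero_lt_iff.mpr hη0) hη1
          omega
      _ = _ := pow_one _

/-- `p`-th roots in the closure -/
lemma exists_root_clo (hp : p.Prime) (hp3 : 3 ≤ p) (hV : V.valuation (p : Qb) < 1) (g : Qb)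
    (hgC : g ∈ clo V p hp hV) (hg : V.valuation g = 1)
    (hg2 : V.valuation (g ^ p - g) ≤ V.valuation (p : Qb) ^ 2) :
    ∃ z ∈ clo V p hp hV, z ^ p = g ∧ V.valuation z = 1 ∧
      V.valuation (z ^ p - z) ≤ V.valuation (p : Qb) := by
  classical
  have hp0 := hp0' V p hp
  have hpos := zero_lt_iff.mpr hp0
  obtain ⟨z', hz'⟩ := IsAlgClosed.exists_pow_nat_eq g hp.pos
  obtain ⟨ζ, hζ⟩ := exists_prim p hp.pos
  set S := Polynomial.nthRootsFinset p (1 : Qb) with hS
  have hcard : S.card = p := hζ.card_nthRootsFinset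
  have hmemS : ∀ ξ : Qb, ξ ∈ S ↔ ξ ^ p = 1 := fun ξ => Polynomial.mem_nthRootsFinset hp.pos (1 : Qb)
  have hne : S.Nonempty := ⟨1, (hmemS 1).mpr (one_pow p)⟩
  obtain ⟨ξ0, hξ0, hmin⟩ := S.exists_min_image (fun ξ => V.valuation (z' - ξ * g)) hne
  have hprod : ∏ ξ ∈ S, V.valuation (z' - ξ * g) ≤ V.valuation (p : Qb) ^ 2 := by
    rw [← map_prod, ← hζ.pow_sub_pow_eq_prod_sub_mul z' g hp.pos, hz',
      Valuation.map_sub_swap]
    exact hg2
  have hdiff : ∀ ξ ∈ S, ξ ≠ ξ0 → V.valuation ((ξ0 - ξ) * g) ^ (p - 1) =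
      V.valuation (p : Qb) := by
    intro ξ hξ hne
    have h1 := (hmemS ξ).mp hξ
    have h2 := (hmemS ξ0).mp hξ0
    have hξ00 : ξ0 ≠ 0 := by
      rintro rfl
      rw [zero_pow hp.ne_zero] at h2
      exact zero_ne_one h2
    have e : (ξ0 - ξ) * g = ξ0 * (1 - ξ * ξ0⁻¹) * g := by
      field_simp
    rw [e, map_mul, map_mul, hg, mul_one, val_root V.valuation ξ0 p hp.pos h2, one_mul]
    apply val_one_sub_pow V.valuation p hp
    · rw [mul_pow, inv_pow, h1, h2, inv_one, mul_one]
    · intro h
      apply hne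
      field_simp at h
      exact h
  have hclose : V.valuation (z' - ξ0 * g) ≤ V.valuation (p : Qb) := by
    by_contra hcon
    rw [not_le] at hcon
    have hpow : (∏ ξ ∈ S, V.valuation (z' - ξ * g)) ^ (p - 1) ≤
        V.valuation (p : Qb) ^ (2 * (p - 1)) := by
      rw [pow_mul]
      exact pow_le_pow_left₀ zero_le hprod _
    rcases lt_or_ge (V.valuation (z' - ξ0 * g) ^ (p - 1)) (V.valuation (p : Qb)) with h | h
    · have hval : ∀ ξ ∈ S.erase ξ0, V.valuation (z' - ξ * g) ^ (p - 1) = V.valuation (p : Qb) := by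
        intro ξ hξ
        have hξ' := Finset.mem_erase.mp hξ
        have h1 := hdiff ξ hξ'.2 hξ'.1
        have e : z' - ξ * g = (z' - ξ0 * g) + (ξ0 - ξ) * g := by ring
        have h2 : V.valuation (z' - ξ0 * g) < V.valuation ((ξ0 - ξ) * g) := by
          apply lt_of_pow_lt_pow_left₀ (p - 1) zero_le
          rw [h1]
          exact h
        rw [e, Valuation.map_add_eq_of_lt_right _ h2, h1]
      rw [← Finset.mul_prod_erase S _ hξ0, mul_pow, ← Finset.prod_pow,
        Finset.prod_congr rfl hval, Finset.prod_const, Finset.card_erase_of_mem hξ0, hcard,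
        two_mul, pow_add] at hpow
      have h3 := (mul_le_mul_iff_left₀ (pow_pos hpos (p - 1))).mp hpow
      have h4 : V.valuation (z' - ξ0 * g) ≤ V.valuation (p : Qb) :=
        (pow_le_pow_iff_left₀ zero_le zero_le (by omega)).mp h3
      exact absurd hcon (not_lt.mpr h4)
    · have h1 : V.valuation (z' - ξ0 * g) ^ p ≤ ∏ ξ ∈ S, V.valuation (z' - ξ * g) := by
        conv_lhs => rw [← hcard, ← Finset.prod_const]
        apply Finset.prod_le_prod'
        intro ξ hξ
        exact hmin ξ hξ
      have h2 : V.valuation (p : Qb) ^ p ≤ V.valuation (p : Qb) ^ (2 * (p - 1)) := by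
        calc V.valuation (p : Qb) ^ p ≤ (V.valuation (z' - ξ0 * g) ^ (p - 1)) ^ p :=
              pow_le_pow_left₀ zero_le h _
          _ = (V.valuation (z' - ξ0 * g) ^ p) ^ (p - 1) := by
              rw [← pow_mul, ← pow_mul, mul_comm (p - 1) p]
          _ ≤ (∏ ξ ∈ S, V.valuation (z' - ξ * g)) ^ (p - 1) :=
              pow_le_pow_left₀ zero_le h1 _
          _ ≤ _ := hpow
      have h3 : V.valuation (p : Qb) ^ (2 * (p - 1)) < V.valuation (p : Qb) ^ p := by
        apply pow_lt_pow_right_of_lt_one₀ hpos hV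
        omega
      exact absurd h2 (not_le.mpr h3)
  have hξ0p := (hmemS ξ0).mp hξ0
  have hξ00 : ξ0 ≠ 0 := by
    rintro rfl
    rw [zero_pow hp.ne_zero] at hξ0p
    exact zero_ne_one hξ0p
  set z : Qb := ξ0⁻¹ * z' with hz
  have hzp : z ^ p = g := by
    rw [hz, mul_pow, inv_pow, hξ0p, inv_one, one_mul, hz']
  have hzg : V.valuation (z - g) ≤ V.valuation (p : Qb) := by
    have e : z - g = ξ0⁻¹ * (z' - ξ0 * g) := by
      rw [hz]; field_simp
    rw [e, map_mul, map_inv₀, val_root V.valuation ξ0 p hp.pos hξ0p, inv_one, one_mul]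
    exact hclose
  have hz1 : V.valuation z = 1 := by
    have h1 := congrArg V.valuation hzp
    rw [map_pow, hg] at h1
    exact (pow_eq_one_iff_of_nonneg zero_le hp.ne_zero).mp h1
  refine ⟨z, ?_, hzp, hz1, ?_⟩
  · rw [mem_clo]
    have key : ∀ M : ℕ, 1 ≤ M → ∃ B ∈ (⊥ : IntermediateField ℚ Qb),
        V.valuation (z - B) ≤ V.valuation (p : Qb) ^ M := by
      intro M hM
      induction M, hM using Nat.le_induction with
      | base =>
        obtain ⟨B, hB, hgB⟩ := (mem_clo V p hp hV g).mp hgC 1
        refine ⟨B, hB, ?_⟩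
        have e : z - B = (z - g) + (g - B) := by ring
        rw [e]
        refine (Valuation.map_add _ _ _).trans (max_le ?_ hgB)
        rw [pow_one]
        exact hzg
      | succ M hM ih =>
        obtain ⟨B, hB, hzB⟩ := ih
        obtain ⟨G, hG, hgG⟩ := (mem_clo V p hp hV g).mp hgC (M + 2)
        set δ := z - B with hδ
        have hδlt : V.valuation δ < 1 := by
          refine hzB.trans_lt ?_
          exact pow_lt_one₀ zero_le hV (by omega)
        have hB1 : V.valuation B = 1 := by
          have e : B = z - δ := by rw [hδ]; ring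
          rw [e, Valuation.map_sub_eq_of_lt_left _ (by rw [hz1]; exact hδlt), hz1]
        have hB0 : B ≠ 0 := by
          rintro rfl
          rw [map_zero] at hB1
          exact zero_ne_one hB1
        obtain ⟨R, hR, hVR⟩ := pow_expand V p hp B δ hB1.le hδlt.le
        have hzBδ : B + δ = z := by rw [hδ]; ring
        rw [hzBδ, hzp] at hR
        have hpQ : (p : Qb) ≠ 0 := by exact_mod_cast hp.ne_zero
        have hden : (p : Qb) * B ^ (p - 1) ≠ 0 := mul_ne_zero hpQ (pow_ne_zero _ hB0)
        refine ⟨B + (G - B ^ p) / (p * B ^ (p - 1)), ?_, ?_⟩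
        · apply add_mem hB
          apply div_mem (sub_mem hG (pow_mem hB p))
          exact mul_mem (_root_.natCast_mem _ p) (pow_mem hB _)
        · have e : z - (B + (G - B ^ p) / (p * B ^ (p - 1))) =
              ((g - G) - R) / (p * B ^ (p - 1)) := by
            have e1 : z - (B + (G - B ^ p) / (p * B ^ (p - 1))) =
                δ - (G - B ^ p) / (p * B ^ (p - 1)) := by rw [hδ]; ring
            rw [e1, eq_div_iff hden, sub_mul, div_mul_cancel₀ _ hden, hR]
            ring
          rw [e, map_div₀, map_mul, map_pow, hB1, one_pow, mul_one]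
          rw [div_le_iff₀ hpos]
          have hRle : V.valuation R ≤ V.valuation (p : Qb) ^ (M + 2) := by
            refine hVR.trans (max_le ?_ ?_)
            · calc V.valuation δ ^ p ≤ (V.valuation (p : Qb) ^ M) ^ p :=
                    pow_le_pow_left₀ zero_le hzB _
                _ = V.valuation (p : Qb) ^ (M * p) := by rw [← pow_mul]
                _ ≤ V.valuation (p : Qb) ^ (M + 2) := by
                    apply pow_le_pow_right_of_le_one' hV.le
                    nlinarith
            · calc V.valuation (p : Qb) * V.valuation δ ^ 2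
                  ≤ V.valuation (p : Qb) * (V.valuation (p : Qb) ^ M) ^ 2 :=
                    mul_le_mul' le_rfl (pow_le_pow_left₀ zero_le hzB _)
                _ = V.valuation (p : Qb) ^ (M * 2 + 1) := by
                    rw [← pow_mul, ← pow_succ']
                _ ≤ V.valuation (p : Qb) ^ (M + 2) :=
                    pow_le_pow_right_of_le_one' hV.le (by omega)
          calc V.valuation (g - G - R) ≤ V.valuation (p : Qb) ^ (M + 2) :=
                (Valuation.map_sub _ _ _).trans (max_le hgG hRle)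
            _ = V.valuation (p : Qb) ^ (M + 1) * V.valuation (p : Qb) := by rw [← pow_succ]
    intro M
    rcases Nat.eq_zero_or_pos M with rfl | hM
    · obtain ⟨B, hB, hzB⟩ := key 1 le_rfl
      refine ⟨B, hB, hzB.trans ?_⟩
      rw [pow_zero, pow_one]
      exact hV.le
    · exact key M hM
  · rw [hzp, Valuation.map_sub_swap]
    exact hzg

end

end Pool.Agent.H58R
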