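import Mathlib
import Pool.Agent.H58R.Root

set_option autoImplicit false

/-!
# Radicals of an arbitrary rational `p`-adic unit, `p` odd
-/

namespace Pool.Agent.H58R

open IntermediateField Polynomial Module
open Pool.Agent.H58P (Qb ht qb_isIntegral alg_isIntegral)

section
variable (V : ValuationSubring Qb) (p : ℕ)

/-- the deepest root in the closure -/
lemma exists_deep (hp : p.Prime) (hp3 : 3 ≤ p) (hV : V.valuation (p : Qb) < 1) (M : ℕ) :
    ∀ g ∈ clo V p hp hV, V.valuation g = 1 →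
      V.valuation (g ^ p - g) = V.valuation (p : Qb) ^ (M + 1) →
      ∃ A ∈ clo V p hp hV, A ^ p ^ M = g ∧ V.valuation A = 1 ∧
        V.valuation (A ^ p - A) = V.valuation (p : Qb) := by
  induction M with
  | zero =>
    intro g hgC hg h
    refine ⟨g, hgC, by rw [pow_zero, pow_one], hg, by rw [h, zero_add, pow_one]⟩
  | succ M ih =>
    intro g hgC hg h
    have h1 : V.valuation (g ^ p - g) ≤ V.valuation (p : Qb) ^ 2 := by
      rw [h]
      exact pow_le_pow_right_of_le_one' hV.le (by omega)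
    obtain ⟨z, hzC, hzg, hz1, hz2⟩ := exists_root_clo V p hp hp3 hV g hgC hg h1
    have h2 := growth V p hp hp3 hV z hz1 hz2
    rw [hzg, h, pow_succ'] at h2
    have h3 := mul_left_cancel₀ (hp0' V p hp) h2
    obtain ⟨A, hAC, hAz, hA1, hA2⟩ := ih z hzC hz1 (by rw [hzg]; exact h3.symm)
    refine ⟨A, hAC, ?_, hA1, hA2⟩
    rw [pow_succ, pow_mul, hAz, hzg]

/-- the value of `1 - ζ` for a primitive root of unity of prime power order -/
lemma zeta_val (hp : p.Prime) (hp3 : 3 ≤ p) (m : ℕ) (ζ : Qb)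
    (hζ : ζ ^ p ^ m = 1) (hζ1 : ζ ≠ 1) :
    ∃ f : ℕ, 1 < f ∧ V.valuation (1 - ζ) ^ f = V.valuation (p : Qb) ∧
      ∃ F : ℚ[X], F.Monic ∧ F.natDegree = f ∧ aeval ζ F = 0 := by
  classical
  have hp' : Fact p.Prime := ⟨hp⟩
  obtain ⟨j, hj, hord⟩ := (Nat.dvd_prime_pow hp).mp (orderOf_dvd_of_pow_eq_one hζ)
  have hj0 : j ≠ 0 := by
    rintro rfl
    rw [pow_zero, orderOf_eq_one_iff] at hord
    exact hζ1 hord
  obtain ⟨t, rfl⟩ := Nat.exists_eq_succ_of_ne_zero hj0
  have hprim : IsPrimitiveRoot ζ (p ^ (t + 1)) := by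
    rw [← hord]
    exact IsPrimitiveRoot.orderOf ζ
  set n := p ^ (t + 1) with hn
  have hn0 : 0 < n := pow_pos hp.pos _
  have htot : n.totient = p ^ t * (p - 1) := by
    rw [hn, Nat.totient_prime_pow_succ hp]
  refine ⟨n.totient, ?_, ?_, cyclotomic n ℚ, cyclotomic.monic n ℚ, natDegree_cyclotomic n ℚ, ?_⟩
  · rw [htot]
    have h1 : 1 ≤ p ^ t := Nat.one_le_pow _ _ hp.pos
    have h2 : 2 ≤ p - 1 := by omega
    calc 1 < 1 * 2 := by norm_num
      _ ≤ p ^ t * (p - 1) := Nat.mul_le_mul h1 h2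
  · have h1 : eval 1 (cyclotomic n Qb) = (p : Qb) := by
      rw [hn]
      exact eval_one_cyclotomic_prime_pow t
    rw [cyclotomic_eq_prod_X_sub_primitiveRoots hprim, eval_prod] at h1
    simp only [eval_sub, eval_X, eval_C] at h1
    rw [← h1, map_prod, Finset.prod_congr rfl (g := fun _ => V.valuation (1 - ζ))]
    · rw [Finset.prod_const, hprim.card_primitiveRoots]
    · intro μ hμ
      have hμ' : IsPrimitiveRoot μ n := (mem_primitiveRoots hn0).mp hμ
      have key : ∀ ξ η : Qb, IsPrimitiveRoot ξ n → IsPrimitiveRoot η n →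
          V.valuation (1 - η) ≤ V.valuation (1 - ξ) := by
        intro ξ η hξ hη
        have hne : NeZero n := ⟨hn0.ne'⟩
        obtain ⟨i, -, hi⟩ := hξ.eq_pow_of_pow_eq_one hη.pow_eq_one
        rw [← hi]
        exact val_one_sub_pow_le V.valuation ξ (val_root V.valuation ξ n hn0 hξ.pow_eq_one) i
      exact le_antisymm (key ζ μ hprim hμ') (key μ ζ hμ' hprim)
  · have h1 : IsRoot (cyclotomic n Qb) ζ := hprim.isRoot_cyclotomic hn0
    rw [← map_cyclotomic n (algebraMap ℚ Qb), IsRoot.def, eval_map_algebraMap] at h1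
    exact h1

lemma pow_sub_of (a : Qb) (ha1 : V.valuation a = 1) (hp : p.Prime) :
    V.valuation (a ^ (p - 1) - 1) = V.valuation (a ^ p - a) := by
  have e : a ^ p - a = a * (a ^ (p - 1) - 1) := by
    rw [mul_sub, mul_one, ← pow_succ', Nat.sub_add_cancel hp.one_le]
  rw [e, map_mul, ha1, one_mul]

/-- the local structure of the first layers -/
lemma deep_unit (hp : p.Prime) (hp3 : 3 ≤ p) (hV : V.valuation (p : Qb) < 1) (a u : Qb)
    (ha : a ∈ (⊥ : IntermediateField ℚ Qb)) (ha1 : V.valuation a = 1) (m : ℕ) (hm : 1 ≤ m)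
    (hap : V.valuation (a ^ p - a) = V.valuation (p : Qb) ^ (m + 1)) (hu : u ^ p ^ m = a) :
    ∃ f : ℕ, 0 < f ∧ V.valuation (u - a) ^ f = V.valuation (p : Qb) ∧
      ∀ w : Qb, w ^ p = u → ∀ b ∈ (⊥ : IntermediateField ℚ Qb) ⊔ IntermediateField.adjoin ℚ {w},
        V.valuation b ^ (p ^ 2 * f) ≠ V.valuation (p : Qb) := by
  classical
  have hp0 := hp0' V p hp
  have hpos := zero_lt_iff.mpr hp0
  set C := clo V p hp hV with hC
  have hbotC : (⊥ : IntermediateField ℚ Qb) ≤ C := bot_le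
  obtain ⟨A, hAC, hAa, hA1, hA2⟩ := exists_deep V p hp hp3 hV m a (hbotC ha) ha1 hap
  have hA0 : A ≠ 0 := by
    rintro rfl
    rw [map_zero] at hA1
    exact zero_ne_one hA1
  have hAa' : V.valuation (a - A) = V.valuation (p : Qb) := by
    have h1 := frob V p hp hV A hA1 (by rw [pow_sub_of V p A hA1 hp, hA2]) (m - 1)
    rw [Nat.sub_add_cancel hm, hAa] at h1
    exact h1
  set ζ := u / A with hζ
  have huζ : u = ζ * A := by rw [hζ, div_mul_cancel₀ _ hA0]
  have hζm : ζ ^ p ^ m = 1 := by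
    rw [hζ, div_pow, hu, hAa, div_self]
    rintro rfl
    rw [map_zero] at ha1
    exact zero_ne_one ha1
  have hF : ∃ f : ℕ, 0 < f ∧ V.valuation (u - a) ^ f = V.valuation (p : Qb) ∧
      ∃ F : ℚ[X], F.Monic ∧ F.natDegree = f ∧ aeval ζ F = 0 := by
    by_cases hζ1 : ζ = 1
    · refine ⟨1, one_pos, ?_, X - Polynomial.C 1, monic_X_sub_C 1, natDegree_X_sub_C 1, ?_⟩
      · rw [pow_one, huζ, hζ1, one_mul, Valuation.map_sub_swap, hAa']
      · rw [hζ1]
        simp
    · obtain ⟨f, hf1, hf, F, hF1, hF2, hF3⟩ := zeta_val V p hp hp3 m ζ hζm hζ1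
      refine ⟨f, by omega, ?_, F, hF1, hF2, hF3⟩
      have e : u - a = -((1 - ζ) * A) + -(a - A) := by rw [huζ]; ring
      have h1 : V.valuation (-(a - A)) < V.valuation (-((1 - ζ) * A)) := by
        rw [Valuation.map_neg, Valuation.map_neg, map_mul, hA1, mul_one, hAa']
        by_contra hcon
        rw [not_lt] at hcon
        have h2 : V.valuation (p : Qb) ≤ V.valuation (p : Qb) ^ f := by
          calc V.valuation (p : Qb) = V.valuation (1 - ζ) ^ f := hf.symm
            _ ≤ _ := pow_le_pow_left₀ zero_le hcon _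
        have h3 : V.valuation (p : Qb) ^ f < V.valuation (p : Qb) ^ 1 :=
          pow_lt_pow_right_of_lt_one₀ hpos hV hf1
        rw [pow_one] at h3
        exact absurd h2 (not_le.mpr h3)
      rw [e, Valuation.map_add_eq_of_lt_left _ h1, Valuation.map_neg, map_mul, hA1, mul_one, hf]
  obtain ⟨f, hf0, hf, F, hF1, hF2, hF3⟩ := hF
  refine ⟨f, hf0, hf, ?_⟩
  intro w hw b hb heq
  have hn0 : 0 < p ^ 2 * f := Nat.mul_pos (pow_pos hp.pos 2) hf0
  have hb0 : b ≠ 0 := by
    rintro rfl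
    rw [map_zero, zero_pow hn0.ne'] at heq
    exact hp0 heq.symm
  have h1 := deg_ge C (p ^ 2 * f) b hb0 V (by
    intro j hj hjn c hc hjc
    have hc0 : c ≠ 0 := by
      rintro rfl
      rw [map_zero, Valuation.zero_iff] at hjc
      exact pow_ne_zero j hb0 hjc
    obtain ⟨k, hk⟩ := val_clo V p hp hV c hc hc0
    have h2 : V.valuation (p : Qb) ^ (j : ℤ) =
        V.valuation (p : Qb) ^ (k * ((p ^ 2 * f : ℕ) : ℤ)) := by
      rw [zpow_natCast, zpow_mul, zpow_natCast, ← hk, ← hjc, map_pow, ← pow_mul, ← heq, ← pow_mul,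
        mul_comm j]
    have h3 := zpow_right_injective₀ hpos hV.ne h2
    have h4 : (p ^ 2 * f) ∣ j := by
      have : ((p ^ 2 * f : ℕ) : ℤ) ∣ (j : ℤ) := ⟨k, by rw [h3, mul_comm]⟩
      exact_mod_cast this
    have h5 := Nat.le_of_dvd hj h4
    omega)
  -- the degree is at most `p * f`
  have hb1 : b ∈ C ⊔ IntermediateField.adjoin ℚ {w} := by
    have hle : (⊥ : IntermediateField ℚ Qb) ⊔ IntermediateField.adjoin ℚ {w} ≤
        C ⊔ IntermediateField.adjoin ℚ {w} := sup_le_sup_right bot_le _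
    exact hle hb
  rw [← Pool.Agent.H58B.mem_adjoin_iff] at hb1
  have hwint : IsIntegral C w := alg_isIntegral C w
  have hfd : FiniteDimensional C (IntermediateField.adjoin C {w}) :=
    IntermediateField.adjoin.finiteDimensional hwint
  have h2 : (minpoly C b).natDegree ≤ finrank C (IntermediateField.adjoin C {w}) := by
    have hb' : b ∈ IntermediateField.adjoin C {w} := hb1
    have e : minpoly C b = minpoly C (⟨b, hb'⟩ : IntermediateField.adjoin C {w}) := by
      rw [← minpoly.algebraMap_eq (algebraMap (IntermediateField.adjoin C {w}) Qb).injective]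
      rfl
    rw [e]
    exact minpoly.natDegree_le _
  rw [IntermediateField.adjoin.finrank hwint] at h2
  have h3 : (minpoly C w).natDegree ≤ f * p := by
    have hAne : (⟨A, hAC⟩ : C)⁻¹ ≠ 0 := by
      apply inv_ne_zero
      intro h
      exact hA0 (congrArg Subtype.val h)
    set G : C[X] := (F.map (algebraMap ℚ C)).comp (Polynomial.C ((⟨A, hAC⟩ : C)⁻¹) * X ^ p) with hG
    have hdG : G.natDegree = f * p := by
      rw [hG, natDegree_comp, natDegree_map, hF2, natDegree_C_mul_X_pow _ _ hAne]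
    have hG0 : G ≠ 0 := by
      intro h
      rw [h, natDegree_zero] at hdG
      have := Nat.mul_pos hf0 hp.pos
      omega
    have hGw : aeval w G = 0 := by
      rw [hG, aeval_comp]
      have e1 : aeval w (Polynomial.C ((⟨A, hAC⟩ : C)⁻¹) * X ^ p) = ζ := by
        rw [map_mul, aeval_C, map_pow, aeval_X, hw, map_inv₀, hζ, div_eq_inv_mul]
        rfl
      rw [e1, aeval_map_algebraMap]
      exact hF3
    have h4 := natDegree_le_of_dvd (minpoly.dvd C w hGw) hG0
    rw [hdG] at h4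
    exact h4
  have h4 : p ^ 2 * f ≤ f * p := h1.trans (h2.trans h3)
  have h5 : f * p < p ^ 2 * f := by
    have : f * p * 1 < f * p * p := Nat.mul_lt_mul_of_pos_left hp.one_lt (Nat.mul_pos hf0 hp.pos)
    nlinarith
  omega

end

end Pool.Agent.H58R
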