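import Mathlib
import Pool.Agent.H58R.Deep

set_option autoImplicit false

/-!
# The local structure of the chain of a unit
-/

namespace Pool.Agent.H58R

open IntermediateField Polynomial Module
open Pool.Agent.H58P (Qb ht qb_isIntegral alg_isIntegral)

section
variable (V : ValuationSubring Qb) (p : ℕ)

lemma frob_le (hp : p.Prime) (a : Qb) (ha1 : V.valuation a = 1) (i : ℕ) :
    V.valuation (a ^ p ^ i - a) ≤ V.valuation (a ^ p - a) := by
  obtain ⟨k, hk⟩ : ∃ k, p ^ i - 1 = (p - 1) * k := by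
    have := Nat.sub_dvd_pow_sub_pow p 1 i
    rw [one_pow] at this
    exact this
  have e : a ^ p ^ i - a = a * ((a ^ (p - 1)) ^ k - 1) := by
    rw [← pow_mul, ← hk, mul_sub, mul_one, ← pow_succ',
      Nat.sub_add_cancel (Nat.one_le_pow _ _ hp.pos)]
  rw [e, map_mul, ha1, one_mul, ← pow_sub_of V p a ha1 hp, Valuation.map_sub_swap,
    Valuation.map_sub_swap _ (a ^ (p - 1))]
  exact val_one_sub_pow_le V.valuation (a ^ (p - 1)) (by rw [map_pow, ha1, one_pow]) k

lemma shift_val2 (hp : p.Prime) (hV : V.valuation (p : Qb) < 1) (a u : Qb)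
    (ha1 : V.valuation a = 1) (hap : V.valuation (a ^ p - a) ≤ V.valuation (p : Qb) ^ 2)
    (hu : V.valuation (p : Qb) ≤ V.valuation (u - a)) (hu1 : V.valuation (u - a) < 1) (i : ℕ)
    (x : Qb) (hx : x ^ p ^ i = u) : V.valuation (x - a) ^ p ^ i = V.valuation (u - a) := by
  have hp0 := hp0' V p hp
  have hpos := zero_lt_iff.mpr hp0
  have hn0 : p ^ i ≠ 0 := pow_ne_zero _ hp.ne_zero
  have hVu : V.valuation u = 1 := by
    have e : u = (u - a) + a := by ring
    rw [e, Valuation.map_add_eq_of_lt_right _ (by rw [ha1]; exact hu1), ha1]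
  have hx1 : V.valuation x = 1 := by
    have h1 := congrArg V.valuation hx
    rw [map_pow, hVu] at h1
    exact (pow_eq_one_iff_of_nonneg zero_le hn0).mp h1
  set y := x - a with hy
  have hxy : x = y + a := by rw [hy]; ring
  have hy1 : V.valuation y ≤ 1 := by
    rw [hy]
    exact (Valuation.map_sub _ _ _).trans (max_le hx1.le ha1.le)
  have h1 := add_pow_prime_pow_eq hp y a i
  rw [← hxy, hx] at h1
  set S := ∑ k ∈ Finset.Ioo 0 (p ^ i), y ^ (k - 1) * a ^ (p ^ i - k - 1) *
    (((p ^ i).choose k / p : ℕ) : Qb) with hS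
  have hSle : V.valuation S ≤ 1 := val_S V p y a hy1 ha1.le i
  have e : y ^ p ^ i = (u - a) + -((a ^ p ^ i - a) + (p : Qb) * y * a * S) := by
    linear_combination -h1
  have hf : V.valuation (a ^ p ^ i - a) ≤ V.valuation (p : Qb) ^ 2 :=
    (frob_le V p hp a ha1 i).trans hap
  have hp2 : V.valuation (p : Qb) ^ 2 < V.valuation (p : Qb) := by
    calc V.valuation (p : Qb) ^ 2 < V.valuation (p : Qb) ^ 1 :=
          pow_lt_pow_right_of_lt_one₀ hpos hV (by norm_num)
      _ = _ := pow_one _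
  have hle : V.valuation ((p : Qb) * y * a * S) ≤ V.valuation (p : Qb) * V.valuation y := by
    rw [map_mul, map_mul, map_mul, ha1, mul_one]
    calc V.valuation (p : Qb) * V.valuation y * V.valuation S
        ≤ V.valuation (p : Qb) * V.valuation y * 1 := mul_le_mul' le_rfl hSle
      _ = _ := mul_one _
  have hlt1 : V.valuation y < 1 := by
    have h2 : V.valuation y ^ p ^ i < 1 := by
      rw [← map_pow, e]
      refine (Valuation.map_add _ _ _).trans_lt (max_lt hu1 ?_)
      rw [Valuation.map_neg]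
      refine (Valuation.map_add _ _ _).trans_lt (max_lt (hf.trans_lt (hp2.trans hV)) ?_)
      refine hle.trans_lt ?_
      calc V.valuation (p : Qb) * V.valuation y ≤ V.valuation (p : Qb) * 1 :=
            mul_le_mul' le_rfl hy1
        _ = V.valuation (p : Qb) := mul_one _
        _ < 1 := hV
    rcases lt_or_eq_of_le hy1 with h | h
    · exact h
    · rw [h, one_pow] at h2
      exact absurd h2 (lt_irrefl _)
  have hlt : V.valuation (-((a ^ p ^ i - a) + (p : Qb) * y * a * S)) < V.valuation (u - a) := by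
    rw [Valuation.map_neg]
    refine lt_of_lt_of_le ?_ hu
    refine (Valuation.map_add _ _ _).trans_lt (max_lt (hf.trans_lt hp2) ?_)
    refine hle.trans_lt ?_
    calc V.valuation (p : Qb) * V.valuation y < V.valuation (p : Qb) * 1 :=
          mul_lt_mul_of_pos_left hlt1 hpos
      _ = _ := mul_one _
  rw [← map_pow, e, Valuation.map_add_eq_of_lt_left _ hlt]

/-- the local structure of the chain -/
lemma unit_local (hp : p.Prime) (hV : V.valuation (p : Qb) < 1) (N : ℕ) (hN : 1 ≤ N)
    (h3 : 2 ≤ N → 3 ≤ p) (a : Qb) (ha : a ∈ (⊥ : IntermediateField ℚ Qb))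
    (ha1 : V.valuation a = 1) (hap : V.valuation (a ^ p - a) = V.valuation (p : Qb) ^ N)
    (x : ℕ → Qb) (hx : ∀ k, x (k + 1) ^ p = x k) (hx0 : x 0 = a) :
    (∃ w, V.valuation (p : Qb) ≤ w ∧ ∀ i, V.valuation (x (i + N) - a) ^ p ^ (i + 1) = w) ∧
      ∀ b ∈ (⊥ : IntermediateField ℚ Qb) ⊔ IntermediateField.adjoin ℚ {x N},
        V.valuation (x N - a) ≠ V.valuation b ^ p := by
  have hp0 := hp0' V p hp
  have hpos := zero_lt_iff.mpr hp0
  rcases Nat.lt_or_ge N 2 with hN2 | hN2
  · obtain rfl : N = 1 := by omega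
    rw [pow_one] at hap
    have hap' : V.valuation (a ^ (p - 1) - 1) = V.valuation (p : Qb) := by
      rw [pow_sub_of V p a ha1 hp, hap]
    have hxn : ∀ k, x (k + 1) ^ p ^ (k + 1) = a := by
      intro k
      have h1 := r_pow p x hx 0 (k + 1)
      rw [zero_add, hx0] at h1
      exact h1
    have h1 : ∀ i, V.valuation (x (i + 1) - a) ^ p ^ (i + 1) = V.valuation (p : Qb) :=
      fun i => shift_val V p hp hV a ha1 hap' i (x (i + 1)) (hxn i)
    refine ⟨⟨V.valuation (p : Qb), le_rfl, h1⟩, ?_⟩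
    intro b hb heq
    have h2 := h1 0
    rw [zero_add, pow_one] at h2
    have hb0 : b ≠ 0 := by
      rintro rfl
      rw [map_zero, zero_pow hp.ne_zero] at heq
      rw [heq, zero_pow hp.ne_zero] at h2
      exact hp0 h2.symm
    obtain ⟨m, hm⟩ := val_first V p hp hV a (x 1) ha
      (by have := hxn 0; rwa [zero_add, pow_one] at this) h2 b hb hb0
    have h5 : V.valuation (p : Qb) ^ (1 : ℤ) = V.valuation (p : Qb) ^ (m * p) := by
      rw [zpow_one, zpow_mul, zpow_natCast, ← hm, ← heq, h2]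
    have h6 := zpow_right_injective₀ hpos hV.ne h5
    have h7 : (p : ℤ) ∣ 1 := ⟨m, by rw [h6]; ring⟩
    have h8 : p ∣ 1 := by exact_mod_cast h7
    exact hp.one_lt.ne' (Nat.dvd_one.mp h8)
  · have hp3 := h3 hN2
    obtain ⟨m, rfl⟩ : ∃ m, N = m + 1 := ⟨N - 1, by omega⟩
    have hm : 1 ≤ m := by omega
    have hum : x m ^ p ^ m = a := by
      have h1 := r_pow p x hx 0 m
      rw [zero_add, hx0] at h1
      exact h1
    obtain ⟨f, hf0, hf, hdeg⟩ := deep_unit V p hp hp3 hV a (x m) ha ha1 m hm hap hum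
    have hxm1 : V.valuation (x m) = 1 := by
      have h1 := congrArg V.valuation hum
      rw [map_pow, ha1] at h1
      exact (pow_eq_one_iff_of_nonneg zero_le (pow_ne_zero _ hp.ne_zero)).mp h1
    have hle1 : V.valuation (x m - a) ≤ 1 :=
      (Valuation.map_sub _ _ _).trans (max_le hxm1.le ha1.le)
    have hge : V.valuation (p : Qb) ≤ V.valuation (x m - a) := by
      rw [← hf]
      calc V.valuation (x m - a) ^ f ≤ V.valuation (x m - a) ^ 1 :=
            pow_le_pow_right_of_le_one' hle1 hf0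
        _ = _ := pow_one _
    have hlt1 : V.valuation (x m - a) < 1 := by
      rcases lt_or_eq_of_le hle1 with h | h
      · exact h
      · rw [h, one_pow] at hf
        exact absurd hV (by rw [← hf]; exact lt_irrefl _)
    have hap2 : V.valuation (a ^ p - a) ≤ V.valuation (p : Qb) ^ 2 := by
      rw [hap]
      exact pow_le_pow_right_of_le_one' hV.le hN2
    have hchain : ∀ i, V.valuation (x (i + (m + 1)) - a) ^ p ^ (i + 1) =
        V.valuation (x m - a) := by
      intro i
      apply shift_val2 V p hp hV a (x m) ha1 hap2 hge hlt1 (i + 1)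
      have h1 := r_pow p x hx m (i + 1)
      rw [← h1]
      congr 2
      omega
    refine ⟨⟨V.valuation (x m - a), hge, hchain⟩, ?_⟩
    intro b hb heq
    have h2 := hchain 0
    rw [zero_add, zero_add, pow_one] at h2
    apply hdeg (x (m + 1)) (hx m) b hb
    rw [← hf, ← h2, heq, ← pow_mul, ← pow_mul]
    congr 1
    ring

end

/-- layers of degree prime to `p` -/
lemma first_layers' (K : IntermediateField ℚ Qb) (n : ℕ → ℕ) (x : ℕ → Qb) (S : Finset ℕ)
    (hn : ∀ q ∈ S, 0 < n q) (haK : ∀ q ∈ S, x q ^ n q ∈ K) (hx0 : ∀ q ∈ S, x q ≠ 0)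
    (p : ℕ) (hp : p.Prime) (hpS : ∀ q ∈ S, ¬ p ∣ n q) (V : ValuationSubring Qb)
    (hV : V.valuation (p : Qb) < 1) :
    ∀ b ∈ K ⊔ IntermediateField.adjoin ℚ (x '' (S : Set ℕ)), b ≠ 0 →
      ∃ e : ℕ, ¬ p ∣ e ∧ ∃ c ∈ K, c ≠ 0 ∧ V.valuation b ^ e = V.valuation c := by
  classical
  induction S using Finset.induction_on with
  | empty =>
    intro b hb hb0
    refine ⟨1, ?_, b, ?_, hb0, pow_one _⟩
    · intro h
      exact hp.one_lt.ne' (Nat.dvd_one.mp h)
    · simpa using hb
  | insert q S hqS ih =>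
    intro b hb hb0
    have hqm := Finset.mem_insert_self q S
    have ih' := ih (fun p hp => hn p (Finset.mem_insert_of_mem hp))
      (fun p hp => haK p (Finset.mem_insert_of_mem hp))
      (fun p hp => hx0 p (Finset.mem_insert_of_mem hp))
      (fun q hq => hpS q (Finset.mem_insert_of_mem hq))
    set T := K ⊔ IntermediateField.adjoin ℚ (x '' (S : Set ℕ)) with hT
    have hle : K ⊔ IntermediateField.adjoin ℚ (x '' ((insert q S : Finset ℕ) : Set ℕ)) ≤
        T ⊔ IntermediateField.adjoin ℚ {x q} := by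
      apply sup_le
      · exact le_sup_left.trans le_sup_left
      · rw [IntermediateField.adjoin_le_iff]
        rintro y ⟨t, ht, rfl⟩
        rcases Finset.mem_insert.mp (Finset.mem_coe.mp ht) with rfl | ht'
        · exact (le_sup_right : IntermediateField.adjoin ℚ {x t} ≤ _)
            (IntermediateField.mem_adjoin_simple_self ℚ _)
        · apply (le_sup_left : T ≤ _)
          exact (le_sup_right : IntermediateField.adjoin ℚ (x '' (S : Set ℕ)) ≤ T)
            (IntermediateField.subset_adjoin ℚ _ ⟨t, Finset.mem_coe.mpr ht', rfl⟩)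
    obtain ⟨e, hpe, c, hc, hc0, hec⟩ := ram_step T (n q) (hn q hqm) (x q) (hx0 q hqm)
      ((le_sup_left : K ≤ T) (haK q hqm)) p hp (hpS q hqm) V hV b (hle hb) hb0
    obtain ⟨e', hpe', c', hc', hc0', hec'⟩ := ih' c hc hc0
    refine ⟨e * e', ?_, c', hc', hc0', ?_⟩
    · intro h
      rcases hp.dvd_mul.mp h with h | h
      · exact hpe h
      · exact hpe' h
    · rw [pow_mul, hec, hec']

/-- a good chain from local data -/
lemma good_unit2 (K : IntermediateField ℚ Qb) (p : ℕ) (hp : p.Prime) (x : ℕ → Qb) (A : Qb)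
    (hAK : A ∈ K) (hx0 : x 0 ∈ K) (hxne : ∀ k, x k ≠ 0) (hxs : ∀ k, x (k + 1) ^ p = x k)
    (hx1 : ∀ V : ValuationSubring Qb, V.valuation (p : Qb) < 1 → ∀ i, V.valuation (x i) = 1)
    (hA1 : ∀ V : ValuationSubring Qb, V.valuation (p : Qb) < 1 → V.valuation A = 1)
    (hw : ∀ V : ValuationSubring Qb, V.valuation (p : Qb) < 1 →
      ∃ w, V.valuation (p : Qb) ≤ w ∧ ∀ i, V.valuation (x i - A) ^ p ^ (i + 1) = w)
    (hV : ∀ V : ValuationSubring Qb, V.valuation (p : Qb) < 1 →
      ∀ b ∈ K, V.valuation (x 0 - A) ≠ V.valuation b ^ p) : GoodChain K p x := by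
  refine ⟨hx0, hxne, hxs, fun V hVp => ⟨x 0 - A, sub_mem hx0 hAK, hV V hVp,
    fun i => ⟨A, hAK, ?_, ?_⟩⟩⟩
  · obtain ⟨w, -, hw⟩ := hw V hVp
    have h1 := hw i
    have h2 := hw 0
    rw [zero_add, pow_one] at h2
    rw [pow_succ, pow_mul, ← h2] at h1
    exact (pow_left_inj₀ zero_le zero_le hp.ne_zero).mp h1
  · intro hi ξ hξ
    obtain ⟨w, hwp, hw⟩ := hw V hVp
    have h1 := hw i
    have hy1 : V.valuation (x i - A) ≤ 1 :=
      (Valuation.map_sub _ _ _).trans (max_le (hx1 V hVp i).le (hA1 V hVp).le)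
    have h2 : V.valuation (p : Qb) ≤ V.valuation (x i - A) ^ p ^ 2 := by
      refine hwp.trans ?_
      rw [← h1]
      apply pow_le_pow_right_of_le_one' hy1
      exact Nat.pow_le_pow_right hp.pos (by omega)
    have h3 : V.valuation (p : Qb) ^ (p - 1) ≤
        V.valuation (x i - A) ^ ((p - 1) * p ^ 2) := by
      rw [mul_comm (p - 1), pow_mul]
      exact pow_le_pow_left₀ zero_le h2 _
    rw [map_mul, hx1 V hVp i, mul_one]
    calc V.valuation (1 - ξ) ^ ((p - 1) * p ^ 2) ≤ V.valuation (p : Qb) ^ p ^ 2 :=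
          bound_root V p hp ξ hξ
      _ = V.valuation (p : Qb) ^ (p ^ 2 - p + 1) * V.valuation (p : Qb) ^ (p - 1) := by
          rw [← pow_add]
          congr 1
          obtain ⟨t, rfl⟩ : ∃ t, p = t + 2 := ⟨p - 2, by have := hp.two_le; omega⟩
          have h1 : (t + 2) ^ 2 - (t + 2) = t ^ 2 + 3 * t + 2 := by
            apply Nat.sub_eq_of_eq_add
            ring
          have h2 : t + 2 - 1 = t + 1 := by omega
          rw [h1, h2]
          ring
      _ ≤ _ := mul_le_mul' le_rfl h3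

end Pool.Agent.H58R
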