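import Mathlib
import Pool.Agent.H58R.Loc3

set_option autoImplicit false

/-!
# Assembly over `ℚ`, general form
-/

namespace Pool.Agent.H58R

open IntermediateField Polynomial Module
open Pool.Agent.H58P (Qb ht qb_isIntegral alg_isIntegral)
open Pool.Agent.H58B (ht_conj ht_pow)

lemma fermat_val (V : ValuationSubring Qb) (p : ℕ) (hp : p.Prime) (n : ℤ) :
    V.valuation ((n : Qb) ^ p - (n : Qb)) ≤ V.valuation (p : Qb) := by
  have hp' : Fact p.Prime := ⟨hp⟩
  have h1 : (p : ℤ) ∣ n ^ p - n := by
    rw [← ZMod.intCast_zmod_eq_zero_iff_dvd]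
    push_cast
    rw [ZMod.pow_card, sub_self]
  obtain ⟨k, hk⟩ := h1
  have h2 : (n : Qb) ^ p - (n : Qb) = (p : Qb) * (k : Qb) := by exact_mod_cast hk
  rw [h2, map_mul]
  calc V.valuation (p : Qb) * V.valuation (k : Qb) ≤ V.valuation (p : Qb) * 1 := by
        apply mul_le_mul' le_rfl
        rw [ValuationSubring.valuation_le_one_iff]
        exact intCast_mem V k
    _ = _ := mul_one _

lemma unit_exp (p : ℕ) (hp : p.Prime) (s : ℚ) (hs0 : s ≠ 0) (hs : padicValRat p s = 0)
    (h : (p = 2 ∧ padicValRat 2 (s - 1) = 1) ∨ (p ≠ 2 ∧ s ≠ 1 ∧ s ≠ -1)) :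
    ∃ N : ℕ, 1 ≤ N ∧ (2 ≤ N → 3 ≤ p) ∧ ∀ V : ValuationSubring Qb, V.valuation (p : Qb) < 1 →
      V.valuation (algebraMap ℚ Qb s ^ p - algebraMap ℚ Qb s) = V.valuation (p : Qb) ^ N := by
  have hp' : Fact p.Prime := ⟨hp⟩
  have hne : s ^ p - s ≠ 0 := by
    intro h0
    have e : s ^ p - s = s * (s ^ (p - 1) - 1) := by
      rw [mul_sub, mul_one, ← pow_succ', Nat.sub_add_cancel hp.one_le]
    rw [e] at h0
    rcases mul_eq_zero.mp h0 with h1 | h1
    · exact hs0 h1
    · have h2 : s ^ (p - 1) = 1 := by linarith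
      rcases h with ⟨rfl, h3⟩ | ⟨hp2, h3, h4⟩
      · norm_num at h2
        rw [h2, sub_self, padicValRat.zero] at h3
        exact zero_ne_one h3
      · rcases pow_eq_one_iff_cases.mp h2 with h5 | h5 | h5
        · have := hp.two_le
          omega
        · exact h3 h5
        · exact h4 h5.1
  have hval : ∀ V : ValuationSubring Qb, V.valuation (p : Qb) < 1 →
      V.valuation (algebraMap ℚ Qb s ^ p - algebraMap ℚ Qb s) =
        V.valuation (p : Qb) ^ padicValRat p (s ^ p - s) := by
    intro V hV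
    have e : algebraMap ℚ Qb s ^ p - algebraMap ℚ Qb s = algebraMap ℚ Qb (s ^ p - s) := by
      rw [map_sub, map_pow]
    rw [e, val_rat V p hp hV _ hne]
  obtain ⟨V, hV⟩ := exists_over p hp
  have hpos := zero_lt_iff.mpr (hp0' V p hp)
  have hle : V.valuation (algebraMap ℚ Qb s ^ p - algebraMap ℚ Qb s) ≤ V.valuation (p : Qb) := by
    have hs1 : V.valuation (algebraMap ℚ Qb s) = 1 := by
      rw [val_rat V p hp hV s hs0, hs, zpow_zero]
    have hd0 : (s.den : Qb) ≠ 0 := by exact_mod_cast s.den_ne_zero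
    have hsd : algebraMap ℚ Qb s * (s.den : Qb) = (s.num : Qb) := by
      have h1 := congrArg (algebraMap ℚ Qb) (Rat.mul_den_eq_num s)
      rw [map_mul] at h1
      simpa using h1
    have hVnd : V.valuation (s.num : Qb) = V.valuation (s.den : Qb) := by
      rw [← hsd, map_mul, hs1, one_mul]
    have hd1 : V.valuation (s.den : Qb) = 1 := by
      by_contra hcon
      have hd2 := lt_of_le_of_ne (val_nat_le V s.den) hcon
      have hcop : IsCoprime s.num (s.den : ℤ) := by
        rw [Int.isCoprime_iff_nat_coprime]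
        simpa using s.reduced
      obtain ⟨u, w, huw⟩ := hcop
      have h1 : (u : Qb) * (s.num : Qb) + (w : Qb) * (s.den : Qb) = 1 := by exact_mod_cast huw
      have h2 : ∀ k : ℤ, V.valuation (k : Qb) ≤ 1 := fun k => by
        rw [ValuationSubring.valuation_le_one_iff]
        exact intCast_mem V k
      have h3 : V.valuation ((u : Qb) * (s.num : Qb) + (w : Qb) * (s.den : Qb)) < 1 := by
        apply Valuation.map_add_lt
        · rw [map_mul, hVnd]
          calc V.valuation (u : Qb) * V.valuation (s.den : Qb) ≤ 1 * V.valuation (s.den : Qb) :=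
                mul_le_mul' (h2 u) le_rfl
            _ = V.valuation (s.den : Qb) := one_mul _
            _ < 1 := hd2
        · rw [map_mul]
          calc V.valuation (w : Qb) * V.valuation (s.den : Qb) ≤ 1 * V.valuation (s.den : Qb) :=
                mul_le_mul' (h2 w) le_rfl
            _ = V.valuation (s.den : Qb) := one_mul _
            _ < 1 := hd2
      rw [h1, map_one] at h3
      exact lt_irrefl _ h3
    have hn1 : V.valuation (s.num : Qb) = 1 := by rw [hVnd, hd1]
    have e : (algebraMap ℚ Qb s ^ p - algebraMap ℚ Qb s) * (s.den : Qb) ^ (p + 1) =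
        (s.den : Qb) * ((s.num : Qb) ^ p - (s.num : Qb)) -
          (s.num : Qb) * (((s.den : ℤ) : Qb) ^ p - ((s.den : ℤ) : Qb)) := by
      rw [← hsd]
      push_cast
      ring
    have h1 := congrArg V.valuation e
    rw [map_mul, map_pow, hd1, one_pow, mul_one] at h1
    rw [h1]
    refine (Valuation.map_sub _ _ _).trans (max_le ?_ ?_)
    · rw [map_mul, hd1, one_mul]
      exact fermat_val V p hp s.num
    · rw [map_mul, hn1, one_mul]
      exact fermat_val V p hp s.den
  have hge : 1 ≤ padicValRat p (s ^ p - s) := by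
    rw [hval V hV] at hle
    by_contra hcon
    push Not at hcon
    have h1 : V.valuation (p : Qb) ^ (1 : ℤ) < V.valuation (p : Qb) ^ padicValRat p (s ^ p - s) :=
      zpow_lt_zpow_right_of_lt_one₀ hpos hV hcon
    rw [zpow_one] at h1
    exact absurd hle (not_le.mpr h1)
  refine ⟨(padicValRat p (s ^ p - s)).toNat, by omega, ?_, ?_⟩
  · intro h2
    rcases h with ⟨rfl, h3⟩ | ⟨hp2, -, -⟩
    · exfalso
      have e : s ^ 2 - s = s * (s - 1) := by ring
      have hs1 : s - 1 ≠ 0 := by
        intro h0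
        rw [h0, padicValRat.zero] at h3
        exact zero_ne_one h3
      rw [e, padicValRat.mul hs0 hs1, hs, h3] at h2
      norm_num at h2
    · have := hp.two_le
      omega
  · intro V hV
    rw [hval V hV, ← zpow_natCast _ (padicValRat p (s ^ p - s)).toNat,
      Int.toNat_of_nonneg (by omega)]

/-- the main theorem over `ℚ` -/
theorem main_rat2 (P : Finset ℕ) (hP : ∀ p ∈ P, p.Prime) (s : ℕ → ℚ) (a : ℕ → Qbˣ)
    (has : ∀ p ∈ P, (a p : Qb) = algebraMap ℚ Qb (s p))
    (hs : ∀ p ∈ P, ¬ (p : ℤ) ∣ padicValRat p (s p) ∨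
      (padicValRat p (s p) = 0 ∧ ((p = 2 ∧ padicValRat 2 (s p - 1) = 1) ∨
        (p ≠ 2 ∧ s p ≠ 1 ∧ s p ≠ -1))))
    (r : ℕ → ℕ → Qb) (hr0 : ∀ p ∈ P, r p 0 = a p)
    (hr : ∀ p ∈ P, ∀ k, r p (k + 1) ^ p = r p k) :
    Small (tower ⊥ P r) (Subgroup.closure (a '' (P : Set ℕ))) := by
  classical
  have hsne : ∀ p ∈ P, s p ≠ 0 := by
    intro p hp h0
    have := has p hp
    rw [h0, map_zero] at this
    exact (a p).ne_zero this
  have hex : ∀ p ∈ P, ∃ N : ℕ, (¬ (p : ℤ) ∣ padicValRat p (s p) ∧ N = 0) ∨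
      (padicValRat p (s p) = 0 ∧ 1 ≤ N ∧ (2 ≤ N → 3 ≤ p) ∧
        ∀ V : ValuationSubring Qb, V.valuation (p : Qb) < 1 →
          V.valuation ((a p : Qb) ^ p - (a p : Qb)) = V.valuation (p : Qb) ^ N) := by
    intro p hp
    rcases hs p hp with h | ⟨h1, h2⟩
    · exact ⟨0, Or.inl ⟨h, rfl⟩⟩
    · obtain ⟨N, hN1, hN2, hN3⟩ := unit_exp p (hP p hp) (s p) (hsne p hp) h1 h2
      refine ⟨N, Or.inr ⟨h1, hN1, hN2, ?_⟩⟩
      rw [has p hp]
      exact hN3
  choose! n hn using hex
  have hrn : ∀ p ∈ P, ∀ k, r p k ^ p ^ k = (a p : Qb) := by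
    intro p hp k
    have h1 := r_pow p (r p) (hr p hp) 0 k
    rw [zero_add] at h1
    rw [h1, hr0 p hp]
  have hrne : ∀ p ∈ P, ∀ k, r p k ≠ 0 := by
    intro p hp k h
    have h1 := hrn p hp k
    rw [h, zero_pow (pow_ne_zero _ (hP p hp).ne_zero)] at h1
    exact (a p).ne_zero h1.symm
  have habot : ∀ p ∈ P, (a p : Qb) ∈ (⊥ : IntermediateField ℚ Qb) := by
    intro p hp
    rw [has p hp]
    exact IntermediateField.algebraMap_mem _ _
  -- the base field
  set K' : IntermediateField ℚ Qb :=
    ⊥ ⊔ IntermediateField.adjoin ℚ ((fun p => r p (n p)) '' (P : Set ℕ)) with hK'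
  have hfd : FiniteDimensional ℚ K' := by
    rw [hK', bot_sup_eq]
    have hfin : Finite ((fun p => r p (n p)) '' (P : Set ℕ)) :=
      Set.Finite.image _ (Finset.finite_toSet P)
    exact IntermediateField.finiteDimensional_adjoin (fun y _ => qb_isIntegral y)
  have hbotK' : (⊥ : IntermediateField ℚ Qb) ≤ K' := le_sup_left
  have hmemP : ∀ p ∈ P, r p (n p) ∈ K' := by
    intro p hp
    apply (le_sup_right : IntermediateField.adjoin ℚ ((fun p => r p (n p)) '' (P : Set ℕ)) ≤ K')
    exact IntermediateField.subset_adjoin ℚ _ ⟨p, Finset.mem_coe.mpr hp, rfl⟩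
  set x' : ℕ → ℕ → Qb := fun p k => r p (k + n p) with hx'
  have hx'0 : ∀ p, x' p 0 = r p (n p) := by
    intro p
    show r p (0 + n p) = _
    rw [zero_add]
  have hx'ne : ∀ p ∈ P, ∀ k, x' p k ≠ 0 := fun p hp k => hrne p hp _
  have hx's : ∀ p ∈ P, ∀ k, x' p (k + 1) ^ p = x' p k := by
    intro p hp k
    show r p (k + 1 + n p) ^ p = r p (k + n p)
    rw [add_right_comm]
    exact hr p hp (k + n p)
  set a' : ℕ → Qbˣ := fun p => if h : x' p 0 ≠ 0 then Units.mk0 (x' p 0) h else 1 with ha'
  have ha'v : ∀ p ∈ P, (a' p : Qb) = x' p 0 := by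
    intro p hp
    rw [ha']
    simp only
    rw [dif_pos (hx'ne p hp 0)]
    rfl
  have hgood : ∀ p ∈ P, GoodChain K' p (x' p) := by
    intro p hpP
    have hp := hP p hpP
    rcases hn p hpP with ⟨hpv, hn0⟩ | ⟨hpv, hN1, hN2, hN3⟩
    · have hx0e : x' p 0 = (a p : Qb) := by rw [hx'0, hn0, hr0 p hpP]
      apply good_ram K' p hp (x' p)
      · rw [hx0e]
        exact hbotK' (habot p hpP)
      · exact hx'ne p hpP
      · exact hx's p hpP
      · intro V hV
        rw [hx0e]
        apply cond_lift ⊥ K' p hp V _ (a p : Qb) (habot p hpP)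
        · intro b hb
          rw [has p hpP]
          exact cond_rat V p hp hV (s p) (hsne p hpP) hpv b hb
        · exact first_layers' ⊥ (fun q => q ^ n q) (fun q => r q (n q)) P
            (fun q hq => pow_pos (hP q hq).pos _)
            (fun q hq => by
              show r q (n q) ^ q ^ n q ∈ _
              rw [hrn q hq]
              exact habot q hq)
            (fun q hq => hrne q hq (n q)) p hp
            (fun q hq hdvd => by
              have h1 := hp.dvd_of_dvd_pow hdvd
              have h2 := (Nat.prime_dvd_prime_iff_eq hp (hP q hq)).mp h1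
              subst h2
              simp only [hn0, pow_zero] at hdvd
              exact hp.one_lt.ne' (Nat.dvd_one.mp hdvd)) V hV
    · have hA1 : ∀ V : ValuationSubring Qb, V.valuation (p : Qb) < 1 →
          V.valuation (a p : Qb) = 1 := by
        intro V hV
        rw [has p hpP, val_rat V p hp hV _ (hsne p hpP), hpv, zpow_zero]
      have hloc := fun (V : ValuationSubring Qb) (hV : V.valuation (p : Qb) < 1) =>
        unit_local V p hp hV (n p) hN1 hN2 (a p : Qb) (habot p hpP) (hA1 V hV) (hN3 V hV)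
          (r p) (hr p hpP) (hr0 p hpP)
      apply good_unit2 K' p hp (x' p) (a p : Qb) (hbotK' (habot p hpP))
      · rw [hx'0]; exact hmemP p hpP
      · exact hx'ne p hpP
      · exact hx's p hpP
      · intro V hV i
        have h1 := congrArg V.valuation (hrn p hpP (i + n p))
        rw [map_pow, hA1 V hV] at h1
        exact (pow_eq_one_iff_of_nonneg zero_le (pow_ne_zero _ hp.ne_zero)).mp h1
      · exact hA1
      · intro V hV
        exact (hloc V hV).1
      · intro V hV
        have hle : K' ≤ (⊥ ⊔ IntermediateField.adjoin ℚ {r p (n p)}) ⊔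
            IntermediateField.adjoin ℚ
              ((fun q => r q (n q)) '' ((P.erase p : Finset ℕ) : Set ℕ)) := by
          apply sup_le bot_le
          rw [IntermediateField.adjoin_le_iff]
          rintro y ⟨t, ht, rfl⟩
          by_cases htp : t = p
          · subst htp
            exact (le_sup_left : ⊥ ⊔ IntermediateField.adjoin ℚ {r t (n t)} ≤ _)
              ((le_sup_right : IntermediateField.adjoin ℚ {r t (n t)} ≤ _)
                (IntermediateField.mem_adjoin_simple_self ℚ _))
          · apply (le_sup_right : IntermediateField.adjoin ℚ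
              ((fun q => r q (n q)) '' ((P.erase p : Finset ℕ) : Set ℕ)) ≤ _)
            exact IntermediateField.subset_adjoin ℚ _
              ⟨t, by simpa using ⟨Finset.mem_coe.mp ht, htp⟩, rfl⟩
        rw [hx'0]
        have hK1 : r p (n p) ∈ (⊥ : IntermediateField ℚ Qb) ⊔
            IntermediateField.adjoin ℚ {r p (n p)} :=
          (le_sup_right : IntermediateField.adjoin ℚ {r p (n p)} ≤ _)
            (IntermediateField.mem_adjoin_simple_self ℚ _)
        have hK2 : (a p : Qb) ∈ (⊥ : IntermediateField ℚ Qb) ⊔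
            IntermediateField.adjoin ℚ {r p (n p)} :=
          (le_sup_left : (⊥ : IntermediateField ℚ Qb) ≤ _) (habot p hpP)
        refine cond_lift ((⊥ : IntermediateField ℚ Qb) ⊔ IntermediateField.adjoin ℚ {r p (n p)}) K'
          p hp V ?_ (r p (n p) - a p) (sub_mem hK1 hK2) (hloc V hV).2
        intro b hb hb0
        exact first_layers' ((⊥ : IntermediateField ℚ Qb) ⊔ IntermediateField.adjoin ℚ {r p (n p)})
          (fun q => q ^ n q) (fun q => r q (n q)) (P.erase p)
          (fun q hq => pow_pos (hP q (Finset.mem_of_mem_erase hq)).pos _)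
          (fun q hq => by
            show r q (n q) ^ q ^ n q ∈ _
            rw [hrn q (Finset.mem_of_mem_erase hq)]
            exact (le_sup_left : (⊥ : IntermediateField ℚ Qb) ≤ _)
              (habot q (Finset.mem_of_mem_erase hq)))
          (fun q hq => hrne q (Finset.mem_of_mem_erase hq) (n q)) p hp
          (fun q hq hdvd => by
            have h1 := hp.dvd_of_dvd_pow hdvd
            have h2 := (Nat.prime_dvd_prime_iff_eq hp (hP q (Finset.mem_of_mem_erase hq))).mp h1
            exact Finset.ne_of_mem_erase hq h2.symm) V hV b (hle hb) hb0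
  have hmain := (main2 K' ⊥ (small_nf K' hfd) a' x' P hP
    (fun p hp => (ha'v p hp).symm) hgood).1
  obtain ⟨c, hc, hcβ⟩ := hmain
  have htow : tower ⊥ P r ≤ tower K' P x' := by
    apply sup_le bot_le
    rw [IntermediateField.adjoin_le_iff]
    rintro y ⟨p, hp, k, rfl⟩
    have hin : ∀ k, x' p k ∈ tower K' P x' := fun k =>
      (le_sup_right : IntermediateField.adjoin ℚ {y | ∃ p ∈ P, ∃ k, y = x' p k} ≤ _)
        (IntermediateField.subset_adjoin ℚ _ ⟨p, hp, k, rfl⟩)
    have h1 : r p k = x' p k ^ p ^ n p := (r_pow p (r p) (hr p hp) k (n p)).symm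
    rw [h1]
    exact pow_mem (hin k) _
  refine ⟨c, hc, fun β hβ hβ0 hnd => hcβ β (htow hβ) hβ0 ?_⟩
  intro hin
  apply hnd
  rw [bot_sup_eq] at hin
  refine indiv_trans _ _ ?_ β hin
  rintro g ⟨p, hp, rfl⟩
  have hpP : p ∈ P := Finset.mem_coe.mp hp
  have hmem : a p ∈ Subgroup.closure (a '' (P : Set ℕ)) :=
    Subgroup.subset_closure ⟨p, hp, rfl⟩
  refine ⟨p ^ n p, pow_pos (hP p hpP).pos _, ?_⟩
  have e : a' p ^ p ^ n p = a p := by
    apply Units.ext
    push_cast
    rw [ha'v p hpP, hx'0, hrn p hpP]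
  rw [e]
  exact hmem

end Pool.Agent.H58R
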