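import Mathlib
import Pool.Agent.H58R.Asm2

set_option autoImplicit false

/-!
# The general local structure of the chain of a unit
-/

namespace Pool.Agent.H58R

open IntermediateField Polynomial Module
open Pool.Agent.H58P (Qb ht qb_isIntegral alg_isIntegral)

section
variable (V : ValuationSubring Qb) (p : ℕ)

/-- the value of `1 - ζ` for a primitive root of unity of prime power order -/
lemma zeta_val2 (hp : p.Prime) (m : ℕ) (ζ : Qb)
    (hζ : ζ ^ p ^ m = 1) (hζ1 : ζ ≠ 1) :
    ∃ f : ℕ, 0 < f ∧ V.valuation (1 - ζ) ^ f = V.valuation (p : Qb) ∧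
      ∃ F : ℚ[X], F.Monic ∧ F.natDegree = f ∧ aeval ζ F = 0 := by
  classical
  have hp' : Fact p.Prime := ⟨hp⟩
  obtain ⟨j, hj, hord⟩ := (Nat.dvd_prime_pow hp).mp (orderOf_dvd_of_pow_eq_one hζ)
  have hj0 : j ≠ 0 := by
    rintro rfl
    rw [pow_zero, orderOf_eq_one_iff] at hord
    exact hζ1 hord
  obtain ⟨t, rfl⟩ := Nat.exists_eq_succ_of_ne_zero hj0
  have hprim : IsPrimitiveRoot ζ (p ^ (t + 1)) := by
    rw [← hord]
    exact IsPrimitiveRoot.orderOf ζ
  set n := p ^ (t + 1) with hn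
  have hn0 : 0 < n := pow_pos hp.pos _
  refine ⟨n.totient, Nat.totient_pos.mpr hn0, ?_, cyclotomic n ℚ, cyclotomic.monic n ℚ,
    natDegree_cyclotomic n ℚ, ?_⟩
  · have h1 : eval 1 (cyclotomic n Qb) = (p : Qb) := by
      rw [hn]
      exact eval_one_cyclotomic_prime_pow t
    rw [cyclotomic_eq_prod_X_sub_primitiveRoots hprim, eval_prod] at h1
    simp only [eval_sub, eval_X, eval_C] at h1
    rw [← h1, map_prod, Finset.prod_congr rfl (g := fun _ => V.valuation (1 - ζ))]
    · rw [Finset.prod_const, hprim.card_primitiveRoots]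
    · intro μ hμ
      have hμ' : IsPrimitiveRoot μ n := (mem_primitiveRoots hn0).mp hμ
      have key : ∀ ξ η : Qb, IsPrimitiveRoot ξ n → IsPrimitiveRoot η n →
          V.valuation (1 - η) ≤ V.valuation (1 - ξ) := by
        intro ξ η hξ hη
        have hne : NeZero n := ⟨hn0.ne'⟩
        obtain ⟨i, -, hi⟩ := hξ.eq_pow_of_pow_eq_one hη.pow_eq_one
        rw [← hi]
        exact val_one_sub_pow_le V.valuation ξ (val_root V.valuation ξ n hn0 hξ.pow_eq_one) i
      exact le_antisymm (key ζ μ hprim hμ') (key μ ζ hμ' hprim)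
  · have h1 : IsRoot (cyclotomic n Qb) ζ := hprim.isRoot_cyclotomic hn0
    rw [← map_cyclotomic n (algebraMap ℚ Qb), IsRoot.def, eval_map_algebraMap] at h1
    exact h1

/-- the value groups of the fields `C(w)`, `w ^ e = ζ A` -/
lemma deg_le_of (hp : p.Prime) (hV : V.valuation (p : Qb) < 1) (C : IntermediateField ℚ Qb)
    (hCval : ∀ z ∈ C, z ≠ 0 → ∃ m : ℤ, V.valuation z = V.valuation (p : Qb) ^ m)
    (A ζ : Qb) (hAC : A ∈ C)
    (hA0 : A ≠ 0) (F : ℚ[X]) (f : ℕ) (hf0 : 0 < f) (hF2 : F.natDegree = f) (hF3 : aeval ζ F = 0)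
    (e : ℕ) (he : 0 < e) (w : Qb) (hw : w ^ e = ζ * A) (b : Qb)
    (hb : b ∈ (⊥ : IntermediateField ℚ Qb) ⊔ IntermediateField.adjoin ℚ {w}) (n : ℕ) (hn0 : 0 < n)
    (heq : V.valuation b ^ n = V.valuation (p : Qb)) : n ≤ f * e := by
  classical
  have hp0 := hp0' V p hp
  have hpos := zero_lt_iff.mpr hp0
  have hb0 : b ≠ 0 := by
    rintro rfl
    rw [map_zero, zero_pow hn0.ne'] at heq
    exact hp0 heq.symm
  have h1 := deg_ge C n b hb0 V (by
    intro j hj hjn c hc hjc
    have hc0 : c ≠ 0 := by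
      rintro rfl
      rw [map_zero, Valuation.zero_iff] at hjc
      exact pow_ne_zero j hb0 hjc
    obtain ⟨k, hk⟩ := hCval c hc hc0
    have h2 : V.valuation (p : Qb) ^ (j : ℤ) =
        V.valuation (p : Qb) ^ (k * (n : ℤ)) := by
      rw [zpow_natCast, zpow_mul, zpow_natCast, ← hk, ← hjc, map_pow, ← pow_mul, ← heq, ← pow_mul,
        mul_comm j]
    have h3 := zpow_right_injective₀ hpos hV.ne h2
    have h4 : n ∣ j := by
      have : (n : ℤ) ∣ (j : ℤ) := ⟨k, by rw [h3, mul_comm]⟩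
      exact_mod_cast this
    have h5 := Nat.le_of_dvd hj h4
    omega)
  have hb1 : b ∈ C ⊔ IntermediateField.adjoin ℚ {w} := by
    have hle : (⊥ : IntermediateField ℚ Qb) ⊔ IntermediateField.adjoin ℚ {w} ≤
        C ⊔ IntermediateField.adjoin ℚ {w} := sup_le_sup_right bot_le _
    exact hle hb
  rw [← Pool.Agent.H58B.mem_adjoin_iff] at hb1
  have hwint : IsIntegral C w := alg_isIntegral C w
  have hfd : FiniteDimensional C (IntermediateField.adjoin C {w}) :=
    IntermediateField.adjoin.finiteDimensional hwint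
  have h2 : (minpoly C b).natDegree ≤ finrank C (IntermediateField.adjoin C {w}) := by
    have hb' : b ∈ IntermediateField.adjoin C {w} := hb1
    have e : minpoly C b = minpoly C (⟨b, hb'⟩ : IntermediateField.adjoin C {w}) := by
      rw [← minpoly.algebraMap_eq (algebraMap (IntermediateField.adjoin C {w}) Qb).injective]
      rfl
    rw [e]
    exact minpoly.natDegree_le _
  rw [IntermediateField.adjoin.finrank hwint] at h2
  have h3 : (minpoly C w).natDegree ≤ f * e := by
    have hAne : (⟨A, hAC⟩ : C)⁻¹ ≠ 0 := by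
      apply inv_ne_zero
      intro h
      exact hA0 (congrArg Subtype.val h)
    set G : C[X] := (F.map (algebraMap ℚ C)).comp (Polynomial.C ((⟨A, hAC⟩ : C)⁻¹) * X ^ e) with hG
    have hdG : G.natDegree = f * e := by
      rw [hG, natDegree_comp, natDegree_map, hF2, natDegree_C_mul_X_pow _ _ hAne]
    have hG0 : G ≠ 0 := by
      intro h
      rw [h, natDegree_zero] at hdG
      have := Nat.mul_pos hf0 he
      omega
    have hGw : aeval w G = 0 := by
      rw [hG, aeval_comp]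
      have e1 : aeval w (Polynomial.C ((⟨A, hAC⟩ : C)⁻¹) * X ^ e) = ζ := by
        rw [map_mul, aeval_C, map_pow, aeval_X, hw, map_inv₀]
        show A⁻¹ * (ζ * A) = ζ
        field_simp
      rw [e1, aeval_map_algebraMap]
      exact hF3
    have h4 := natDegree_le_of_dvd (minpoly.dvd C w hGw) hG0
    rw [hdG] at h4
    exact h4
  exact h1.trans (h2.trans h3)

/-- the local structure, when `x m = ζ A` -/
lemma local_zeta (hp : p.Prime) (hV : V.valuation (p : Qb) < 1) (C : IntermediateField ℚ Qb)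
    (hCval : ∀ z ∈ C, z ≠ 0 → ∃ m : ℤ, V.valuation z = V.valuation (p : Qb) ^ m)
    (c : Qb) (hc1 : V.valuation c = 1) (hcp : V.valuation (c ^ p - c) ≤ V.valuation (p : Qb) ^ 2)
    (A ζ : Qb) (hAC : A ∈ C) (hA0 : A ≠ 0) (F : ℚ[X]) (f : ℕ) (hf0 : 0 < f)
    (hF2 : F.natDegree = f) (hF3 : aeval ζ F = 0)
    (x : ℕ → Qb) (hx : ∀ k, x (k + 1) ^ p = x k) (m e : ℕ) (hxm : x m = ζ * A)
    (hxm2 : V.valuation (x m - c) ^ f = V.valuation (p : Qb)) :
    (∃ w, V.valuation (p : Qb) ≤ w ∧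
      ∀ i, V.valuation (x (i + (m + (e + 1))) - c) ^ p ^ (i + 1) = w) ∧
      ∀ b ∈ (⊥ : IntermediateField ℚ Qb) ⊔ IntermediateField.adjoin ℚ {x (m + (e + 1))},
        V.valuation (x (m + (e + 1)) - c) ≠ V.valuation b ^ p := by
  have hlt1 : V.valuation (x m - c) < 1 := by
    by_contra hcon
    rw [not_lt] at hcon
    have h1 : 1 ≤ V.valuation (x m - c) ^ f := one_le_pow_of_one_le' hcon f
    rw [hxm2] at h1
    exact absurd hV (not_lt.mpr h1)
  have hge : V.valuation (p : Qb) ≤ V.valuation (x m - c) := by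
    rw [← hxm2]
    calc V.valuation (x m - c) ^ f ≤ V.valuation (x m - c) ^ 1 :=
          pow_le_pow_right_of_le_one' hlt1.le hf0
      _ = _ := pow_one _
  have hchain : ∀ k, V.valuation (x (m + k) - c) ^ p ^ k = V.valuation (x m - c) := fun k =>
    shift_val2 V p hp hV c (x m) hc1 hcp hge hlt1 k (x (m + k)) (r_pow p x hx m k)
  have hle1 : ∀ k, V.valuation (x (m + k) - c) ≤ 1 := by
    intro k
    by_contra hcon
    rw [not_le] at hcon
    have h1 : 1 ≤ V.valuation (x (m + k) - c) ^ p ^ k := one_le_pow_of_one_le' hcon.le _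
    rw [hchain k] at h1
    exact absurd hlt1 (not_lt.mpr h1)
  refine ⟨⟨V.valuation (x (m + e) - c), ?_, ?_⟩, ?_⟩
  · refine hge.trans ?_
    rw [← hchain e]
    calc V.valuation (x (m + e) - c) ^ p ^ e ≤ V.valuation (x (m + e) - c) ^ 1 :=
          pow_le_pow_right_of_le_one' (hle1 e) (Nat.one_le_pow _ _ hp.pos)
      _ = _ := pow_one _
  · intro i
    have h1 := hchain (e + 1 + i)
    have h2 := hchain e
    have e1 : i + (m + (e + 1)) = m + (e + 1 + i) := by ring
    rw [e1]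
    rw [← h2, show p ^ (e + 1 + i) = p ^ (i + 1) * p ^ e by rw [← pow_add]; congr 1; ring,
      pow_mul] at h1
    exact (pow_left_inj₀ zero_le zero_le (pow_ne_zero _ hp.ne_zero)).mp h1
  · intro b hb heq
    have hpe : 0 < p ^ (e + 1) := pow_pos hp.pos _
    have h1 := deg_le_of V p hp hV C hCval A ζ hAC hA0 F f hf0 hF2 hF3 (p ^ (e + 1)) hpe
      (x (m + (e + 1))) (by rw [r_pow p x hx m (e + 1), hxm]) b hb (p * p ^ (e + 1) * f)
      (Nat.mul_pos (Nat.mul_pos hp.pos hpe) hf0) (by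
        rw [pow_mul, pow_mul, ← heq, hchain (e + 1), hxm2])
    have h2 : f * p ^ (e + 1) < p * p ^ (e + 1) * f := by
      have h3 : f * p ^ (e + 1) * 1 < f * p ^ (e + 1) * p :=
        Nat.mul_lt_mul_of_pos_left hp.one_lt (Nat.mul_pos hf0 hpe)
      nlinarith
    omega

end

/-! ### the prime two -/

section
variable (V : ValuationSubring Qb)

lemma two_lt (hV : V.valuation ((2 : ℕ) : Qb) < 1) :
    V.valuation ((2 : ℕ) : Qb) ^ 2 < V.valuation ((2 : ℕ) : Qb) := by
  have hpos := zero_lt_iff.mpr (hp0' V 2 Nat.prime_two)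
  calc V.valuation ((2 : ℕ) : Qb) ^ 2 < V.valuation ((2 : ℕ) : Qb) ^ 1 :=
        pow_lt_pow_right_of_lt_one₀ hpos hV (by norm_num)
    _ = _ := pow_one _

/-- `V (z + 1)` from `V (z - 1)` -/
lemma val_add_one (z : Qb) (h : V.valuation (z - 1) < V.valuation ((2 : ℕ) : Qb)) :
    V.valuation (z + 1) = V.valuation ((2 : ℕ) : Qb) := by
  have e : z + 1 = (z - 1) + ((2 : ℕ) : Qb) := by push_cast; ring
  rw [e, Valuation.map_add_eq_of_lt_right _ h]

lemma exists_root2 (hV : V.valuation ((2 : ℕ) : Qb) < 1) (g : Qb)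
    (hgC : g ∈ clo V 2 Nat.prime_two hV)
    (hg : V.valuation (g - 1) ≤ V.valuation ((2 : ℕ) : Qb) ^ 3) :
    ∃ z ∈ clo V 2 Nat.prime_two hV, z ^ 2 = g ∧
      V.valuation (z - 1) ≤ V.valuation ((2 : ℕ) : Qb) ^ 2 := by
  have hp0 := hp0' V 2 Nat.prime_two
  have hpos := zero_lt_iff.mpr hp0
  have h21 := two_lt V hV
  have h32 : V.valuation ((2 : ℕ) : Qb) ^ 3 < V.valuation ((2 : ℕ) : Qb) ^ 2 :=
    pow_lt_pow_right_of_lt_one₀ hpos hV (by norm_num)
  -- a root close to `1`
  have hex : ∃ z : Qb, z ^ 2 = g ∧ V.valuation (z - 1) ≤ V.valuation (z + 1) := by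
    obtain ⟨z, hz⟩ := IsAlgClosed.exists_pow_nat_eq g (n := 2) (by norm_num)
    rcases le_total (V.valuation (z - 1)) (V.valuation (z + 1)) with h | h
    · exact ⟨z, hz, h⟩
    · refine ⟨-z, by rw [neg_sq]; exact hz, ?_⟩
      have e1 : -z - 1 = -(z + 1) := by ring
      have e2 : -z + 1 = -(z - 1) := by ring
      rw [e1, e2, Valuation.map_neg, Valuation.map_neg]
      exact h
  obtain ⟨z, hz, hzle⟩ := hex
  have hprod : V.valuation (z - 1) * V.valuation (z + 1) ≤ V.valuation ((2 : ℕ) : Qb) ^ 3 := by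
    rw [← map_mul]
    have e : (z - 1) * (z + 1) = g - 1 := by rw [← hz]; ring
    rw [e]
    exact hg
  have hlt : V.valuation (z - 1) < V.valuation ((2 : ℕ) : Qb) := by
    by_contra hcon
    rw [not_lt] at hcon
    have h1 : V.valuation ((2 : ℕ) : Qb) ^ 2 ≤ V.valuation (z - 1) * V.valuation (z + 1) := by
      rw [pow_two]
      exact mul_le_mul' hcon (hcon.trans hzle)
    exact absurd (h1.trans hprod) (not_le.mpr h32)
  have hz1 := val_add_one V z hlt
  have hzm : V.valuation (z - 1) ≤ V.valuation ((2 : ℕ) : Qb) ^ 2 := by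
    rw [hz1, show (3 : ℕ) = 2 + 1 from rfl, pow_succ] at hprod
    exact (mul_le_mul_iff_left₀ hpos).mp hprod
  refine ⟨z, ?_, hz, hzm⟩
  rw [mem_clo]
  have key : ∀ M : ℕ, 2 ≤ M → ∃ B ∈ (⊥ : IntermediateField ℚ Qb),
      V.valuation (z - B) ≤ V.valuation ((2 : ℕ) : Qb) ^ M := by
    intro M hM
    induction M, hM using Nat.le_induction with
    | base => exact ⟨1, one_mem _, hzm⟩
    | succ M hM ih =>
      obtain ⟨B, hB, hzB⟩ := ih
      obtain ⟨G, hG, hgG⟩ := (mem_clo V 2 Nat.prime_two hV g).mp hgC (M + 2)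
      set δ := z - B with hδ
      have hz1' : V.valuation z = 1 := by
        have e : z = (z - 1) + 1 := by ring
        rw [e, Valuation.map_add_eq_of_lt_right, map_one]
        rw [map_one]
        exact hlt.trans hV
      have hδlt : V.valuation δ < 1 := by
        refine hzB.trans_lt ?_
        exact pow_lt_one₀ zero_le hV (by omega)
      have hB1 : V.valuation B = 1 := by
        have e : B = z - δ := by rw [hδ]; ring
        rw [e, Valuation.map_sub_eq_of_lt_left _ (by rw [hz1']; exact hδlt), hz1']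
      have hB0 : B ≠ 0 := by
        rintro rfl
        rw [map_zero] at hB1
        exact zero_ne_one hB1
      have h2Q : ((2 : ℕ) : Qb) ≠ 0 := by norm_num
      have hden : ((2 : ℕ) : Qb) * B ≠ 0 := mul_ne_zero h2Q hB0
      refine ⟨B + (G - B ^ 2) / (((2 : ℕ) : Qb) * B), ?_, ?_⟩
      · apply add_mem hB
        apply div_mem (sub_mem hG (pow_mem hB 2))
        exact mul_mem (_root_.natCast_mem _ 2) hB
      · have e : z - (B + (G - B ^ 2) / (((2 : ℕ) : Qb) * B)) =
            ((g - G) - δ ^ 2) / (((2 : ℕ) : Qb) * B) := by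
          have e1 : z - (B + (G - B ^ 2) / (((2 : ℕ) : Qb) * B)) =
              δ - (G - B ^ 2) / (((2 : ℕ) : Qb) * B) := by rw [hδ]; ring
          rw [e1, eq_div_iff hden, sub_mul, div_mul_cancel₀ _ hden, ← hz, hδ]
          push_cast
          ring
        rw [e, map_div₀, map_mul, hB1, mul_one, div_le_iff₀ hpos]
        have hδle : V.valuation (δ ^ 2) ≤ V.valuation ((2 : ℕ) : Qb) ^ (M + 2) := by
          rw [map_pow]
          calc V.valuation δ ^ 2 ≤ (V.valuation ((2 : ℕ) : Qb) ^ M) ^ 2 :=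
                pow_le_pow_left₀ zero_le hzB _
            _ = V.valuation ((2 : ℕ) : Qb) ^ (M * 2) := by rw [← pow_mul]
            _ ≤ V.valuation ((2 : ℕ) : Qb) ^ (M + 2) :=
                pow_le_pow_right_of_le_one' hV.le (by omega)
        calc V.valuation (g - G - δ ^ 2) ≤ V.valuation ((2 : ℕ) : Qb) ^ (M + 2) :=
              (Valuation.map_sub _ _ _).trans (max_le hgG hδle)
          _ = V.valuation ((2 : ℕ) : Qb) ^ (M + 1) * V.valuation ((2 : ℕ) : Qb) := by
              rw [← pow_succ]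
  intro M
  rcases Nat.lt_or_ge M 2 with hM | hM
  · obtain ⟨B, hB, hzB⟩ := key 2 le_rfl
    refine ⟨B, hB, hzB.trans ?_⟩
    exact pow_le_pow_right_of_le_one' hV.le (by omega)
  · exact key M hM

lemma exists_deep2 (hV : V.valuation ((2 : ℕ) : Qb) < 1) (M : ℕ) :
    ∀ g ∈ clo V 2 Nat.prime_two hV,
      V.valuation (g - 1) = V.valuation ((2 : ℕ) : Qb) ^ (M + 2) →
      ∃ A ∈ clo V 2 Nat.prime_two hV, A ^ 2 ^ M = g ∧
        V.valuation (A - 1) = V.valuation ((2 : ℕ) : Qb) ^ 2 := by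
  have hp0 := hp0' V 2 Nat.prime_two
  induction M with
  | zero =>
    intro g hgC h
    exact ⟨g, hgC, by rw [pow_zero, pow_one], by rw [h, zero_add]⟩
  | succ M ih =>
    intro g hgC h
    have h1 : V.valuation (g - 1) ≤ V.valuation ((2 : ℕ) : Qb) ^ 3 := by
      rw [h]
      exact pow_le_pow_right_of_le_one' hV.le (by omega)
    obtain ⟨z, hzC, hzg, hz1⟩ := exists_root2 V hV g hgC h1
    have h2 := val_add_one V z (hz1.trans_lt (two_lt V hV))
    have h3 : V.valuation (z - 1) * V.valuation ((2 : ℕ) : Qb) =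
        V.valuation ((2 : ℕ) : Qb) ^ (M + 2) * V.valuation ((2 : ℕ) : Qb) := by
      rw [← h2, ← map_mul, h2]
      have e : (z - 1) * (z + 1) = g - 1 := by rw [← hzg]; ring
      rw [e, h, ← pow_succ]
    have h4 := mul_right_cancel₀ hp0 h3
    obtain ⟨A, hAC, hAz, hA2⟩ := ih z hzC h4
    refine ⟨A, hAC, ?_, hA2⟩
    rw [pow_succ, pow_mul, hAz, hzg]

end

end Pool.Agent.H58R
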