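import Mathlib
import Pool.Agent.H58R.Two

set_option autoImplicit false

/-!
# Local structure at two, and for roots of unity
-/

namespace Pool.Agent.H58R

open IntermediateField Polynomial Module
open Pool.Agent.H58P (Qb ht qb_isIntegral alg_isIntegral)

lemma fermat_rat (V : ValuationSubring Qb) (p : ℕ) (hp : p.Prime) (s : ℚ)
    (hs1 : V.valuation (algebraMap ℚ Qb s) = 1) :
    V.valuation (algebraMap ℚ Qb s ^ p - algebraMap ℚ Qb s) ≤ V.valuation (p : Qb) := by
  have hd0 : (s.den : Qb) ≠ 0 := by exact_mod_cast s.den_ne_zero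
  have hsd : algebraMap ℚ Qb s * (s.den : Qb) = (s.num : Qb) := by
    have h1 := congrArg (algebraMap ℚ Qb) (Rat.mul_den_eq_num s)
    rw [map_mul] at h1
    simpa using h1
  have hVnd : V.valuation (s.num : Qb) = V.valuation (s.den : Qb) := by
    rw [← hsd, map_mul, hs1, one_mul]
  have hd1 : V.valuation (s.den : Qb) = 1 := by
    by_contra hcon
    have hd2 := lt_of_le_of_ne (val_nat_le V s.den) hcon
    have hcop : IsCoprime s.num (s.den : ℤ) := by
      rw [Int.isCoprime_iff_nat_coprime]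
      simpa using s.reduced
    obtain ⟨u, w, huw⟩ := hcop
    have h1 : (u : Qb) * (s.num : Qb) + (w : Qb) * (s.den : Qb) = 1 := by exact_mod_cast huw
    have h2 : ∀ k : ℤ, V.valuation (k : Qb) ≤ 1 := fun k => by
      rw [ValuationSubring.valuation_le_one_iff]
      exact intCast_mem V k
    have h3 : V.valuation ((u : Qb) * (s.num : Qb) + (w : Qb) * (s.den : Qb)) < 1 := by
      apply Valuation.map_add_lt
      · rw [map_mul, hVnd]
        calc V.valuation (u : Qb) * V.valuation (s.den : Qb) ≤ 1 * V.valuation (s.den : Qb) :=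
              mul_le_mul' (h2 u) le_rfl
          _ = V.valuation (s.den : Qb) := one_mul _
          _ < 1 := hd2
      · rw [map_mul]
        calc V.valuation (w : Qb) * V.valuation (s.den : Qb) ≤ 1 * V.valuation (s.den : Qb) :=
              mul_le_mul' (h2 w) le_rfl
          _ = V.valuation (s.den : Qb) := one_mul _
          _ < 1 := hd2
    rw [h1, map_one] at h3
    exact lt_irrefl _ h3
  have hn1 : V.valuation (s.num : Qb) = 1 := by rw [hVnd, hd1]
  have e : (algebraMap ℚ Qb s ^ p - algebraMap ℚ Qb s) * (s.den : Qb) ^ (p + 1) =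
      (s.den : Qb) * ((s.num : Qb) ^ p - (s.num : Qb)) -
        (s.num : Qb) * (((s.den : ℤ) : Qb) ^ p - ((s.den : ℤ) : Qb)) := by
    rw [← hsd]
    push_cast
    ring
  have h1 := congrArg V.valuation e
  rw [map_mul, map_pow, hd1, one_pow, mul_one] at h1
  rw [h1]
  refine (Valuation.map_sub _ _ _).trans (max_le ?_ ?_)
  · rw [map_mul, hd1, one_mul]
    exact fermat_val V p hp s.num
  · rw [map_mul, hn1, one_mul]
    exact fermat_val V p hp s.den

section
variable (V : ValuationSubring Qb)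

/-- the values of the unramified quadratic extension -/
lemma unram_val (hV : V.valuation ((2 : ℕ) : Qb) < 1) (A ρ : Qb)
    (hAC : A ∈ clo V 2 Nat.prime_two hV)
    (hA : V.valuation (A - 1) = V.valuation ((2 : ℕ) : Qb) ^ 2) (hρ : ρ ^ 2 = A) :
    ∀ z ∈ clo V 2 Nat.prime_two hV ⊔ IntermediateField.adjoin ℚ {ρ}, z ≠ 0 →
      ∃ m : ℤ, V.valuation z = V.valuation ((2 : ℕ) : Qb) ^ m := by
  intro z hz hz0
  have hp0 := hp0' V 2 Nat.prime_two
  have hpos := zero_lt_iff.mpr hp0
  set C := clo V 2 Nat.prime_two hV with hC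
  obtain ⟨b, hb⟩ := gen_mem C 2 (by norm_num) ρ (by rw [hρ]; exact hAC) z hz
  rw [Finset.sum_range_succ, Finset.sum_range_one, pow_zero, pow_one, mul_one] at hb
  set ω : Qb := (1 + ρ) / 2 with hω
  set ν : Qb := (A - 1) / ((2 : ℕ) : Qb) ^ 2 with hν
  have hων : ω ^ 2 - ω = ν := by
    rw [hω, hν, ← hρ]
    push_cast
    field_simp
    ring
  have hVν : V.valuation ν = 1 := by
    rw [hν, map_div₀, hA, map_pow, div_self (pow_ne_zero _ hp0)]
  have hprod1 : V.valuation ω * V.valuation (ω - 1) = 1 := by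
    rw [← map_mul, ← hVν, ← hων]
    congr 1
    ring
  have hω1 : V.valuation ω ≤ 1 := by
    by_contra hcon
    rw [not_le] at hcon
    have h1 : V.valuation (ω - 1) = V.valuation ω :=
      Valuation.map_sub_eq_of_lt_left _ (by rw [map_one]; exact hcon)
    rw [h1] at hprod1
    have h2 : 1 < V.valuation ω * V.valuation ω := by
      calc (1 : _) < V.valuation ω := hcon
        _ = 1 * V.valuation ω := (one_mul _).symm
        _ ≤ V.valuation ω * V.valuation ω := mul_le_mul' hcon.le le_rfl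
    exact absurd hprod1 h2.ne'
  have hω2 : V.valuation (ω - 1) ≤ 1 :=
    (Valuation.map_sub _ _ _).trans (max_le hω1 (by rw [map_one]))
  have hVω : V.valuation ω = 1 := by
    apply le_antisymm hω1
    calc (1 : _) = V.valuation ω * V.valuation (ω - 1) := hprod1.symm
      _ ≤ V.valuation ω * 1 := mul_le_mul' le_rfl hω2
      _ = _ := mul_one _
  have h1ω : V.valuation (1 + ω) = 1 := by
    have h1 : V.valuation (1 + ω) * V.valuation (ω - 2) = 1 := by
      rw [← map_mul]
      have e : (1 + ω) * (ω - 2) = ν - ((2 : ℕ) : Qb) := by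
        rw [← hων]; push_cast; ring
      rw [e, Valuation.map_sub_eq_of_lt_left _ (by rw [hVν]; exact hV), hVν]
    have h2 : V.valuation (ω - 2) ≤ 1 := by
      refine (Valuation.map_sub _ _ _).trans (max_le hω1 ?_)
      have : V.valuation ((2 : ℕ) : Qb) ≤ 1 := hV.le
      simpa using this
    have h3 : V.valuation (1 + ω) ≤ 1 :=
      (Valuation.map_add _ _ _).trans (max_le (by rw [map_one]) hω1)
    apply le_antisymm h3
    calc (1 : _) = V.valuation (1 + ω) * V.valuation (ω - 2) := h1.symm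
      _ ≤ V.valuation (1 + ω) * 1 := mul_le_mul' le_rfl h2
      _ = _ := mul_one _
  -- units of the closure are congruent to `1`
  have hres : ∀ γ ∈ C, V.valuation γ = 1 → V.valuation (γ - 1) < 1 := by
    intro γ hγ hγ1
    obtain ⟨B, hB, hγB⟩ := (mem_clo V 2 Nat.prime_two hV γ).mp hγ 1
    rw [pow_one] at hγB
    obtain ⟨s, rfl⟩ := IntermediateField.mem_bot.mp hB
    have hB1 : V.valuation (algebraMap ℚ Qb s) = 1 := by
      have e : algebraMap ℚ Qb s = γ - (γ - algebraMap ℚ Qb s) := by ring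
      rw [e, Valuation.map_sub_eq_of_lt_left _ (by rw [hγ1]; exact hγB.trans_lt hV), hγ1]
    have h1 := fermat_rat V 2 Nat.prime_two s hB1
    have e1 : algebraMap ℚ Qb s ^ 2 - algebraMap ℚ Qb s =
        algebraMap ℚ Qb s * (algebraMap ℚ Qb s - 1) := by ring
    rw [e1, map_mul, hB1, one_mul] at h1
    have e : γ - 1 = (γ - algebraMap ℚ Qb s) + (algebraMap ℚ Qb s - 1) := by ring
    rw [e]
    exact Valuation.map_add_lt _ (hγB.trans_lt hV) (h1.trans_lt hV)
  set α : Qb := (b 0 : Qb) - (b 1 : Qb) with hα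
  set β : Qb := ((2 : ℕ) : Qb) * (b 1 : Qb) with hβ
  have hαC : α ∈ C := sub_mem (b 0).2 (b 1).2
  have hβC : β ∈ C := mul_mem (_root_.natCast_mem _ 2) (b 1).2
  have hzαβ : z = α + β * ω := by
    rw [hb, hα, hβ, hω]
    push_cast
    ring
  by_cases hβ0 : β = 0
  · rw [hβ0, zero_mul, add_zero] at hzαβ
    rw [hzαβ]
    exact val_clo V 2 Nat.prime_two hV α hαC (by rw [← hzαβ]; exact hz0)
  have hβω : V.valuation (β * ω) = V.valuation β := by rw [map_mul, hVω, mul_one]
  obtain ⟨t, ht⟩ := val_clo V 2 Nat.prime_two hV β hβC hβ0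
  rcases lt_trichotomy (V.valuation α) (V.valuation β) with h | h | h
  · refine ⟨t, ?_⟩
    rw [hzαβ, Valuation.map_add_eq_of_lt_right _ (by rw [hβω]; exact h), hβω, ht]
  · refine ⟨t, ?_⟩
    have hVβ0 : V.valuation β ≠ 0 := (Valuation.ne_zero_iff _).mpr hβ0
    have hγ : V.valuation (α / β) = 1 := by rw [map_div₀, h, div_self hVβ0]
    have h1 := hres (α / β) (div_mem hαC hβC) hγ
    have e : z = β * ((α / β - 1) + (1 + ω)) := by
      rw [hzαβ]
      field_simp
      ring
    rw [e, map_mul, Valuation.map_add_eq_of_lt_right _ (by rw [h1ω]; exact h1), h1ω, mul_one, ht]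
  · have hα0 : α ≠ 0 := by
      rintro h0
      rw [h0, map_zero] at h
      exact absurd h (not_lt.mpr zero_le)
    obtain ⟨t', ht'⟩ := val_clo V 2 Nat.prime_two hV α hαC hα0
    refine ⟨t', ?_⟩
    rw [hzαβ, Valuation.map_add_eq_of_lt_left _ (by rw [hβω]; exact h), ht']

/-- the local structure at two -/
lemma unit_local2 (hV : V.valuation ((2 : ℕ) : Qb) < 1) (m : ℕ) (a : Qb)
    (ha : a ∈ (⊥ : IntermediateField ℚ Qb))
    (hap : V.valuation (a - 1) = V.valuation ((2 : ℕ) : Qb) ^ (m + 2))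
    (x : ℕ → Qb) (hx : ∀ k, x (k + 1) ^ 2 = x k) (hx0 : x 0 = a) :
    (∃ w, V.valuation ((2 : ℕ) : Qb) ≤ w ∧
      ∀ i, V.valuation (x (i + (m + 2)) - 1) ^ 2 ^ (i + 1) = w) ∧
      ∀ b ∈ (⊥ : IntermediateField ℚ Qb) ⊔ IntermediateField.adjoin ℚ {x (m + 2)},
        V.valuation (x (m + 2) - 1) ≠ V.valuation b ^ 2 := by
  have hp0 := hp0' V 2 Nat.prime_two
  have hpos := zero_lt_iff.mpr hp0
  have h21 := two_lt V hV
  have h1p : V.valuation ((1 : Qb) ^ 2 - 1) ≤ V.valuation ((2 : ℕ) : Qb) ^ 2 := by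
    rw [one_pow, sub_self, map_zero]
    exact zero_le
  set C := clo V 2 Nat.prime_two hV with hC
  have hbotC : (⊥ : IntermediateField ℚ Qb) ≤ C := bot_le
  obtain ⟨A, hAC, hAa, hA⟩ := exists_deep2 V hV m a (hbotC ha) hap
  have hA1 : V.valuation A = 1 := by
    have e : A = (A - 1) + 1 := by ring
    rw [e, Valuation.map_add_eq_of_lt_right, map_one]
    rw [map_one, hA]
    exact h21.trans hV
  have hA0 : A ≠ 0 := by
    rintro rfl
    rw [map_zero] at hA1
    exact zero_ne_one hA1
  have ha0 : a ≠ 0 := by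
    rw [← hAa]
    exact pow_ne_zero _ hA0
  have hxm : x m ^ 2 ^ m = a := by
    have h1 := r_pow 2 x hx 0 m
    rw [zero_add, hx0] at h1
    exact h1
  set ζ := x m / A with hζ
  have huζ : x m = ζ * A := by rw [hζ, div_mul_cancel₀ _ hA0]
  have hζm : ζ ^ 2 ^ m = 1 := by
    rw [hζ, div_pow, hxm, hAa, div_self ha0]
  by_cases hζ1 : ζ = 1
  · rw [hζ1, one_mul] at huζ
    have hρ : x (m + 1) ^ 2 = A := by rw [hx m, huζ]
    have hprod : V.valuation (x (m + 1) - 1) * V.valuation (x (m + 1) + 1) =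
        V.valuation ((2 : ℕ) : Qb) ^ 2 := by
      rw [← map_mul, ← hA, ← hρ]
      congr 1
      ring
    have hρ1 : V.valuation (x (m + 1) - 1) = V.valuation ((2 : ℕ) : Qb) := by
      rcases lt_trichotomy (V.valuation (x (m + 1) - 1)) (V.valuation ((2 : ℕ) : Qb)) with h | h | h
      · exfalso
        rw [val_add_one V _ h, pow_two] at hprod
        exact absurd (mul_right_cancel₀ hp0 hprod) h.ne
      · exact h
      · exfalso
        have e : x (m + 1) + 1 = (x (m + 1) - 1) + ((2 : ℕ) : Qb) := by push_cast; ring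
        rw [e, Valuation.map_add_eq_of_lt_left _ h, ← pow_two] at hprod
        have h2 := pow_lt_pow_left₀ h zero_le (two_ne_zero)
        exact absurd hprod h2.ne'
    have h := local_zeta V 2 Nat.prime_two hV (C ⊔ IntermediateField.adjoin ℚ {x (m + 1)})
      (unram_val V hV A (x (m + 1)) hAC hA hρ) 1 (map_one _) h1p (x (m + 1)) 1
      ((le_sup_right : IntermediateField.adjoin ℚ {x (m + 1)} ≤ _)
        (IntermediateField.mem_adjoin_simple_self ℚ _))
      (by
        intro h0
        rw [h0, zero_pow two_ne_zero] at hρ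
        exact hA0 hρ.symm)
      (X - Polynomial.C 1) 1 one_pos (natDegree_X_sub_C 1) (by simp) x hx (m + 1) 0
      (one_mul _).symm (by rw [pow_one]; exact hρ1)
    exact h
  · obtain ⟨f, hf0, hf, F, -, hF2, hF3⟩ := zeta_val2 V 2 Nat.prime_two m ζ hζm hζ1
    have hle : V.valuation (1 - ζ) ≤ 1 := by
      by_contra hcon
      rw [not_le] at hcon
      have h1 : 1 ≤ V.valuation (1 - ζ) ^ f := one_le_pow_of_one_le' hcon.le f
      rw [hf] at h1
      exact absurd hV (not_lt.mpr h1)
    have hge : V.valuation ((2 : ℕ) : Qb) ≤ V.valuation (1 - ζ) := by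
      rw [← hf]
      calc V.valuation (1 - ζ) ^ f ≤ V.valuation (1 - ζ) ^ 1 :=
            pow_le_pow_right_of_le_one' hle hf0
        _ = _ := pow_one _
    have e : x m - 1 = -((1 - ζ) * A) + (A - 1) := by rw [huζ]; ring
    have h1 : V.valuation (A - 1) < V.valuation (-((1 - ζ) * A)) := by
      rw [Valuation.map_neg, map_mul, hA1, mul_one, hA]
      exact h21.trans_le hge
    have hu : V.valuation (x m - 1) ^ f = V.valuation ((2 : ℕ) : Qb) := by
      rw [e, Valuation.map_add_eq_of_lt_left _ h1, Valuation.map_neg, map_mul, hA1, mul_one, hf]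
    exact local_zeta V 2 Nat.prime_two hV C (val_clo V 2 Nat.prime_two hV) 1 (map_one _) h1p A ζ
      hAC hA0 F f hf0 hF2 hF3 x hx m 1 huζ hu

end

/-- the local structure of a chain of roots of unity -/
lemma cyc_local (V : ValuationSubring Qb) (p : ℕ) (hp : p.Prime) (hV : V.valuation (p : Qb) < 1)
    (a : Qb) (ha : a ∈ (⊥ : IntermediateField ℚ Qb)) (ha1 : V.valuation a = 1) (hap : a ^ p = a)
    (x : ℕ → Qb) (hx : ∀ k, x (k + 1) ^ p = x k) (t : ℕ) (hxt : x t = a) (hxt1 : x (t + 1) ≠ a) :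
    (∃ w, V.valuation (p : Qb) ≤ w ∧
      ∀ i, V.valuation (x (i + (t + 2)) - a) ^ p ^ (i + 1) = w) ∧
      ∀ b ∈ (⊥ : IntermediateField ℚ Qb) ⊔ IntermediateField.adjoin ℚ {x (t + 2)},
        V.valuation (x (t + 2) - a) ≠ V.valuation b ^ p := by
  have ha0 : a ≠ 0 := by
    rintro rfl
    rw [map_zero] at ha1
    exact zero_ne_one ha1
  set ζ := x (t + 1) / a with hζ
  have huζ : x (t + 1) = ζ * a := by rw [hζ, div_mul_cancel₀ _ ha0]
  have hζm : ζ ^ p ^ 1 = 1 := by
    rw [pow_one, hζ, div_pow, hx t, hxt, hap, div_self ha0]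
  have hζ1 : ζ ≠ 1 := by
    intro h
    rw [h, one_mul] at huζ
    exact hxt1 huζ
  obtain ⟨f, hf0, hf, F, -, hF2, hF3⟩ := zeta_val2 V p hp 1 ζ hζm hζ1
  have hu : V.valuation (x (t + 1) - a) ^ f = V.valuation (p : Qb) := by
    have e : x (t + 1) - a = -((1 - ζ) * a) := by rw [huζ]; ring
    rw [e, Valuation.map_neg, map_mul, ha1, mul_one, hf]
  exact local_zeta V p hp hV ⊥ (val_bot V p hp hV) a ha1
    (by rw [hap, sub_self, map_zero]; exact zero_le) a ζ ha ha0 F f hf0 hF2 hF3 x hx (t + 1) 0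
    huζ hu

end Pool.Agent.H58R
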