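import Mathlib
import Pool.Agent.H58R.Two2

set_option autoImplicit false

/-!
# Assembly over `ℚ`: all units, and all numbers whose order is prime to `p`
-/

namespace Pool.Agent.H58R

open IntermediateField Polynomial Module
open Pool.Agent.H58P (Qb ht qb_isIntegral alg_isIntegral)
open Pool.Agent.H58B (ht_conj ht_pow)

/-- the local data of the chain of a unit -/
lemma unit_data (p : ℕ) (hp : p.Prime) (s : ℚ) (hs0 : s ≠ 0) (hs : padicValRat p s = 0)
    (x : ℕ → Qb) (hx : ∀ k, x (k + 1) ^ p = x k) (hx0 : x 0 = algebraMap ℚ Qb s)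
    (hnt : ∃ k, x k ≠ algebraMap ℚ Qb s) :
    ∃ N : ℕ, ∃ A ∈ (⊥ : IntermediateField ℚ Qb), ∀ V : ValuationSubring Qb,
      V.valuation (p : Qb) < 1 → V.valuation A = 1 ∧
        (∃ w, V.valuation (p : Qb) ≤ w ∧
          ∀ i, V.valuation (x (i + N) - A) ^ p ^ (i + 1) = w) ∧
        ∀ b ∈ (⊥ : IntermediateField ℚ Qb) ⊔ IntermediateField.adjoin ℚ {x N},
          V.valuation (x N - A) ≠ V.valuation b ^ p := by
  classical
  have hp' : Fact p.Prime := ⟨hp⟩
  have habot : algebraMap ℚ Qb s ∈ (⊥ : IntermediateField ℚ Qb) :=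
    IntermediateField.algebraMap_mem _ _
  have ha1 : ∀ V : ValuationSubring Qb, V.valuation (p : Qb) < 1 →
      V.valuation (algebraMap ℚ Qb s) = 1 := by
    intro V hV
    rw [val_rat V p hp hV s hs0, hs, zpow_zero]
  by_cases hpow : s ^ p = s
  · have hex := hnt
    have ht := Nat.find_spec hex
    set t1 := Nat.find hex with ht1
    have ht0 : t1 ≠ 0 := by
      intro h
      rw [h] at ht
      exact ht hx0
    obtain ⟨t, htt⟩ := Nat.exists_eq_succ_of_ne_zero ht0
    have htm : x t = algebraMap ℚ Qb s := by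
      have h1 := Nat.find_min hex (m := t) (by omega)
      push Not at h1
      exact h1
    rw [htt] at ht
    refine ⟨t + 2, algebraMap ℚ Qb s, habot, fun V hV => ⟨ha1 V hV, ?_⟩⟩
    exact cyc_local V p hp hV _ habot (ha1 V hV) (by rw [← map_pow, hpow]) x hx t htm ht
  · by_cases hp2 : p = 2
    · subst hp2
      have hs1 : s - 1 ≠ 0 := by
        intro h
        apply hpow
        have : s = 1 := by linarith
        rw [this, one_pow]
      have hval : ∀ V : ValuationSubring Qb, V.valuation ((2 : ℕ) : Qb) < 1 →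
          V.valuation (algebraMap ℚ Qb s - 1) =
            V.valuation ((2 : ℕ) : Qb) ^ padicValRat 2 (s - 1) := by
        intro V hV
        have e : algebraMap ℚ Qb s - 1 = algebraMap ℚ Qb (s - 1) := by
          rw [map_sub, map_one]
        rw [e, val_rat V 2 hp hV _ hs1]
      have hge : 1 ≤ padicValRat 2 (s - 1) := by
        obtain ⟨V, hV⟩ := exists_over 2 hp
        have hpos := zero_lt_iff.mpr (hp0' V 2 hp)
        have h1 := fermat_rat V 2 hp s (ha1 V hV)
        have e1 : algebraMap ℚ Qb s ^ 2 - algebraMap ℚ Qb s =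
            algebraMap ℚ Qb s * (algebraMap ℚ Qb s - 1) := by ring
        rw [e1, map_mul, ha1 V hV, one_mul, hval V hV] at h1
        by_contra hcon
        push Not at hcon
        have h2 : V.valuation ((2 : ℕ) : Qb) ^ (1 : ℤ) <
            V.valuation ((2 : ℕ) : Qb) ^ padicValRat 2 (s - 1) :=
          zpow_lt_zpow_right_of_lt_one₀ hpos hV hcon
        rw [zpow_one] at h2
        exact absurd h1 (not_le.mpr h2)
      rcases eq_or_lt_of_le hge with h | h
      · obtain ⟨N, hN1, hN2, hN3⟩ := unit_exp 2 hp s hs0 hs (Or.inl ⟨rfl, h.symm⟩)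
        refine ⟨N, algebraMap ℚ Qb s, habot, fun V hV => ⟨ha1 V hV, ?_⟩⟩
        exact unit_local V 2 hp hV N hN1 hN2 _ habot (ha1 V hV) (hN3 V hV) x hx hx0
      · obtain ⟨m, hm⟩ : ∃ m : ℕ, padicValRat 2 (s - 1) = ((m + 2 : ℕ) : ℤ) :=
          ⟨(padicValRat 2 (s - 1) - 2).toNat, by push_cast; omega⟩
        refine ⟨m + 2, 1, one_mem _, fun V hV => ⟨map_one _, ?_⟩⟩
        exact unit_local2 V hV m _ habot (by rw [hval V hV, hm, zpow_natCast]) x hx hx0
    · have hne1 : s ≠ 1 := by
        rintro rfl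
        exact hpow (one_pow p)
      have hne2 : s ≠ -1 := by
        rintro rfl
        exact hpow (hp.odd_of_ne_two hp2).neg_one_pow
      obtain ⟨N, hN1, hN2, hN3⟩ := unit_exp p hp s hs0 hs (Or.inr ⟨hp2, hne1, hne2⟩)
      refine ⟨N, algebraMap ℚ Qb s, habot, fun V hV => ⟨ha1 V hV, ?_⟩⟩
      exact unit_local V p hp hV N hN1 hN2 _ habot (ha1 V hV) (hN3 V hV) x hx hx0

/-- the main theorem over `ℚ`, for chains which are not constant -/
theorem main_rat3_aux (P : Finset ℕ) (hP : ∀ p ∈ P, p.Prime) (s : ℕ → ℚ) (a : ℕ → Qbˣ)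
    (has : ∀ p ∈ P, (a p : Qb) = algebraMap ℚ Qb (s p))
    (hs : ∀ p ∈ P, ¬ (p : ℤ) ∣ padicValRat p (s p) ∨ padicValRat p (s p) = 0)
    (r : ℕ → ℕ → Qb) (hr0 : ∀ p ∈ P, r p 0 = a p)
    (hr : ∀ p ∈ P, ∀ k, r p (k + 1) ^ p = r p k) (hnt : ∀ p ∈ P, ∃ k, r p k ≠ a p) :
    Small (tower ⊥ P r) (Subgroup.closure (a '' (P : Set ℕ))) := by
  classical
  have hsne : ∀ p ∈ P, s p ≠ 0 := by
    intro p hp h0
    have := has p hp
    rw [h0, map_zero] at this
    exact (a p).ne_zero this
  have hex : ∀ p ∈ P, ∃ N : ℕ, ∃ A : Qb, (¬ (p : ℤ) ∣ padicValRat p (s p) ∧ N = 0) ∨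
      (A ∈ (⊥ : IntermediateField ℚ Qb) ∧ padicValRat p (s p) = 0 ∧
      ∀ V : ValuationSubring Qb, V.valuation (p : Qb) < 1 → V.valuation A = 1 ∧
        (∃ w, V.valuation (p : Qb) ≤ w ∧
          ∀ i, V.valuation (r p (i + N) - A) ^ p ^ (i + 1) = w) ∧
        ∀ b ∈ (⊥ : IntermediateField ℚ Qb) ⊔ IntermediateField.adjoin ℚ {r p N},
          V.valuation (r p N - A) ≠ V.valuation b ^ p) := by
    intro p hp
    rcases hs p hp with h | h
    · exact ⟨0, 0, Or.inl ⟨h, rfl⟩⟩
    · obtain ⟨N, A, hA, h2⟩ := unit_data p (hP p hp) (s p) (hsne p hp) h (r p) (hr p hp)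
        (by rw [hr0 p hp, has p hp]) (by rw [← has p hp]; exact hnt p hp)
      exact ⟨N, A, Or.inr ⟨hA, h, h2⟩⟩
  choose! n A hn using hex
  have hrn : ∀ p ∈ P, ∀ k, r p k ^ p ^ k = (a p : Qb) := by
    intro p hp k
    have h1 := r_pow p (r p) (hr p hp) 0 k
    rw [zero_add] at h1
    rw [h1, hr0 p hp]
  have hrne : ∀ p ∈ P, ∀ k, r p k ≠ 0 := by
    intro p hp k h
    have h1 := hrn p hp k
    rw [h, zero_pow (pow_ne_zero _ (hP p hp).ne_zero)] at h1
    exact (a p).ne_zero h1.symm
  have habot : ∀ p ∈ P, (a p : Qb) ∈ (⊥ : IntermediateField ℚ Qb) := by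
    intro p hp
    rw [has p hp]
    exact IntermediateField.algebraMap_mem _ _
  -- the base field
  set K' : IntermediateField ℚ Qb :=
    ⊥ ⊔ IntermediateField.adjoin ℚ ((fun p => r p (n p)) '' (P : Set ℕ)) with hK'
  have hfd : FiniteDimensional ℚ K' := by
    rw [hK', bot_sup_eq]
    have hfin : Finite ((fun p => r p (n p)) '' (P : Set ℕ)) :=
      Set.Finite.image _ (Finset.finite_toSet P)
    exact IntermediateField.finiteDimensional_adjoin (fun y _ => qb_isIntegral y)
  have hbotK' : (⊥ : IntermediateField ℚ Qb) ≤ K' := le_sup_left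
  have hmemP : ∀ p ∈ P, r p (n p) ∈ K' := by
    intro p hp
    apply (le_sup_right : IntermediateField.adjoin ℚ ((fun p => r p (n p)) '' (P : Set ℕ)) ≤ K')
    exact IntermediateField.subset_adjoin ℚ _ ⟨p, Finset.mem_coe.mpr hp, rfl⟩
  set x' : ℕ → ℕ → Qb := fun p k => r p (k + n p) with hx'
  have hx'0 : ∀ p, x' p 0 = r p (n p) := by
    intro p
    show r p (0 + n p) = _
    rw [zero_add]
  have hx'ne : ∀ p ∈ P, ∀ k, x' p k ≠ 0 := fun p hp k => hrne p hp _
  have hx's : ∀ p ∈ P, ∀ k, x' p (k + 1) ^ p = x' p k := by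
    intro p hp k
    show r p (k + 1 + n p) ^ p = r p (k + n p)
    rw [add_right_comm]
    exact hr p hp (k + n p)
  set a' : ℕ → Qbˣ := fun p => if h : x' p 0 ≠ 0 then Units.mk0 (x' p 0) h else 1 with ha'
  have ha'v : ∀ p ∈ P, (a' p : Qb) = x' p 0 := by
    intro p hp
    rw [ha']
    simp only
    rw [dif_pos (hx'ne p hp 0)]
    rfl
  have hgood : ∀ p ∈ P, GoodChain K' p (x' p) := by
    intro p hpP
    have hp := hP p hpP
    rcases hn p hpP with ⟨hpv, hn0⟩ | ⟨hAbot, hpv, hloc⟩
    · have hx0e : x' p 0 = (a p : Qb) := by rw [hx'0, hn0, hr0 p hpP]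
      apply good_ram K' p hp (x' p)
      · rw [hx0e]
        exact hbotK' (habot p hpP)
      · exact hx'ne p hpP
      · exact hx's p hpP
      · intro V hV
        rw [hx0e]
        apply cond_lift ⊥ K' p hp V _ (a p : Qb) (habot p hpP)
        · intro b hb
          rw [has p hpP]
          exact cond_rat V p hp hV (s p) (hsne p hpP) hpv b hb
        · exact first_layers' ⊥ (fun q => q ^ n q) (fun q => r q (n q)) P
            (fun q hq => pow_pos (hP q hq).pos _)
            (fun q hq => by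
              show r q (n q) ^ q ^ n q ∈ _
              rw [hrn q hq]
              exact habot q hq)
            (fun q hq => hrne q hq (n q)) p hp
            (fun q hq hdvd => by
              have h1 := hp.dvd_of_dvd_pow hdvd
              have h2 := (Nat.prime_dvd_prime_iff_eq hp (hP q hq)).mp h1
              subst h2
              simp only [hn0, pow_zero] at hdvd
              exact hp.one_lt.ne' (Nat.dvd_one.mp hdvd)) V hV
    · have ha1 : ∀ V : ValuationSubring Qb, V.valuation (p : Qb) < 1 →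
          V.valuation (a p : Qb) = 1 := by
        intro V hV
        rw [has p hpP, val_rat V p hp hV _ (hsne p hpP), hpv, zpow_zero]
      apply good_unit2 K' p hp (x' p) (A p) (hbotK' hAbot)
      · rw [hx'0]; exact hmemP p hpP
      · exact hx'ne p hpP
      · exact hx's p hpP
      · intro V hV i
        have h1 := congrArg V.valuation (hrn p hpP (i + n p))
        rw [map_pow, ha1 V hV] at h1
        exact (pow_eq_one_iff_of_nonneg zero_le (pow_ne_zero _ hp.ne_zero)).mp h1
      · exact fun V hV => (hloc V hV).1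
      · intro V hV
        exact (hloc V hV).2.1
      · intro V hV
        have hle : K' ≤ (⊥ ⊔ IntermediateField.adjoin ℚ {r p (n p)}) ⊔
            IntermediateField.adjoin ℚ
              ((fun q => r q (n q)) '' ((P.erase p : Finset ℕ) : Set ℕ)) := by
          apply sup_le bot_le
          rw [IntermediateField.adjoin_le_iff]
          rintro y ⟨t, ht, rfl⟩
          by_cases htp : t = p
          · subst htp
            exact (le_sup_left : ⊥ ⊔ IntermediateField.adjoin ℚ {r t (n t)} ≤ _)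
              ((le_sup_right : IntermediateField.adjoin ℚ {r t (n t)} ≤ _)
                (IntermediateField.mem_adjoin_simple_self ℚ _))
          · apply (le_sup_right : IntermediateField.adjoin ℚ
              ((fun q => r q (n q)) '' ((P.erase p : Finset ℕ) : Set ℕ)) ≤ _)
            exact IntermediateField.subset_adjoin ℚ _
              ⟨t, by simpa using ⟨Finset.mem_coe.mp ht, htp⟩, rfl⟩
        rw [hx'0]
        have hK1 : r p (n p) ∈ (⊥ : IntermediateField ℚ Qb) ⊔
            IntermediateField.adjoin ℚ {r p (n p)} :=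
          (le_sup_right : IntermediateField.adjoin ℚ {r p (n p)} ≤ _)
            (IntermediateField.mem_adjoin_simple_self ℚ _)
        have hK2 : A p ∈ (⊥ : IntermediateField ℚ Qb) ⊔
            IntermediateField.adjoin ℚ {r p (n p)} :=
          (le_sup_left : (⊥ : IntermediateField ℚ Qb) ≤ _) hAbot
        refine cond_lift ((⊥ : IntermediateField ℚ Qb) ⊔ IntermediateField.adjoin ℚ {r p (n p)}) K'
          p hp V ?_ (r p (n p) - A p) (sub_mem hK1 hK2) (hloc V hV).2.2
        intro b hb hb0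
        exact first_layers' ((⊥ : IntermediateField ℚ Qb) ⊔ IntermediateField.adjoin ℚ {r p (n p)})
          (fun q => q ^ n q) (fun q => r q (n q)) (P.erase p)
          (fun q hq => pow_pos (hP q (Finset.mem_of_mem_erase hq)).pos _)
          (fun q hq => by
            show r q (n q) ^ q ^ n q ∈ _
            rw [hrn q (Finset.mem_of_mem_erase hq)]
            exact (le_sup_left : (⊥ : IntermediateField ℚ Qb) ≤ _)
              (habot q (Finset.mem_of_mem_erase hq)))
          (fun q hq => hrne q (Finset.mem_of_mem_erase hq) (n q)) p hp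
          (fun q hq hdvd => by
            have h1 := hp.dvd_of_dvd_pow hdvd
            have h2 := (Nat.prime_dvd_prime_iff_eq hp (hP q (Finset.mem_of_mem_erase hq))).mp h1
            exact Finset.ne_of_mem_erase hq h2.symm) V hV b (hle hb) hb0
  have hmain := (main2 K' ⊥ (small_nf K' hfd) a' x' P hP
    (fun p hp => (ha'v p hp).symm) hgood).1
  obtain ⟨c, hc, hcβ⟩ := hmain
  have htow : tower ⊥ P r ≤ tower K' P x' := by
    apply sup_le bot_le
    rw [IntermediateField.adjoin_le_iff]
    rintro y ⟨p, hp, k, rfl⟩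
    have hin : ∀ k, x' p k ∈ tower K' P x' := fun k =>
      (le_sup_right : IntermediateField.adjoin ℚ {y | ∃ p ∈ P, ∃ k, y = x' p k} ≤ _)
        (IntermediateField.subset_adjoin ℚ _ ⟨p, hp, k, rfl⟩)
    have h1 : r p k = x' p k ^ p ^ n p := (r_pow p (r p) (hr p hp) k (n p)).symm
    rw [h1]
    exact pow_mem (hin k) _
  refine ⟨c, hc, fun β hβ hβ0 hnd => hcβ β (htow hβ) hβ0 ?_⟩
  intro hin
  apply hnd
  rw [bot_sup_eq] at hin
  refine indiv_trans _ _ ?_ β hin
  rintro g ⟨p, hp, rfl⟩
  have hpP : p ∈ P := Finset.mem_coe.mp hp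
  have hmem : a p ∈ Subgroup.closure (a '' (P : Set ℕ)) :=
    Subgroup.subset_closure ⟨p, hp, rfl⟩
  refine ⟨p ^ n p, pow_pos (hP p hpP).pos _, ?_⟩
  have e : a' p ^ p ^ n p = a p := by
    apply Units.ext
    push_cast
    rw [ha'v p hpP, hx'0, hrn p hpP]
  rw [e]
  exact hmem

/-- the main theorem over `ℚ` -/
theorem main_rat3 (P : Finset ℕ) (hP : ∀ p ∈ P, p.Prime) (s : ℕ → ℚ) (a : ℕ → Qbˣ)
    (has : ∀ p ∈ P, (a p : Qb) = algebraMap ℚ Qb (s p))
    (hs : ∀ p ∈ P, ¬ (p : ℤ) ∣ padicValRat p (s p) ∨ padicValRat p (s p) = 0)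
    (r : ℕ → ℕ → Qb) (hr0 : ∀ p ∈ P, r p 0 = a p)
    (hr : ∀ p ∈ P, ∀ k, r p (k + 1) ^ p = r p k) :
    Small (tower ⊥ P r) (Subgroup.closure (a '' (P : Set ℕ))) := by
  classical
  set P' : Finset ℕ := P.filter (fun p => ∃ k, r p k ≠ a p) with hP'
  have hsub : ∀ p ∈ P', p ∈ P := fun p hp => (Finset.mem_filter.mp hp).1
  obtain ⟨c, hc, hcβ⟩ := main_rat3_aux P' (fun p hp => hP p (hsub p hp)) s a
    (fun p hp => has p (hsub p hp)) (fun p hp => hs p (hsub p hp)) r
    (fun p hp => hr0 p (hsub p hp)) (fun p hp => hr p (hsub p hp))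
    (fun p hp => (Finset.mem_filter.mp hp).2)
  have htow : tower ⊥ P r ≤ tower ⊥ P' r := by
    apply sup_le bot_le
    rw [IntermediateField.adjoin_le_iff]
    rintro y ⟨p, hp, k, rfl⟩
    by_cases h : ∃ k, r p k ≠ a p
    · exact (le_sup_right : IntermediateField.adjoin ℚ {y | ∃ p ∈ P', ∃ k, y = r p k} ≤ _)
        (IntermediateField.subset_adjoin ℚ _ ⟨p, Finset.mem_filter.mpr ⟨hp, h⟩, k, rfl⟩)
    · push Not at h
      have hk : r p k = a p := h k
      show r p k ∈ tower ⊥ P' r
      rw [hk, has p hp]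
      exact IntermediateField.algebraMap_mem _ _
  refine ⟨c, hc, fun β hβ hβ0 hnd => hcβ β (htow hβ) hβ0 ?_⟩
  rintro ⟨N, hN, g, hg, hgN⟩
  apply hnd
  refine ⟨N, hN, g, ?_, hgN⟩
  have hle : Subgroup.closure (a '' (P' : Set ℕ)) ≤ Subgroup.closure (a '' (P : Set ℕ)) := by
    apply Subgroup.closure_mono
    apply Set.image_mono
    intro p hp
    exact Finset.mem_coe.mpr (hsub p (Finset.mem_coe.mp hp))
  exact hle hg

end Pool.Agent.H58R
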